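import Pool.Agent.H38.SG.Defs
import Mathlib.Analysis.Fourier.AddCircle

/-!
# Module ArcA: the spectral subspace of an arc for the shift of `ℓ²(ℤ)`

Identify `E (Multiplicative ℤ × Unit)` with `L²` of the circle `AddCircle (1 : ℝ)` (or `2 π`) by
`fourierBasis` (a Hilbert basis indexed by `ℤ`; `HilbertBasis.repr`, reindex `ℤ` to
`Multiplicative ℤ × Unit`, e.g. with the isometry `LinearIsometryEquiv` given by `pull` along an
equivalence). The shift `rt (ofAdd 1)` corresponds to the multiplication by `fourier 1`, the left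
translation by `ofAdd n` to the multiplication by `fourier n`. Let `V` correspond to the functions
that vanish almost everywhere outside the open arc
`A = {ϕ | -cos t < Re (ω e^{2πiϕ})}` of measure `1 - t / π`. It is closed (kernel of the
multiplication by the indicator of the complement) and invariant; the projection of `dl (1, ())`
corresponds to the indicator function of `A`, whose norm squared is the measure of `A`; and for
`z ∈ V` with function `f` one has
`Re (ω ⟪z, rt (ofAdd 1) z⟫) = ∫ ‖f‖ ^ 2 Re (ω e^{2πiϕ})`, which is larger than `-cos t * ‖z‖ ^ 2` if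
`f ≠ 0`. (With the other orientation of the identification take complex conjugates: the arc is
symmetric, replace `ω` by its conjugate.)
-/

set_option autoImplicit false
set_option linter.unusedSectionVars false

namespace Pool.Agent.H84.At.SG

open scoped ENNReal InnerProductSpace Classical

variable {G : Type} [Group G] {ι κ ν : Type}

open MeasureTheory AddCircle

/-- the indices -/
private def ArcA_ix (n : ℤ) : Multiplicative ℤ × Unit := (Multiplicative.ofAdd n, ())

private theorem ArcA_ix_inj : Function.Injective ArcA_ix := by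
  intro a b h
  have h1 := congrArg (fun x : Multiplicative ℤ × Unit => Multiplicative.toAdd x.1) h
  exact h1

/-- the identification with functions on the circle -/
private noncomputable def ArcA_F [hT : Fact ((0 : ℝ) < 1)] :
    E (Multiplicative ℤ × Unit) →L[ℂ] Lp ℂ 2 (@haarAddCircle 1 hT) :=
  (fourierBasis.repr.symm.toContinuousLinearEquiv.toContinuousLinearMap :
    E ℤ →L[ℂ] Lp ℂ 2 (@haarAddCircle 1 hT)).comp (pull ArcA_ix ArcA_ix_inj)

private theorem ArcA_F_eq [hT : Fact ((0 : ℝ) < 1)] (z : E (Multiplicative ℤ × Unit)) :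
    ArcA_F z = fourierBasis.repr.symm (pull ArcA_ix ArcA_ix_inj z) := rfl

private theorem ArcA_coeff [hT : Fact ((0 : ℝ) < 1)] (z : E (Multiplicative ℤ × Unit)) (k : ℤ) :
    fourierCoeff (ArcA_F z : AddCircle (1 : ℝ) → ℂ) k = z (Multiplicative.ofAdd k, ()) := by
  rw [← fourierBasis_repr, ArcA_F_eq, LinearIsometryEquiv.apply_symm_apply]
  rfl

private theorem ArcA_push_pull (z : E (Multiplicative ℤ × Unit)) :
    push ArcA_ix ArcA_ix_inj (pull ArcA_ix ArcA_ix_inj z) = z := by
  ext ⟨x, s⟩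
  have h1 : ((x, s) : Multiplicative ℤ × Unit) = ArcA_ix (Multiplicative.toAdd x) := rfl
  rw [h1, push_apply, pull_apply]

private theorem ArcA_inner [hT : Fact ((0 : ℝ) < 1)] (z w : E (Multiplicative ℤ × Unit)) :
    ⟪ArcA_F z, ArcA_F w⟫_ℂ = ⟪z, w⟫_ℂ := by
  rw [ArcA_F_eq, ArcA_F_eq, LinearIsometryEquiv.inner_map_map, ← inner_push_right, ArcA_push_pull]

private theorem ArcA_surj [hT : Fact ((0 : ℝ) < 1)] (g : Lp ℂ 2 (@haarAddCircle 1 hT)) :
    ∃ w, ArcA_F w = g := by
  refine ⟨push ArcA_ix ArcA_ix_inj (fourierBasis.repr g), ?_⟩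
  rw [ArcA_F_eq, pull_push, LinearIsometryEquiv.symm_apply_apply]

private theorem ArcA_norm_fourier (n : ℤ) (x : AddCircle (1 : ℝ)) : ‖fourier n x‖ = 1 :=
  Circle.norm_coe _

/-- the shift is the multiplication by a character -/
private theorem ArcA_shift [hT : Fact ((0 : ℝ) < 1)] (n : ℤ) (z z' : E (Multiplicative ℤ × Unit))
    (h : ∀ k : ℤ, z' (Multiplicative.ofAdd k, ()) = z (Multiplicative.ofAdd (k - n), ())) :
    (ArcA_F z' : AddCircle (1 : ℝ) → ℂ) =ᵐ[@haarAddCircle 1 hT]
      fun x => fourier n x * (ArcA_F z : AddCircle (1 : ℝ) → ℂ) x := by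
  have hm : MemLp (fun x => fourier n x * (ArcA_F z : AddCircle (1 : ℝ) → ℂ) x) 2
      (@haarAddCircle 1 hT) := by
    refine (Lp.memLp (ArcA_F z)).of_le ?_ ?_
    · exact (fourier n).continuous.aestronglyMeasurable.mul (Lp.aestronglyMeasurable _)
    · refine Filter.Eventually.of_forall fun x => ?_
      rw [norm_mul, ArcA_norm_fourier, one_mul]
  have h1 : ArcA_F z' = hm.toLp _ := by
    apply fourierBasis.repr.injective
    ext k
    rw [fourierBasis_repr, fourierBasis_repr, ArcA_coeff, h, ← ArcA_coeff]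
    unfold fourierCoeff
    apply integral_congr_ae
    filter_upwards [hm.coeFn_toLp] with x hx
    rw [hx, smul_eq_mul, smul_eq_mul, ← mul_assoc, ← fourier_add]
    congr 2
    ring_nf
  rw [h1]
  exact hm.coeFn_toLp

/-- the arc -/
private def ArcA_A (ω : ℂ) (t : ℝ) : Set (AddCircle (1 : ℝ)) :=
  {x | -Real.cos t < (ω * fourier 1 x).re}

private theorem ArcA_open (ω : ℂ) (t : ℝ) : IsOpen (ArcA_A ω t) := by
  apply isOpen_lt continuous_const
  exact Complex.continuous_re.comp (continuous_const.mul (fourier 1).continuous)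

private theorem ArcA_meas [hT : Fact ((0 : ℝ) < 1)] (ω : ℂ) (hω : ‖ω‖ = 1) (t : ℝ) (h0 : 0 ≤ t)
    (h1 : t ≤ Real.pi) : (@haarAddCircle 1 hT).real (ArcA_A ω t) = 1 - t / Real.pi := by
  have hpi := Real.pi_pos
  obtain ⟨θ, hθ⟩ : ∃ θ : ℝ, ω = Complex.exp (θ * Complex.I) := by
    refine ⟨ω.arg, ?_⟩
    have h2 := Complex.norm_mul_exp_arg_mul_I ω
    rw [hω, Complex.ofReal_one, one_mul] at h2
    exact h2.symm
  have hval : ∀ x : ℝ, (ω * fourier 1 (x : AddCircle (1 : ℝ))).re =
      Real.cos (2 * Real.pi * x + θ) := by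
    intro x
    rw [fourier_coe_apply, hθ, ← Complex.exp_add]
    have h2 : (θ : ℂ) * Complex.I + 2 * Real.pi * Complex.I * ((1 : ℤ) : ℂ) * x / ((1 : ℝ) : ℂ) =
        ((2 * Real.pi * x + θ : ℝ) : ℂ) * Complex.I := by
      push_cast
      ring
    rw [h2, Complex.exp_ofReal_mul_I_re]
  have hvol : (@haarAddCircle 1 hT) = volume := by
    rw [volume_eq_smul_haarAddCircle]
    simp
  obtain ⟨a, ha⟩ : ∃ a : ℝ, a = -(1 / 2) - θ / (2 * Real.pi) := ⟨_, rfl⟩
  have hmp := AddCircle.measurePreserving_mk 1 a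
  have hA := (ArcA_open ω t).measurableSet
  have hset : (((↑) : ℝ → AddCircle (1 : ℝ)) ⁻¹' (ArcA_A ω t)) ∩ Set.Ioc a (a + 1) =
      Set.Ioo (a + t / (2 * Real.pi)) (a + 1 - t / (2 * Real.pi)) := by
    ext x
    simp only [Set.mem_inter_iff, Set.mem_preimage, Set.mem_Ioc, Set.mem_Ioo]
    have hmem : ((x : AddCircle (1 : ℝ)) ∈ ArcA_A ω t) ↔
        -Real.cos t < Real.cos (2 * Real.pi * x + θ) := by
      unfold ArcA_A
      rw [Set.mem_ofPred_eq, hval]
    rw [hmem, ← Real.cos_pi_sub, ← Real.cos_abs (2 * Real.pi * x + θ)]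
    have hxa : 2 * Real.pi * a + θ = -Real.pi := by
      rw [ha]
      field_simp
      ring
    have hta : 2 * Real.pi * (t / (2 * Real.pi)) = t := by field_simp
    have key : 0 ≤ Real.pi - t := by linarith
    constructor
    · rintro ⟨h2, h3, h4⟩
      have h5 : -Real.pi < 2 * Real.pi * x + θ := by
        rw [← hxa]
        have := mul_lt_mul_of_pos_left h3 (by positivity : (0 : ℝ) < 2 * Real.pi)
        linarith
      have h6 : 2 * Real.pi * x + θ ≤ Real.pi := by
        have := mul_le_mul_of_nonneg_left h4 (by positivity : (0 : ℝ) ≤ 2 * Real.pi)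
        have h7 : 2 * Real.pi * (a + 1) + θ = Real.pi := by
          rw [mul_add, mul_one]
          linarith
        linarith
      have h7 : |2 * Real.pi * x + θ| ≤ Real.pi := abs_le.2 ⟨h5.le, h6⟩
      rw [Real.strictAntiOn_cos.lt_iff_gt ⟨by linarith, by linarith⟩ ⟨abs_nonneg _, h7⟩,
        abs_lt] at h2
      obtain ⟨h8, h9⟩ := h2
      constructor
      · by_contra hcon
        push Not at hcon
        have := mul_le_mul_of_nonneg_left hcon (by positivity : (0 : ℝ) ≤ 2 * Real.pi)
        rw [mul_add, hta] at this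
        linarith
      · by_contra hcon
        push Not at hcon
        have := mul_le_mul_of_nonneg_left hcon (by positivity : (0 : ℝ) ≤ 2 * Real.pi)
        rw [mul_sub, hta, mul_add, mul_one] at this
        linarith
    · rintro ⟨h2, h3⟩
      have h4 := mul_lt_mul_of_pos_left h2 (by positivity : (0 : ℝ) < 2 * Real.pi)
      have h5 := mul_lt_mul_of_pos_left h3 (by positivity : (0 : ℝ) < 2 * Real.pi)
      rw [mul_add, hta] at h4
      rw [mul_sub, hta, mul_add, mul_one] at h5
      have h6 : |2 * Real.pi * x + θ| < Real.pi - t := abs_lt.2 ⟨by linarith, by linarith⟩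
      have h7 : 0 ≤ t / (2 * Real.pi) := by positivity
      refine ⟨?_, by linarith, by linarith⟩
      exact Real.cos_lt_cos_of_nonneg_of_le_pi (abs_nonneg _) (by linarith) h6
  have hm : volume (ArcA_A ω t) = ENNReal.ofReal (1 - t / Real.pi) := by
    rw [← hmp.measure_preimage hA.nullMeasurableSet,
      Measure.restrict_apply (hmp.measurable hA), hset, Real.volume_Ioo]
    congr 1
    field_simp
    ring
  rw [hvol, Measure.real, hm, ENNReal.toReal_ofReal]
  rw [sub_nonneg, div_le_one hpi]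
  exact h1

private theorem ArcA_dl [hT : Fact ((0 : ℝ) < 1)] :
    (ArcA_F (dl ((1 : Multiplicative ℤ), ())) : AddCircle (1 : ℝ) → ℂ) =ᵐ[@haarAddCircle 1 hT]
      fun _ => 1 := by
  have h1 : ArcA_F (dl ((1 : Multiplicative ℤ), ())) = fourierLp 2 0 := by
    have h2 : ((1 : Multiplicative ℤ), ()) = ArcA_ix 0 := rfl
    rw [ArcA_F_eq, h2, pull_dl]
    have h3 : (dl (0 : ℤ) : E ℤ) = lp.single 2 (0 : ℤ) (1 : ℂ) := by
      unfold dl
      congr!
    rw [h3, HilbertBasis.repr_symm_single, coe_fourierBasis]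
  rw [h1]
  filter_upwards [coeFn_fourierLp 2 0] with x hx
  rw [hx, fourier_zero]

/-- the subspace of the arc -/
private noncomputable def ArcA_V [hT : Fact ((0 : ℝ) < 1)] (ω : ℂ) (t : ℝ) :
    Submodule ℂ (E (Multiplicative ℤ × Unit)) :=
  LinearMap.ker ((LpToLpRestrictCLM (AddCircle (1 : ℝ)) ℂ ℂ (@haarAddCircle 1 hT) 2
    (ArcA_A ω t)ᶜ).comp ArcA_F).toLinearMap

private theorem ArcA_mem [hT : Fact ((0 : ℝ) < 1)] (ω : ℂ) (t : ℝ)
    (z : E (Multiplicative ℤ × Unit)) : z ∈ ArcA_V ω t ↔
      ∀ᵐ x ∂(@haarAddCircle 1 hT), x ∉ ArcA_A ω t → (ArcA_F z : AddCircle (1 : ℝ) → ℂ) x = 0 := by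
  have h1 : z ∈ ArcA_V ω t ↔ LpToLpRestrictCLM (AddCircle (1 : ℝ)) ℂ ℂ (@haarAddCircle 1 hT) 2
    (ArcA_A ω t)ᶜ (ArcA_F z) = 0 := Iff.rfl
  rw [h1, Lp.eq_zero_iff_ae_eq_zero]
  have h2 := LpToLpRestrictCLM_coeFn (p := 2) (μ := @haarAddCircle 1 hT) ℂ (ArcA_A ω t)ᶜ (ArcA_F z)
  have h3 := ae_restrict_iff' (μ := @haarAddCircle 1 hT) (ArcA_open ω t).measurableSet.compl
    (p := fun x => (ArcA_F z : AddCircle (1 : ℝ) → ℂ) x = 0)
  constructor
  · intro h
    refine h3.1 ?_
    filter_upwards [h, h2] with x hx hx2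
    rw [← hx2, hx]
    rfl
  · intro h
    filter_upwards [h3.2 h, h2] with x hx hx2
    rw [hx2, hx]
    rfl

theorem exists_arc (ω : ℂ) (hω : ‖ω‖ = 1) (t : ℝ) (h0 : 0 ≤ t) (h1 : t ≤ Real.pi) :
    ∃ V : Submodule ℂ (E (Multiplicative ℤ × Unit)),
      IsClosed (V : Set (E (Multiplicative ℤ × Unit))) ∧ Inv V ∧ nd V = 1 - t / Real.pi ∧
      ∀ z ∈ V, z ≠ 0 → -Real.cos t * ‖z‖ ^ 2 <
        (ω * ⟪z, rt (Multiplicative.ofAdd (1 : ℤ)) z⟫_ℂ).re := by
  have hT : Fact ((0 : ℝ) < 1) := ⟨one_pos⟩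
  have hcl : IsClosed (ArcA_V ω t : Set (E (Multiplicative ℤ × Unit))) := by
    unfold ArcA_V
    exact ContinuousLinearMap.isClosed_ker _
  have hA := (ArcA_open ω t).measurableSet
  refine ⟨ArcA_V ω t, hcl, ?_, ?_, ?_⟩
  · intro g u hu
    rw [ArcA_mem] at hu ⊢
    have h2 := ArcA_shift (Multiplicative.toAdd g) u (lt g u) (by
      intro k
      have e0 : g⁻¹ * Multiplicative.ofAdd k = Multiplicative.ofAdd (k - Multiplicative.toAdd g) := by
        apply Multiplicative.toAdd.injective
        rw [toAdd_mul, toAdd_inv, toAdd_ofAdd, toAdd_ofAdd]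
        ring
      rw [lt_apply, e0])
    filter_upwards [hu, h2] with x hx hx2 hxA
    rw [hx2, hx hxA, mul_zero]
  · obtain ⟨w, hw⟩ := ArcA_surj (indicatorConstLp 2 hA (measure_ne_top (@haarAddCircle 1 hT) _) (1 : ℂ))
    have hwae := indicatorConstLp_coeFn (p := 2) (hs := hA)
      (hμs := measure_ne_top (@haarAddCircle 1 hT) _) (c := (1 : ℂ))
    rw [← hw] at hwae
    have hwV : w ∈ ArcA_V ω t := by
      rw [ArcA_mem]
      filter_upwards [hwae] with x hx hxA
      rw [hx, Set.indicator_of_notMem hxA]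
    have hpr : pr (ArcA_V ω t) (dl ((1 : Multiplicative ℤ), ())) = w := by
      apply pr_eq_of
      · exact Submodule.le_topologicalClosure _ hwV
      · intro v hv
        rw [ArcA_mem] at hv
        rw [← ArcA_inner, map_sub, L2.inner_def]
        rw [← integral_zero (AddCircle (1 : ℝ)) ℂ (μ := @haarAddCircle 1 hT)]
        apply integral_congr_ae
        filter_upwards [hv, hwae, ArcA_dl, Lp.coeFn_sub (ArcA_F (dl ((1 : Multiplicative ℤ), ())))
          (ArcA_F w)] with x hx hx2 hx3 hx4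
        rw [hx4, Pi.sub_apply, hx3, hx2]
        by_cases hxA : x ∈ ArcA_A ω t
        · rw [Set.indicator_of_mem hxA, sub_self, inner_zero_right]
        · rw [hx hxA, inner_zero_left]
    have hnw : ‖w‖ ^ 2 = (@haarAddCircle 1 hT).real (ArcA_A ω t) := by
      have e1 : ‖w‖ ^ 2 = ‖ArcA_F w‖ ^ 2 := by
        have e2 := ArcA_inner w w
        rw [inner_self_eq_norm_sq_to_K, inner_self_eq_norm_sq_to_K] at e2
        exact_mod_cast e2.symm
      rw [e1, hw, norm_indicatorConstLp (by norm_num) (by norm_num), norm_one, one_mul,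
        ← Real.rpow_natCast, ← Real.rpow_mul measureReal_nonneg]
      norm_num
    unfold nd
    rw [Fintype.sum_unique]
    have e3 : (default : Unit) = () := rfl
    rw [e3, hpr, hnw, ArcA_meas ω hω t h0 h1]
  · intro z hz hz0
    rw [ArcA_mem] at hz
    have h2 := ArcA_shift 1 z (rt (Multiplicative.ofAdd (1 : ℤ)) z) (by
      intro k
      rw [rt_apply]
      rfl)
    have hint : Integrable (fun x => ‖(ArcA_F z : AddCircle (1 : ℝ) → ℂ) x‖ ^ 2)
        (@haarAddCircle 1 hT) := (Lp.memLp (ArcA_F z)).integrable_norm_pow (by norm_num)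
    have hi1 : ‖z‖ ^ 2 = ∫ x, ‖(ArcA_F z : AddCircle (1 : ℝ) → ℂ) x‖ ^ 2 ∂(@haarAddCircle 1 hT) := by
      have e2 := ArcA_inner z z
      rw [L2.inner_def, inner_self_eq_norm_sq_to_K] at e2
      have e3 : ∀ x, ⟪(ArcA_F z : AddCircle (1 : ℝ) → ℂ) x, (ArcA_F z : AddCircle (1 : ℝ) → ℂ) x⟫_ℂ =
          ((‖(ArcA_F z : AddCircle (1 : ℝ) → ℂ) x‖ ^ 2 : ℝ) : ℂ) := by
        intro x
        rw [inner_self_eq_norm_sq_to_K]
        push_cast
        rfl
      simp only [e3] at e2
      rw [integral_complex_ofReal] at e2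
      have e4 : ((∫ x, ‖(ArcA_F z : AddCircle (1 : ℝ) → ℂ) x‖ ^ 2 ∂(@haarAddCircle 1 hT) : ℝ) : ℂ) =
          ((‖z‖ ^ 2 : ℝ) : ℂ) := by
        rw [e2]
        push_cast
        rfl
      exact (Complex.ofReal_injective e4).symm
    have hmul : Integrable (fun x => ((‖(ArcA_F z : AddCircle (1 : ℝ) → ℂ) x‖ ^ 2 : ℝ) : ℂ) *
        (ω * fourier 1 x)) (@haarAddCircle 1 hT) := by
      refine Integrable.mono' hint ?_ ?_
      · exact hint.ofReal.aestronglyMeasurable.mul
          (continuous_const.mul (fourier 1).continuous).aestronglyMeasurable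
      · refine Filter.Eventually.of_forall fun x => ?_
        rw [norm_mul, norm_mul, hω, ArcA_norm_fourier, mul_one, mul_one, Complex.norm_real,
          Real.norm_of_nonneg (by positivity)]
    have hi2 : ω * ⟪z, rt (Multiplicative.ofAdd (1 : ℤ)) z⟫_ℂ =
        ∫ x, ((‖(ArcA_F z : AddCircle (1 : ℝ) → ℂ) x‖ ^ 2 : ℝ) : ℂ) * (ω * fourier 1 x)
          ∂(@haarAddCircle 1 hT) := by
      rw [← ArcA_inner, L2.inner_def, ← integral_const_mul]
      apply integral_congr_ae
      filter_upwards [h2] with x hx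
      rw [hx, ← smul_eq_mul (fourier 1 x), inner_smul_right, inner_self_eq_norm_sq_to_K]
      push_cast
      ring_nf
      rfl
    have hre : (ω * ⟪z, rt (Multiplicative.ofAdd (1 : ℤ)) z⟫_ℂ).re =
        ∫ x, ‖(ArcA_F z : AddCircle (1 : ℝ) → ℂ) x‖ ^ 2 * (ω * fourier 1 x).re
          ∂(@haarAddCircle 1 hT) := by
      rw [hi2]
      have e1 := integral_re hmul
      rw [RCLike.re_eq_complex_re] at e1
      rw [← e1]
      apply integral_congr_ae
      refine Filter.Eventually.of_forall fun x => ?_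
      simp only
      rw [Complex.re_ofReal_mul]
    have hint2 : Integrable (fun x => ‖(ArcA_F z : AddCircle (1 : ℝ) → ℂ) x‖ ^ 2 *
        (ω * fourier 1 x).re) (@haarAddCircle 1 hT) := by
      refine (hmul.re).congr ?_
      refine Filter.Eventually.of_forall fun x => ?_
      simp only [RCLike.re_eq_complex_re]
      rw [Complex.re_ofReal_mul]
    have hsum : (ω * ⟪z, rt (Multiplicative.ofAdd (1 : ℤ)) z⟫_ℂ).re - -Real.cos t * ‖z‖ ^ 2 =
        ∫ x, ‖(ArcA_F z : AddCircle (1 : ℝ) → ℂ) x‖ ^ 2 * ((ω * fourier 1 x).re + Real.cos t)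
          ∂(@haarAddCircle 1 hT) := by
      rw [hre, hi1, ← integral_const_mul, ← integral_sub hint2 (hint.const_mul _)]
      apply integral_congr_ae
      refine Filter.Eventually.of_forall fun x => ?_
      simp only
      ring
    have hnn : 0 ≤ᵐ[@haarAddCircle 1 hT] fun x =>
        ‖(ArcA_F z : AddCircle (1 : ℝ) → ℂ) x‖ ^ 2 * ((ω * fourier 1 x).re + Real.cos t) := by
      filter_upwards [hz] with x hx
      by_cases hxA : x ∈ ArcA_A ω t
      · have h3 : -Real.cos t < (ω * fourier 1 x).re := hxA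
        have h4 : 0 < (ω * fourier 1 x).re + Real.cos t := by linarith
        simp only [Pi.zero_apply]
        positivity
      · simp only [Pi.zero_apply]
        rw [hx hxA]
        simp
    have hpos : 0 < ∫ x, ‖(ArcA_F z : AddCircle (1 : ℝ) → ℂ) x‖ ^ 2 *
        ((ω * fourier 1 x).re + Real.cos t) ∂(@haarAddCircle 1 hT) := by
      refine lt_of_le_of_ne (integral_nonneg_of_ae hnn) fun heq => ?_
      have hint3 : Integrable (fun x => ‖(ArcA_F z : AddCircle (1 : ℝ) → ℂ) x‖ ^ 2 *
          ((ω * fourier 1 x).re + Real.cos t)) (@haarAddCircle 1 hT) := by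
        refine (hint2.add (hint.mul_const (Real.cos t))).congr ?_
        refine Filter.Eventually.of_forall fun x => ?_
        simp only [Pi.add_apply]
        ring
      have h3 := (integral_eq_zero_iff_of_nonneg_ae hnn hint3).1 heq.symm
      have h4 : ArcA_F z = 0 := by
        rw [Lp.eq_zero_iff_ae_eq_zero]
        filter_upwards [h3, hz] with x hx hx2
        by_cases hxA : x ∈ ArcA_A ω t
        · have h5 : -Real.cos t < (ω * fourier 1 x).re := hxA
          simp only [Pi.zero_apply, mul_eq_zero] at hx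
          rcases hx with hx | hx
          · simpa using hx
          · exfalso
            linarith
        · exact hx2 hxA
      apply hz0
      have h5 := ArcA_inner z z
      rw [h4, inner_zero_left] at h5
      exact inner_self_eq_zero.1 h5.symm
    rw [← hsum] at hpos
    linarith

end Pool.Agent.H84.At.SG
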