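import Pool.Agent.H38.SG.ArcA
import Pool.Agent.H84.At.Ind

/-!
# Module ArcB: the arc subspace of an element of infinite order

Let `φ : Multiplicative ℤ →* G` send `ofAdd 1` to `s` (`zpowersHom`); it is injective as `s` has
infinite order. Take `IndS φ hφ V` (`closed_ind`, `inv_ind`, `nd_ind`). For `z` in it and `R` a set of
representatives of the left cosets of `zpowers s` (`Subgroup.groupEquivQuotientProdSubgroup` or
`Quotient.out`), `‖z‖ ^ 2 = ∑' r, ‖cm φ hφ r z‖ ^ 2` and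
`⟪z, rt s z⟫ = ∑' r, ⟪cm φ hφ r z, rt (ofAdd 1) (cm φ hφ r z)⟫` (`cm` intertwines `rt s` and
`rt (ofAdd 1)`: `cm φ hφ r (rt (φ h) z) = rt h (cm φ hφ r z)` by `ext`), both sums converge
absolutely; every term satisfies the inequality, strictly if `cm φ hφ r z ≠ 0`, and some term is
nonzero if `z ≠ 0` (`Summable.tsum_lt_tsum`).
-/

set_option autoImplicit false
set_option linter.unusedSectionVars false

namespace Pool.Agent.H84.At.SG

open scoped ENNReal InnerProductSpace Classical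

variable {G : Type} [Group G] {ι κ ν : Type}

private noncomputable def ArcB_hom (s : G) : Multiplicative ℤ →* G := zpowersHom G s

private theorem ArcB_hom_apply (s : G) (n : ℤ) :
    ArcB_hom s (Multiplicative.ofAdd n) = s ^ n := by
  unfold ArcB_hom
  exact zpowersHom_apply _ s _

private theorem ArcB_hom_inj (s : G) (hs : ¬ IsOfFinOrder s) :
    Function.Injective (ArcB_hom s) := by
  intro a b hab
  have h : s ^ (Multiplicative.toAdd a) = s ^ (Multiplicative.toAdd b) := by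
    rw [← ArcB_hom_apply, ← ArcB_hom_apply, ofAdd_toAdd, ofAdd_toAdd]
    exact hab
  have h2 := (injective_zpow_iff_not_isOfFinOrder.2 hs) h
  exact Multiplicative.toAdd.injective h2

/-- the decomposition of the group into left cosets of the image -/
private noncomputable def ArcB_equiv {H : Type} [Group H] (φ : H →* G)
    (hφ : Function.Injective φ) : ((G ⧸ φ.range) × (H × Unit)) ≃ (G × Unit) :=
  Equiv.ofBijective (fun x => (x.1.out * φ x.2.1, x.2.2)) (by
    constructor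
    · rintro ⟨q, h, i⟩ ⟨q', h', i'⟩ e
      simp only [Prod.mk.injEq] at e
      obtain ⟨e, -⟩ := e
      have hq : q = q' := by
        have h1 : ((q.out * φ h : G) : G ⧸ φ.range) = q := by
          rw [QuotientGroup.mk_mul_of_mem q.out (MonoidHom.mem_range.2 ⟨h, rfl⟩)]
          exact QuotientGroup.out_eq' q
        have h2 : ((q'.out * φ h' : G) : G ⧸ φ.range) = q' := by
          rw [QuotientGroup.mk_mul_of_mem q'.out (MonoidHom.mem_range.2 ⟨h', rfl⟩)]
          exact QuotientGroup.out_eq' q'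
        rw [← h1, ← h2, e]
      subst hq
      have h3 := hφ (mul_left_cancel e)
      subst h3
      rfl
    · rintro ⟨g, i⟩
      have h1 : ((g : G ⧸ φ.range).out)⁻¹ * g ∈ φ.range := by
        rw [← QuotientGroup.eq]
        exact QuotientGroup.out_eq' _
      obtain ⟨h, hh⟩ := h1
      refine ⟨((g : G ⧸ φ.range), (h, i)), ?_⟩
      simp only [Prod.mk.injEq]
      refine ⟨?_, trivial⟩
      rw [hh, mul_inv_cancel_left])

private theorem ArcB_hasSum {H : Type} [Group H] (φ : H →* G) (hφ : Function.Injective φ)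
    (u v : E (G × Unit)) :
    HasSum (fun q : G ⧸ φ.range => ⟪cm φ hφ q.out u, cm φ hφ q.out v⟫_ℂ) ⟪u, v⟫_ℂ := by
  have h1 := lp.hasSum_inner (𝕜 := ℂ) u v
  have h2 := ((ArcB_equiv φ hφ).hasSum_iff).2 h1
  refine HasSum.prod_fiberwise h2 fun q => ?_
  exact lp.hasSum_inner (𝕜 := ℂ) (cm φ hφ q.out u) (cm φ hφ q.out v)

private theorem ArcB_hasSum_norm {H : Type} [Group H] (φ : H →* G) (hφ : Function.Injective φ)
    (u : E (G × Unit)) :
    HasSum (fun q : G ⧸ φ.range => ‖cm φ hφ q.out u‖ ^ 2) (‖u‖ ^ 2) := by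
  have h1 := ArcB_hasSum φ hφ u u
  have h2 := Complex.hasSum_re h1
  have h3 : ∀ {α : Type} (w : E α), (⟪w, w⟫_ℂ).re = ‖w‖ ^ 2 := fun w => by
    rw [inner_self_eq_norm_sq_to_K]
    norm_cast
  simpa only [h3] using h2

private theorem ArcB_ne {H : Type} [Group H] (φ : H →* G) (hφ : Function.Injective φ)
    (u : E (G × Unit)) (hu : u ≠ 0) : ∃ q : G ⧸ φ.range, cm φ hφ q.out u ≠ 0 := by
  by_contra hcon
  have hcon' : ∀ q : G ⧸ φ.range, cm φ hφ q.out u = 0 := fun q => by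
    by_contra h
    exact hcon ⟨q, h⟩
  apply hu
  have h1 := ArcB_hasSum_norm φ hφ u
  have h2 : ‖u‖ ^ 2 = 0 := by
    refine h1.unique ?_
    simp only [hcon', norm_zero]
    norm_num
  exact norm_eq_zero.1 (pow_eq_zero_iff (two_ne_zero)|>.1 h2)

private theorem ArcB_cm_rt {H : Type} [Group H] (φ : H →* G) (hφ : Function.Injective φ) (γ : G)
    (g : H) (v : E (G × Unit)) : cm φ hφ γ (rt (φ g) v) = rt g (cm φ hφ γ v) := by
  ext ⟨x, i⟩
  rw [cm_apply, rt_apply, rt_apply, cm_apply, map_mul, map_inv, mul_assoc]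

theorem arc_ind (s : G) (hs : ¬ IsOfFinOrder s) (ω : ℂ) (hω : ‖ω‖ = 1) (t : ℝ) (h0 : 0 ≤ t)
    (h1 : t ≤ Real.pi) :
    ∃ V : Submodule ℂ (E (G × Unit)),
      IsClosed (V : Set (E (G × Unit))) ∧ Inv V ∧ nd V = 1 - t / Real.pi ∧
      ∀ z ∈ V, z ≠ 0 → -Real.cos t * ‖z‖ ^ 2 < (ω * ⟪z, rt s z⟫_ℂ).re := by
  obtain ⟨V, hVc, hVi, hVn, hV⟩ := exists_arc ω hω t h0 h1
  have hφ := ArcB_hom_inj s hs
  refine ⟨IndS (ArcB_hom s) hφ V, closed_ind _ _ hVc, inv_ind _ _ _, ?_, ?_⟩
  · rw [nd_ind _ _ hVc hVi, hVn]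
  · intro z hz hz0
    have hz' := mem_ind.1 hz
    have hsum1 := (ArcB_hasSum_norm (ArcB_hom s) hφ z).mul_left (-Real.cos t)
    have hsum2 := Complex.hasSum_re ((ArcB_hasSum (ArcB_hom s) hφ z (rt s z)).mul_left ω)
    have hrt : ∀ γ : G, cm (ArcB_hom s) hφ γ (rt s z) =
        rt (Multiplicative.ofAdd (1 : ℤ)) (cm (ArcB_hom s) hφ γ z) := by
      intro γ
      rw [← ArcB_cm_rt, ArcB_hom_apply, zpow_one]
    have hlt : ∀ q : G ⧸ (ArcB_hom s).range, cm (ArcB_hom s) hφ q.out z ≠ 0 →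
        -Real.cos t * ‖cm (ArcB_hom s) hφ q.out z‖ ^ 2 <
          (ω * ⟪cm (ArcB_hom s) hφ q.out z, cm (ArcB_hom s) hφ q.out (rt s z)⟫_ℂ).re := by
      intro q hq
      rw [hrt]
      exact hV _ (hz' _) hq
    have hle : ∀ q : G ⧸ (ArcB_hom s).range,
        -Real.cos t * ‖cm (ArcB_hom s) hφ q.out z‖ ^ 2 ≤
          (ω * ⟪cm (ArcB_hom s) hφ q.out z, cm (ArcB_hom s) hφ q.out (rt s z)⟫_ℂ).re := by
      intro q
      by_cases hq : cm (ArcB_hom s) hφ q.out z = 0
      · rw [hq]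
        simp
      · exact (hlt q hq).le
    obtain ⟨q, hq⟩ := ArcB_ne (ArcB_hom s) hφ z hz0
    exact hasSum_lt hle (hlt q hq) hsum1 hsum2

end Pool.Agent.H84.At.SG
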