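import Pool.Agent.H38.SG.Defs

/-!
# Module Coord: coordinate subspaces

`nd_cs`: the projection onto `cs X` is `u ↦ ∑ i ∈ X, ci i (co i u)` (`pr_eq_of`, `inner_co`), so
`‖pr (cs X) (dl (1, i))‖ ^ 2` is `1` for `i ∈ X` and `0` otherwise.
`nd_ker_ge`: with `N = {j | ∃ i ∈ X, A i j ≠ 0}` one has `(cs X).map (rm A) ≤ cs N`, so `rank` gives
`|X| = nd (cs X) = nd (cs X ⊓ ker A) + nd ((cs X).map (rm A)) ≤ nd (ker A) + |N|`.
-/

set_option autoImplicit false
set_option linter.unusedSectionVars false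

namespace Pool.Agent.H84.At.SG

open scoped ENNReal InnerProductSpace Classical

variable {G : Type} [Group G] {ι κ ν : Type}

/-- the vectors supported on the coordinates in `X` -/
noncomputable def cs (X : Finset ι) : Submodule ℂ (E (G × ι)) :=
  ⨅ i : {i : ι // i ∉ X}, LinearMap.ker (co i.1 : E (G × ι) →L[ℂ] E (G × Unit)).toLinearMap

theorem mem_cs {X : Finset ι} {u : E (G × ι)} : u ∈ cs X ↔ ∀ i, i ∉ X → co i u = 0 := by
  unfold cs
  rw [Submodule.mem_iInf]
  exact ⟨fun h i hi => h ⟨i, hi⟩, fun h i => h i.1 i.2⟩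

theorem closed_cs (X : Finset ι) :
    IsClosed ((cs X : Submodule ℂ (E (G × ι))) : Set (E (G × ι))) := by
  unfold cs
  rw [Submodule.coe_iInf]
  exact isClosed_iInter fun i => isClosed_ker _

theorem inv_cs (X : Finset ι) : Inv (cs X : Submodule ℂ (E (G × ι))) := by
  intro g u hu
  rw [mem_cs] at hu ⊢
  intro i hi
  rw [equi_co i g u, hu i hi, map_zero]

private theorem coord_dl_mem {X : Finset ι} {i : ι} (hi : i ∈ X) :
    (dl ((1 : G), i) : E (G × ι)) ∈ (cs X : Submodule ℂ (E (G × ι))) := by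
  rw [mem_cs]
  intro j hj
  ext ⟨g, s⟩
  rw [co_apply, dl_apply, if_neg]
  · rfl
  · intro h
    exact hj ((Prod.mk.inj h).2 ▸ hi)

private theorem coord_pr_mem {X : Finset ι} {i : ι} (hi : i ∈ X) :
    pr (cs X : Submodule ℂ (E (G × ι))) (dl ((1 : G), i)) = dl ((1 : G), i) :=
  pr_eq_self (Submodule.le_topologicalClosure _ (coord_dl_mem hi))

private theorem coord_pr_notMem {X : Finset ι} {i : ι} (hi : i ∉ X) :
    pr (cs X : Submodule ℂ (E (G × ι))) (dl ((1 : G), i)) = 0 := by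
  refine pr_eq_zero ?_
  intro w hw
  rw [inner_dl_right]
  have h1 := (mem_cs.1 hw) i hi
  have h2 : w ((1 : G), i) = 0 := by
    have h3 := congrArg (fun v : E (G × Unit) => v ((1 : G), ())) h1
    exact h3
  rw [h2, map_zero]

theorem nd_cs [Fintype ι] (X : Finset ι) : nd (cs X : Submodule ℂ (E (G × ι))) = X.card := by
  unfold nd
  have h : ∀ i : ι, ‖pr (cs X : Submodule ℂ (E (G × ι))) (dl ((1 : G), i))‖ ^ 2 =
      if i ∈ X then (1 : ℝ) else 0 := by
    intro i
    by_cases hi : i ∈ X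
    · rw [if_pos hi, coord_pr_mem hi, norm_dl, one_pow]
    · rw [if_neg hi, coord_pr_notMem hi, norm_zero]
      norm_num
  rw [Finset.sum_congr rfl fun i _ => h i]
  rw [Finset.sum_ite_mem, Finset.univ_inter, Finset.sum_const, nsmul_eq_mul, mul_one]

theorem nd_ker_ge [Fintype ι] [Fintype κ] (A : Matrix ι κ (G →₀ ℂ)) (X : Finset ι) :
    (X.card : ℝ) - (Finset.univ.filter fun j : κ => ∃ i ∈ X, A i j ≠ 0).card ≤ nd (ker A) := by
  have h1 := rank (rm A) (equi_rm A) (cs X) (closed_cs X) (inv_cs X)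
  have h2 : (cs X : Submodule ℂ (E (G × ι))).map (rm A).toLinearMap ≤
      cs (Finset.univ.filter fun j : κ => ∃ i ∈ X, A i j ≠ 0) := by
    rintro _ ⟨u, hu, rfl⟩
    rw [mem_cs]
    intro j hj
    have h3 : co j (rm A u) = 0 := by
      rw [co_rm]
      refine Finset.sum_eq_zero fun i _ => ?_
      by_cases hi : i ∈ X
      · have h4 : A i j = 0 := by
          by_contra h5
          exact hj (Finset.mem_filter.2 ⟨Finset.mem_univ j, i, hi, h5⟩)
        rw [h4, cv_zero]
        rfl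
      · rw [(mem_cs.1 hu) i hi, map_zero]
    exact h3
  have h6 := nd_mono h2
  rw [nd_cs] at h6
  have h7 : nd ((cs X : Submodule ℂ (E (G × ι))) ⊓ LinearMap.ker (rm A).toLinearMap) ≤
      nd (ker A) := nd_mono inf_le_right
  rw [nd_cs] at h1
  linarith

end Pool.Agent.H84.At.SG
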