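import Pool.Agent.H84.At.Mx
import Pool.Agent.H84.At.Rank

/-!
# Kernels of sparse matrices over group rings: definitions

`bl k`, `bi k` the `k`-th block of a vector of `ℓ²(G)^(κ × ι)` and its inclusion, `prodS K` the
product of submodules; `el a` the `1 × 1` matrix of an element of the group ring; `flt S A` the part
of a matrix on a family of sets; `wt ζ e A` the matrix with the coefficient of `g` in the entry
`(i, j)` multiplied by `ζ ^ e i j g`.
-/

set_option autoImplicit false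
set_option linter.unusedSectionVars false

namespace Pool.Agent.H84.At.SG



open scoped ENNReal InnerProductSpace Classical

variable {G : Type} [Group G] {ι κ ν : Type}

theorem bl_inj (k : κ) : Function.Injective (fun i : ι => (k, i)) :=
  fun _ _ h => (Prod.mk.inj h).2

/-- the `k`-th block -/
noncomputable def bl (k : κ) : E (G × (κ × ι)) →L[ℂ] E (G × ι) := cr (fun i => (k, i)) (bl_inj k)

/-- the inclusion of the `k`-th block -/
noncomputable def bi (k : κ) : E (G × ι) →L[ℂ] E (G × (κ × ι)) := ce (fun i => (k, i)) (bl_inj k)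

@[simp] theorem bl_apply (k : κ) (u : E (G × (κ × ι))) (g : G) (i : ι) :
    bl k u (g, i) = u (g, (k, i)) := rfl

theorem bi_apply_self (k : κ) (u : E (G × ι)) (g : G) (i : ι) :
    bi k u (g, (k, i)) = u (g, i) := ce_apply (fun i => (k, i)) (bl_inj k) u g i

theorem bi_apply_ne {k l : κ} (h : l ≠ k) (u : E (G × ι)) (g : G) (i : ι) :
    bi k u (g, (l, i)) = 0 := by
  refine ce_apply_of_notMem (fun i => (k, i)) (bl_inj k) u g (l, i) ?_
  rintro ⟨j, hj⟩
  exact h (Prod.mk.inj hj).1.symm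

theorem equi_bl (k : κ) : Equi (bl k : E (G × (κ × ι)) →L[ℂ] E (G × ι)) := equi_cr _ _

theorem equi_bi (k : κ) : Equi (bi k : E (G × ι) →L[ℂ] E (G × (κ × ι))) := equi_ce _ _

theorem bl_bi (k : κ) (u : E (G × ι)) : bl k (bi k u) = u := cr_ce _ _ u

theorem bl_bi_ne {k l : κ} (h : l ≠ k) (u : E (G × ι)) : bl l (bi k u) = 0 := by
  ext ⟨g, i⟩
  rw [bl_apply, bi_apply_ne h]
  rfl

theorem ext_bl {u v : E (G × (κ × ι))} (h : ∀ k, bl k u = bl k v) : u = v := by
  ext ⟨g, k, i⟩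
  have h1 := congrArg (fun w : E (G × ι) => w (g, i)) (h k)
  exact h1

theorem sum_bi_bl [Fintype κ] (u : E (G × (κ × ι))) : ∑ k, bi k (bl k u) = u := by
  apply ext_bl
  intro l
  rw [map_sum, Finset.sum_eq_single l, bl_bi]
  · intro k _ hk
    exact bl_bi_ne hk.symm _
  · intro h
    exact absurd (Finset.mem_univ l) h

theorem inner_bi (k : κ) (u : E (G × ι)) (v : E (G × (κ × ι))) :
    ⟪bi k u, v⟫_ℂ = ⟪u, bl k v⟫_ℂ := by
  unfold bi bl
  rw [ce_eq_adjoint, ContinuousLinearMap.adjoint_inner_left]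

theorem dl_bi (g : G) (k : κ) (i : ι) : (dl (g, (k, i)) : E (G × (κ × ι))) = bi k (dl (g, i)) :=
  (push_dl _ (cr_inj G (fun i => (k, i)) (bl_inj k)) (g, i)).symm

/-- the product of submodules -/
noncomputable def prodS (K : κ → Submodule ℂ (E (G × ι))) : Submodule ℂ (E (G × (κ × ι))) :=
  ⨅ k, (K k).comap (bl k : E (G × (κ × ι)) →L[ℂ] E (G × ι)).toLinearMap

theorem mem_prodS {K : κ → Submodule ℂ (E (G × ι))} {u : E (G × (κ × ι))} :
    u ∈ prodS K ↔ ∀ k, bl k u ∈ K k := by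
  unfold prodS
  rw [Submodule.mem_iInf]
  rfl

theorem closed_prodS {K : κ → Submodule ℂ (E (G × ι))}
    (hK : ∀ k, IsClosed (K k : Set (E (G × ι)))) :
    IsClosed (prodS K : Set (E (G × (κ × ι)))) := by
  have h : (prodS K : Set (E (G × (κ × ι)))) = ⋂ k, (fun u => bl k u) ⁻¹' (K k) := by
    ext u
    simp only [SetLike.mem_coe, mem_prodS, Set.mem_iInter, Set.mem_preimage]
  rw [h]
  exact isClosed_iInter fun k => (hK k).preimage (bl k).continuous

theorem inv_prodS {K : κ → Submodule ℂ (E (G × ι))} (hK : ∀ k, Inv (K k)) : Inv (prodS K) := by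
  intro g u hu
  rw [mem_prodS] at hu ⊢
  intro k
  rw [equi_bl k g u]
  exact hK k g _ (hu k)

/-- the `1 × 1` matrix of an element of the group ring -/
def el (a : G →₀ ℂ) : Matrix Unit Unit (G →₀ ℂ) := fun _ _ => a

/-- the part of a matrix on a family of sets -/
noncomputable def flt (S : ι → κ → Set G) (A : Matrix ι κ (G →₀ ℂ)) : Matrix ι κ (G →₀ ℂ) :=
  fun i j => (A i j).filter (· ∈ S i j)

theorem flt_apply (S : ι → κ → Set G) (A : Matrix ι κ (G →₀ ℂ)) (i : ι) (j : κ) (g : G) :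
    flt S A i j g = if g ∈ S i j then A i j g else 0 := by
  unfold flt
  rw [Finsupp.filter_apply]

/-- the coefficient of `g` in the entry `(i, j)` multiplied by `ζ ^ e i j g` -/
noncomputable def wt (ζ : ℂ) (e : ι → κ → G → ℤ) (A : Matrix ι κ (G →₀ ℂ)) :
    Matrix ι κ (G →₀ ℂ) :=
  fun i j => Finsupp.onFinset (A i j).support (fun g => ζ ^ e i j g * A i j g) (by
    intro g hg
    rw [Finsupp.mem_support_iff]
    exact right_ne_zero_of_mul hg)

theorem wt_apply (ζ : ℂ) (e : ι → κ → G → ℤ) (A : Matrix ι κ (G →₀ ℂ)) (i : ι) (j : κ) (g : G) :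
    wt ζ e A i j g = ζ ^ e i j g * A i j g := rfl

/-- the `k`-th block of a vector of `ℓ²(G)^(M × ι)`, zero when `k` is out of range -/
noncomputable def bn (M k : ℕ) : E (G × (Fin M × ι)) →L[ℂ] E (G × ι) :=
  if h : k < M then bl (⟨k, h⟩ : Fin M) else 0

theorem bn_of_lt {M k : ℕ} (h : k < M) :
    (bn M k : E (G × (Fin M × ι)) →L[ℂ] E (G × ι)) = bl (⟨k, h⟩ : Fin M) := dif_pos h

theorem bn_fin {M : ℕ} (k : Fin M) :
    (bn M (k : ℕ) : E (G × (Fin M × ι)) →L[ℂ] E (G × ι)) = bl k := dif_pos k.2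

theorem equi_bn (M k : ℕ) : Equi (bn M k : E (G × (Fin M × ι)) →L[ℂ] E (G × ι)) := by
  by_cases h : k < M
  · rw [bn_of_lt h]
    exact equi_bl _
  · unfold bn
    rw [dif_neg h]
    exact Equi.zero

/-- the solutions of the block Toeplitz system `∑ k ≤ d, P k (y (l + k)) = 0` for `l < N` -/
noncomputable def toep (P : ℕ → E (G × ι) →L[ℂ] E (G × κ)) (d N : ℕ) :
    Submodule ℂ (E (G × (Fin (d + N) × ι))) :=
  ⨅ l : Fin N, LinearMap.ker
    (∑ k : Fin (d + 1), (P k).comp (bn (d + N) (l + k))).toLinearMap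

theorem mem_toep {P : ℕ → E (G × ι) →L[ℂ] E (G × κ)} {d N : ℕ}
    {y : E (G × (Fin (d + N) × ι))} :
    y ∈ toep P d N ↔ ∀ l : ℕ, l < N → ∑ k : Fin (d + 1), P k (bn (d + N) (l + k) y) = 0 := by
  unfold toep
  rw [Submodule.mem_iInf]
  have key : ∀ l : ℕ, (∑ k : Fin (d + 1), (P k).comp (bn (d + N) (l + k))) y =
      ∑ k : Fin (d + 1), P k (bn (d + N) (l + k) y) := by
    intro l
    rw [ContinuousLinearMap.sum_apply]
    rfl
  constructor
  · intro h l hl
    rw [← key l]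
    exact h ⟨l, hl⟩
  · intro h l
    have h1 := h l l.2
    rw [← key l] at h1
    exact h1

theorem closed_toep (P : ℕ → E (G × ι) →L[ℂ] E (G × κ)) (d N : ℕ) :
    IsClosed (toep P d N : Set (E (G × (Fin (d + N) × ι)))) := by
  unfold toep
  rw [Submodule.coe_iInf]
  exact isClosed_iInter fun l => isClosed_ker _

theorem inv_toep {P : ℕ → E (G × ι) →L[ℂ] E (G × κ)} (hP : ∀ k, Equi (P k)) (d N : ℕ) :
    Inv (toep P d N) := by
  intro g y hy
  rw [mem_toep] at hy ⊢
  intro l hl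
  have h1 : ∀ k : Fin (d + 1), P k (bn (d + N) (l + k) (lt g y)) =
      lt g (P k (bn (d + N) (l + k) y)) := by
    intro k
    rw [equi_bn _ _ g y, hP k g]
  rw [Finset.sum_congr rfl fun k _ => h1 k, ← map_sum, hy l hl, map_zero]

/-- the value at `ζ` of the operator polynomial with coefficients `P 0, …, P d` -/
noncomputable def pol (P : ℕ → E (G × ι) →L[ℂ] E (G × κ)) (d : ℕ) (ζ : ℂ) :
    E (G × ι) →L[ℂ] E (G × κ) := ∑ k : Fin (d + 1), ζ ^ (k : ℕ) • P k

theorem pol_apply (P : ℕ → E (G × ι) →L[ℂ] E (G × κ)) (d : ℕ) (ζ : ℂ) (u : E (G × ι)) :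
    pol P d ζ u = ∑ k : Fin (d + 1), ζ ^ (k : ℕ) • P k u := by
  unfold pol
  rw [ContinuousLinearMap.sum_apply]
  rfl

theorem equi_pol {P : ℕ → E (G × ι) →L[ℂ] E (G × κ)} (hP : ∀ k, Equi (P k)) (d : ℕ) (ζ : ℂ) :
    Equi (pol P d ζ) := Equi.sum fun k => (hP k).smul _

/-- the kernel of a bounded operator -/
noncomputable def kr (T : E (G × ι) →L[ℂ] E (G × κ)) : Submodule ℂ (E (G × ι)) :=
  LinearMap.ker T.toLinearMap

theorem mem_kr {T : E (G × ι) →L[ℂ] E (G × κ)} {u : E (G × ι)} : u ∈ kr T ↔ T u = 0 := Iff.rfl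

theorem closed_kr (T : E (G × ι) →L[ℂ] E (G × κ)) : IsClosed (kr T : Set (E (G × ι))) :=
  isClosed_ker T

theorem inv_kr {T : E (G × ι) →L[ℂ] E (G × κ)} (hT : Equi T) : Inv (kr T) := Inv.ker hT

end Pool.Agent.H84.At.SG
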