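import Pool.Agent.H38.SG.Defs

/-!
# Module DomA: kernels of doubly diagonally dominant matrices

Write `d j = A j j 1`, `x_i = co i x`, `C j` and `R i` for the column and row sums of absolute values.
`x ∈ ker A` means `∑ i, ∑ g ∈ (A i j).support, A i j g • rt g x_i = 0` for every `j` (`mem_ker`, `cv`).
Forward: for `v j = d j / ‖d j‖` and for the triples `(i, j, g)` with `A i j g ≠ 0` other than the
diagonal ones `(j, j, 1)` put
`Q i j g = ‖A i j g‖ * ‖(A i j g / ‖A i j g‖) • rt g x_i + v j • x_j‖ ^ 2`. Expanding the squares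
(`norm_add_sq`, `norm_rt`) and summing, with `∑ (i,g), A i j g * ⟪v j • x_j, rt g x_i⟫ = 0` (diagonal
term included, it contributes `‖d j‖ * ‖x_j‖ ^ 2`):
`∑ Q i j g = ∑ i, ‖x_i‖ ^ 2 * (R i + C i - 4 * ‖d i‖) ≤ 0`.
So every `Q i j g` is `0`, which is the relation divided by positive numbers (`d j ≠ 0` if some
`A i j g ≠ 0`, by `h2`), and `‖x_j‖ = 0` if `C j < 2 * ‖d j‖`.
Backward: by the relations the sum of the column `j` is
`((2 * ‖d j‖ - C j) / ‖d j‖) • d j • x_j` if `d j ≠ 0`, and the column is zero if `d j = 0`.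
-/

set_option autoImplicit false
set_option linter.unusedSectionVars false

namespace Pool.Agent.H84.At.SG

open scoped ENNReal InnerProductSpace Classical

variable {G : Type} [Group G] {ι κ ν : Type}

private theorem DomA_ker [Fintype ι] (A : Matrix ι ι (G →₀ ℂ)) (x : E (G × ι)) :
    x ∈ ker A ↔ ∀ j, ∑ i, ∑ g ∈ (A i j).support, A i j g • rt g (co i x) = 0 := by
  rw [mem_ker]
  refine forall_congr' fun j => ?_
  have : ∀ i, cv (A i j) (co i x) = ∑ g ∈ (A i j).support, A i j g • rt g (co i x) := by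
    intro i
    have h1 : cv (A i j) = ∑ g ∈ (A i j).support, (A i j) g • rt g := rfl
    rw [h1, _root_.sum_apply]
    rfl
  rw [Finset.sum_congr rfl fun i _ => this i]

private theorem DomA_zero [Fintype ι] (A : Matrix ι ι (G →₀ ℂ))
    (h2 : ∀ j, ∑ i, ∑ g ∈ (A i j).support, ‖A i j g‖ ≤ 2 * ‖A j j 1‖) {i j : ι} {g : G}
    (h : A j j 1 = 0) : A i j g = 0 := by
  by_contra hne
  have h3 := h2 j
  rw [h, norm_zero, mul_zero] at h3
  have h4 : ‖A i j g‖ ≤ ∑ g ∈ (A i j).support, ‖A i j g‖ :=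
    Finset.single_le_sum (f := fun g => ‖A i j g‖) (fun _ _ => norm_nonneg _)
      (Finsupp.mem_support_iff.2 hne)
  have h5 : ∑ g ∈ (A i j).support, ‖A i j g‖ ≤ ∑ i, ∑ g ∈ (A i j).support, ‖A i j g‖ :=
    Finset.single_le_sum (f := fun i => ∑ g ∈ (A i j).support, ‖A i j g‖)
      (fun _ _ => Finset.sum_nonneg fun _ _ => norm_nonneg _) (Finset.mem_univ i)
  have h6 : 0 < ‖A i j g‖ := norm_pos_iff.2 hne
  linarith

/-- the quadratic expression -/
private noncomputable def DomA_Q (A : Matrix ι ι (G →₀ ℂ)) (x : E (G × ι)) (i j : ι) (g : G) : ℝ :=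
  ‖A i j g‖ * ‖(((‖A i j g‖ : ℝ) : ℂ)⁻¹ * A i j g) • rt g (co i x) +
    (((‖A j j 1‖ : ℝ) : ℂ)⁻¹ * A j j 1) • co j x‖ ^ 2

private theorem DomA_unit {z : ℂ} (hz : z ≠ 0) : ‖((‖z‖ : ℝ) : ℂ)⁻¹ * z‖ = 1 := by
  rw [norm_mul, norm_inv, Complex.norm_real, norm_norm]
  exact inv_mul_cancel₀ (norm_ne_zero_iff.2 hz)

private theorem DomA_Qval [Fintype ι] (A : Matrix ι ι (G →₀ ℂ))
    (h2 : ∀ j, ∑ i, ∑ g ∈ (A i j).support, ‖A i j g‖ ≤ 2 * ‖A j j 1‖) (x : E (G × ι)) (i j : ι)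
    (g : G) :
    DomA_Q A x i j g = ‖A i j g‖ * (‖co i x‖ ^ 2 + ‖co j x‖ ^ 2) +
      2 * RCLike.re ⟪(((‖A j j 1‖ : ℝ) : ℂ)⁻¹ * A j j 1) • co j x, A i j g • rt g (co i x)⟫_ℂ := by
  unfold DomA_Q
  by_cases hA : A i j g = 0
  · rw [hA]
    simp
  · have hD : A j j 1 ≠ 0 := fun h => hA (DomA_zero A h2 h)
    have hA' : ((‖A i j g‖ : ℝ) : ℂ) ≠ 0 := by
      exact_mod_cast norm_ne_zero_iff.2 hA
    rw [@norm_add_sq ℂ, norm_smul, norm_smul, norm_rt, DomA_unit hA, DomA_unit hD]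
    have e1 : ⟪(((‖A i j g‖ : ℝ) : ℂ)⁻¹ * A i j g) • rt g (co i x),
        (((‖A j j 1‖ : ℝ) : ℂ)⁻¹ * A j j 1) • co j x⟫_ℂ =
        ((‖A i j g‖⁻¹ : ℝ) : ℂ) * ⟪A i j g • rt g (co i x),
          (((‖A j j 1‖ : ℝ) : ℂ)⁻¹ * A j j 1) • co j x⟫_ℂ := by
      rw [mul_smul (((‖A i j g‖ : ℝ) : ℂ)⁻¹), inner_smul_left]
      congr 1
      rw [map_inv₀, Complex.conj_ofReal, Complex.ofReal_inv]
    have e2 : RCLike.re ⟪A i j g • rt g (co i x),
          (((‖A j j 1‖ : ℝ) : ℂ)⁻¹ * A j j 1) • co j x⟫_ℂ =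
        RCLike.re ⟪(((‖A j j 1‖ : ℝ) : ℂ)⁻¹ * A j j 1) • co j x, A i j g • rt g (co i x)⟫_ℂ := by
      rw [← inner_conj_symm, RCLike.conj_re]
    have e3 : RCLike.re (((‖A i j g‖⁻¹ : ℝ) : ℂ) * ⟪A i j g • rt g (co i x),
          (((‖A j j 1‖ : ℝ) : ℂ)⁻¹ * A j j 1) • co j x⟫_ℂ) = ‖A i j g‖⁻¹ *
        RCLike.re ⟪A i j g • rt g (co i x),
          (((‖A j j 1‖ : ℝ) : ℂ)⁻¹ * A j j 1) • co j x⟫_ℂ := by
      show (((‖A i j g‖⁻¹ : ℝ) : ℂ) * _).re = _
      rw [Complex.re_ofReal_mul]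
      rfl
    rw [e1, e3, e2]
    have hn : ‖A i j g‖ ≠ 0 := norm_ne_zero_iff.2 hA
    field_simp
    ring

private theorem DomA_sum [Fintype ι] (A : Matrix ι ι (G →₀ ℂ))
    (h2 : ∀ j, ∑ i, ∑ g ∈ (A i j).support, ‖A i j g‖ ≤ 2 * ‖A j j 1‖) (x : E (G × ι))
    (hx : x ∈ ker A) :
    ∑ j, ∑ i, ∑ g ∈ (A i j).support, DomA_Q A x i j g =
      ∑ i, ‖co i x‖ ^ 2 * (∑ j, ∑ g ∈ (A i j).support, ‖A i j g‖) +
        ∑ j, ‖co j x‖ ^ 2 * (∑ i, ∑ g ∈ (A i j).support, ‖A i j g‖) := by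
  rw [DomA_ker] at hx
  have h3 : ∀ j, ∑ i, ∑ g ∈ (A i j).support, DomA_Q A x i j g =
      ∑ i, ∑ g ∈ (A i j).support, ‖A i j g‖ * (‖co i x‖ ^ 2 + ‖co j x‖ ^ 2) := by
    intro j
    have h4 : ∑ i, ∑ g ∈ (A i j).support,
        (2 * RCLike.re ⟪(((‖A j j 1‖ : ℝ) : ℂ)⁻¹ * A j j 1) • co j x,
          A i j g • rt g (co i x)⟫_ℂ) = 0 := by
      have h5 : ⟪(((‖A j j 1‖ : ℝ) : ℂ)⁻¹ * A j j 1) • co j x,
          ∑ i, ∑ g ∈ (A i j).support, A i j g • rt g (co i x)⟫_ℂ = 0 := by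
        rw [hx j, inner_zero_right]
      rw [inner_sum] at h5
      have h6 := congrArg (fun z : ℂ => 2 * (RCLike.re z : ℝ)) h5
      simp only [map_sum, map_zero, mul_zero, Finset.mul_sum, inner_sum] at h6
      exact h6
    calc ∑ i, ∑ g ∈ (A i j).support, DomA_Q A x i j g
        = ∑ i, ∑ g ∈ (A i j).support, (‖A i j g‖ * (‖co i x‖ ^ 2 + ‖co j x‖ ^ 2) +
            2 * RCLike.re ⟪(((‖A j j 1‖ : ℝ) : ℂ)⁻¹ * A j j 1) • co j x,
              A i j g • rt g (co i x)⟫_ℂ) := by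
          refine Finset.sum_congr rfl fun i _ => Finset.sum_congr rfl fun g _ => ?_
          exact DomA_Qval A h2 x i j g
      _ = _ := by
          simp only [Finset.sum_add_distrib]
          rw [h4, add_zero]
  rw [Finset.sum_congr rfl fun j _ => h3 j]
  have h7 : ∀ j, ∑ i, ∑ g ∈ (A i j).support, ‖A i j g‖ * (‖co i x‖ ^ 2 + ‖co j x‖ ^ 2) =
      ∑ i, ‖co i x‖ ^ 2 * (∑ g ∈ (A i j).support, ‖A i j g‖) +
        ‖co j x‖ ^ 2 * ∑ i, (∑ g ∈ (A i j).support, ‖A i j g‖) := by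
    intro j
    rw [Finset.mul_sum, ← Finset.sum_add_distrib]
    refine Finset.sum_congr rfl fun i _ => ?_
    rw [← Finset.sum_mul]
    ring
  rw [Finset.sum_congr rfl fun j _ => h7 j, Finset.sum_add_distrib, Finset.sum_comm]
  congr 1
  refine Finset.sum_congr rfl fun i _ => ?_
  rw [Finset.mul_sum]

private theorem DomA_Qdiag [Fintype ι] (A : Matrix ι ι (G →₀ ℂ)) (x : E (G × ι)) (j : ι) :
    DomA_Q A x j j 1 = 4 * ‖A j j 1‖ * ‖co j x‖ ^ 2 := by
  unfold DomA_Q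
  by_cases hD : A j j 1 = 0
  · rw [hD]
    simp
  · rw [rt_one, ← two_smul ℂ ((((‖A j j 1‖ : ℝ) : ℂ)⁻¹ * A j j 1) • co j x), norm_smul, norm_smul,
      DomA_unit hD]
    have : ‖(2 : ℂ)‖ = 2 := by simp
    rw [this]
    ring

theorem dom_iff [Fintype ι] (A : Matrix ι ι (G →₀ ℂ))
    (h1 : ∀ i, ∑ j, ∑ g ∈ (A i j).support, ‖A i j g‖ ≤ 2 * ‖A i i 1‖)
    (h2 : ∀ j, ∑ i, ∑ g ∈ (A i j).support, ‖A i j g‖ ≤ 2 * ‖A j j 1‖) (x : E (G × ι)) :
    x ∈ ker A ↔
      (∀ i j g, (i ≠ j ∨ g ≠ 1) →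
        (((‖A j j 1‖ : ℝ) : ℂ) * A i j g) • rt g (co i x) +
          (((‖A i j g‖ : ℝ) : ℂ) * A j j 1) • co j x = 0) ∧
      (∀ j, ∑ i, ∑ g ∈ (A i j).support, ‖A i j g‖ < 2 * ‖A j j 1‖ → co j x = 0) := by
  constructor
  · intro hx
    have hQ : ∀ i j g, 0 ≤ DomA_Q A x i j g := fun i j g => by
      unfold DomA_Q
      positivity
    have hs := DomA_sum A h2 x hx
    -- the sum without the diagonal terms
    have h3 : ∀ j, ∑ i, ∑ g ∈ (A i j).support, (if i = j ∧ g = 1 then DomA_Q A x i j g else 0) =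
        4 * ‖A j j 1‖ * ‖co j x‖ ^ 2 := by
      intro j
      rw [Finset.sum_eq_single j, Finset.sum_eq_single (1 : G)]
      · rw [if_pos ⟨rfl, rfl⟩]
        exact DomA_Qdiag A x j
      · intro g _ hg
        exact if_neg fun h => hg h.2
      · intro h
        rw [if_pos ⟨rfl, rfl⟩, DomA_Qdiag, Finsupp.notMem_support_iff.1 h]
        simp
      · intro i _ hi
        exact Finset.sum_eq_zero fun g _ => if_neg fun h => hi h.1
      · intro h
        exact absurd (Finset.mem_univ j) h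
    have h4 : ∑ j, ∑ i, ∑ g ∈ (A i j).support, (if i = j ∧ g = 1 then 0 else DomA_Q A x i j g) =
        ∑ i, ‖co i x‖ ^ 2 * ((∑ j, ∑ g ∈ (A i j).support, ‖A i j g‖) +
          (∑ k, ∑ g ∈ (A k i).support, ‖A k i g‖) - 4 * ‖A i i 1‖) := by
      have h5 : ∑ j, ∑ i, ∑ g ∈ (A i j).support, DomA_Q A x i j g =
          ∑ j, ∑ i, ∑ g ∈ (A i j).support, (if i = j ∧ g = 1 then DomA_Q A x i j g else 0) +
          ∑ j, ∑ i, ∑ g ∈ (A i j).support, (if i = j ∧ g = 1 then 0 else DomA_Q A x i j g) := by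
        simp only [← Finset.sum_add_distrib]
        refine Finset.sum_congr rfl fun j _ => Finset.sum_congr rfl fun i _ =>
          Finset.sum_congr rfl fun g _ => ?_
        split_ifs <;> simp
      rw [hs, Finset.sum_congr rfl fun j _ => h3 j] at h5
      have h6 : ∑ i, ‖co i x‖ ^ 2 * ((∑ j, ∑ g ∈ (A i j).support, ‖A i j g‖) +
          (∑ k, ∑ g ∈ (A k i).support, ‖A k i g‖) - 4 * ‖A i i 1‖) =
          ∑ i, ‖co i x‖ ^ 2 * (∑ j, ∑ g ∈ (A i j).support, ‖A i j g‖) +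
          ∑ j, ‖co j x‖ ^ 2 * (∑ i, ∑ g ∈ (A i j).support, ‖A i j g‖) -
          ∑ j, 4 * ‖A j j 1‖ * ‖co j x‖ ^ 2 := by
        rw [← Finset.sum_add_distrib, ← Finset.sum_sub_distrib]
        refine Finset.sum_congr rfl fun i _ => ?_
        ring
      rw [h6]
      linarith
    have h5 : ∀ i, ‖co i x‖ ^ 2 * ((∑ j, ∑ g ∈ (A i j).support, ‖A i j g‖) +
          (∑ k, ∑ g ∈ (A k i).support, ‖A k i g‖) - 4 * ‖A i i 1‖) ≤ 0 := by
      intro i
      refine mul_nonpos_of_nonneg_of_nonpos (by positivity) ?_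
      have := h1 i
      have := h2 i
      linarith
    have hF : ∀ i j g, 0 ≤ (if i = j ∧ g = 1 then 0 else DomA_Q A x i j g) := by
      intro i j g
      split_ifs
      · exact le_rfl
      · exact hQ i j g
    have h6 : ∑ j, ∑ i, ∑ g ∈ (A i j).support, (if i = j ∧ g = 1 then 0 else DomA_Q A x i j g) = 0 := by
      refine le_antisymm ?_ ?_
      · rw [h4]
        exact Finset.sum_nonpos fun i _ => h5 i
      · exact Finset.sum_nonneg fun j _ => Finset.sum_nonneg fun i _ =>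
          Finset.sum_nonneg fun g _ => hF i j g
    constructor
    · intro i j g hij
      by_cases hA : A i j g = 0
      · rw [hA]
        simp
      · have hD : A j j 1 ≠ 0 := fun h => hA (DomA_zero A h2 h)
        have h7 := (Finset.sum_eq_zero_iff_of_nonneg (fun j _ => Finset.sum_nonneg fun i _ =>
          Finset.sum_nonneg fun g _ => hF i j g)).1 h6 j (Finset.mem_univ j)
        have h8 := (Finset.sum_eq_zero_iff_of_nonneg (fun i _ =>
          Finset.sum_nonneg fun g _ => hF i j g)).1 h7 i (Finset.mem_univ i)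
        have h9 := (Finset.sum_eq_zero_iff_of_nonneg (fun g _ => hF i j g)).1 h8 g
          (Finsupp.mem_support_iff.2 hA)
        rw [if_neg (by rintro ⟨rfl, rfl⟩; simp at hij)] at h9
        unfold DomA_Q at h9
        have hn : ‖A i j g‖ ≠ 0 := norm_ne_zero_iff.2 hA
        have hd : ‖A j j 1‖ ≠ 0 := norm_ne_zero_iff.2 hD
        have h10 : (((‖A i j g‖ : ℝ) : ℂ)⁻¹ * A i j g) • rt g (co i x) +
            (((‖A j j 1‖ : ℝ) : ℂ)⁻¹ * A j j 1) • co j x = 0 := by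
          rcases mul_eq_zero.1 h9 with h | h
          · exact absurd h hn
          · exact norm_eq_zero.1 (pow_eq_zero_iff (two_ne_zero)|>.1 h)
        have h11 := congrArg (fun v => (((‖A j j 1‖ : ℝ) : ℂ) * ((‖A i j g‖ : ℝ) : ℂ)) • v) h10
        simp only [smul_add, smul_zero, smul_smul] at h11
        have hn' : ((‖A i j g‖ : ℝ) : ℂ) ≠ 0 := by exact_mod_cast hn
        have hd' : ((‖A j j 1‖ : ℝ) : ℂ) ≠ 0 := by exact_mod_cast hd
        have e1 : ((‖A j j 1‖ : ℝ) : ℂ) * ((‖A i j g‖ : ℝ) : ℂ) * (((‖A i j g‖ : ℝ) : ℂ)⁻¹ * A i j g) =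
            ((‖A j j 1‖ : ℝ) : ℂ) * A i j g := by
          field_simp
        have e2 : ((‖A j j 1‖ : ℝ) : ℂ) * ((‖A i j g‖ : ℝ) : ℂ) * (((‖A j j 1‖ : ℝ) : ℂ)⁻¹ * A j j 1) =
            ((‖A i j g‖ : ℝ) : ℂ) * A j j 1 := by
          field_simp
        rw [e1, e2] at h11
        exact h11
    · intro j hj
      have h7 : ‖co j x‖ ^ 2 * ((∑ k, ∑ g ∈ (A j k).support, ‖A j k g‖) +
          (∑ k, ∑ g ∈ (A k j).support, ‖A k j g‖) - 4 * ‖A j j 1‖) = 0 := by
        rw [h4] at h6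
        have h8 : ∑ i, -(‖co i x‖ ^ 2 * ((∑ j, ∑ g ∈ (A i j).support, ‖A i j g‖) +
          (∑ k, ∑ g ∈ (A k i).support, ‖A k i g‖) - 4 * ‖A i i 1‖)) = 0 := by
          rw [Finset.sum_neg_distrib, h6, neg_zero]
        have h9 := (Finset.sum_eq_zero_iff_of_nonneg (fun i _ => neg_nonneg.2 (h5 i))).1 h8 j
          (Finset.mem_univ j)
        linarith
      rcases mul_eq_zero.1 h7 with h | h
      · exact norm_eq_zero.1 (pow_eq_zero_iff (two_ne_zero)|>.1 h)
      · have := h1 j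
        linarith
  · rintro ⟨hr, hz⟩
    rw [DomA_ker]
    intro j
    by_cases hD : A j j 1 = 0
    · refine Finset.sum_eq_zero fun i _ => Finset.sum_eq_zero fun g _ => ?_
      rw [DomA_zero A h2 hD, zero_smul]
    · have hd : ‖A j j 1‖ ≠ 0 := norm_ne_zero_iff.2 hD
      have hd' : ((‖A j j 1‖ : ℝ) : ℂ) ≠ 0 := by exact_mod_cast hd
      have h3 : ∀ i g, A i j g • rt g (co i x) =
          ((-(‖A i j g‖ / ‖A j j 1‖) : ℝ) : ℂ) • (A j j 1 • co j x) +
            (if i = j ∧ g = 1 then (2 : ℂ) • (A j j 1 • co j x) else 0) := by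
        intro i g
        by_cases hij : i = j ∧ g = 1
        · obtain ⟨rfl, rfl⟩ := hij
          rw [if_pos ⟨rfl, rfl⟩, rt_one, div_self hd, ← add_smul]
          norm_num
        · rw [if_neg hij, add_zero]
          have h4 := hr i j g (by
            by_contra hcon
            push Not at hcon
            exact hij hcon)
          have h5 := congrArg (fun v => (((‖A j j 1‖ : ℝ) : ℂ))⁻¹ • v) h4
          simp only [smul_add, smul_zero, smul_smul] at h5
          rw [← mul_assoc, inv_mul_cancel₀ hd', one_mul] at h5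
          rw [eq_neg_of_add_eq_zero_left h5, smul_smul, ← neg_smul]
          congr 1
          push_cast
          field_simp
      rw [Finset.sum_congr rfl fun i _ => Finset.sum_congr rfl fun g _ => h3 i g]
      simp only [Finset.sum_add_distrib, ← Finset.sum_smul]
      have h4 : ∑ i, ∑ g ∈ (A i j).support,
          (if i = j ∧ g = 1 then (2 : ℂ) • (A j j 1 • co j x) else 0) =
          (2 : ℂ) • (A j j 1 • co j x) := by
        rw [Finset.sum_eq_single j, Finset.sum_eq_single (1 : G)]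
        · rw [if_pos ⟨rfl, rfl⟩]
        · intro g _ hg
          exact if_neg fun h => hg h.2
        · intro h
          exact absurd (Finsupp.notMem_support_iff.1 h) hD
        · intro i _ hi
          exact Finset.sum_eq_zero fun g _ => if_neg fun h => hi h.1
        · intro h
          exact absurd (Finset.mem_univ j) h
      rw [h4, ← add_smul]
      rcases eq_or_lt_of_le (h2 j) with h | h
      · have h5 : ∑ i, ∑ g ∈ (A i j).support, ((-(‖A i j g‖ / ‖A j j 1‖) : ℝ) : ℂ) = -2 := by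
          have h6 : ∑ i, ∑ g ∈ (A i j).support, (-(‖A i j g‖ / ‖A j j 1‖) : ℝ) = -2 := by
            simp only [Finset.sum_neg_distrib, ← Finset.sum_div]
            rw [h]
            field_simp
          have h7 := congrArg (fun r : ℝ => (r : ℂ)) h6
          simp only [Complex.ofReal_sum] at h7
          rw [h7]
          push_cast
          ring
        rw [h5]
        norm_num
      · rw [hz j h, smul_zero, smul_zero]

end Pool.Agent.H84.At.SG
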