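import Pool.Agent.H38.SG.Two
import Pool.Agent.H38.SG.Coord

/-!
# Module Gain: matrices with at most two terms in every column

Induction on the number `|ι|` of rows (for all finite types `ι`, `κ`).
Case 1: some column `j` has nonzero entries in two different rows `i ≠ i'`. Then
`A i j = single h c` and `A i' j = single h' c'` with `c, c' ≠ 0` and the other entries of the column
`j` vanish, so every `x ∈ ker A` satisfies `x_{i'} (g h'⁻¹) c' = - x_i (g h⁻¹) c`, that is
`co i' x = r • rt t (co i x)` with `t = h h'⁻¹`, `r = - c / c'` (check the side with `cv_apply`,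
`rt_apply`). Let `ι' = {k // k ≠ i'}` and let `B` be the matrix over `ι'` with `B k = A k` for
`k ≠ i`, `B i l = A i l + r • (t * A i' l)` (`Finsupp.mapDomain (fun g => t * g)`), so the number of
terms of every column of `B` is at most that of `A`. The restriction
`cr Subtype.val : E (G × ι) → E (G × ι')` is injective on `ker A` and maps it onto `ker B`
(`mem_ker`, `Finset.sum` over `ι` split at `i'`), so `nd (ker A) = nd (ker B)` by `nd_map_inj`.
Case 2: every column has nonzero entries in at most one row. Then `ker A = cs X` with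
`X = {i | ∀ j, A i j = 0}`: if `A i j ≠ 0`, then the equation `j` is `cv (A i j) (co i x) = 0`, so
`co i x = 0` by `eq_zero_of_two`. Conclude with `nd_cs`.
-/

set_option autoImplicit false
set_option linter.unusedSectionVars false

namespace Pool.Agent.H84.At.SG

open scoped ENNReal InnerProductSpace Classical

variable {G : Type} [Group G] {ι κ ν : Type}

private theorem Gain_tl (t : G) (a : G →₀ ℂ) (u : E (G × Unit)) :
    cv (a.mapDomain (fun g => t * g)) u = cv a (rt t u) := by
  induction a using Finsupp.induction_linear with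
  | zero => rw [Finsupp.mapDomain_zero, cv_zero]; rfl
  | add a b ha hb =>
    rw [Finsupp.mapDomain_add, cv_add, cv_add, _root_.add_apply, _root_.add_apply, ha, hb]
  | single g c =>
    rw [Finsupp.mapDomain_single, cv_single, cv_single, _root_.smul_apply, _root_.smul_apply,
      rt_mul]

private theorem Gain_smul (r : ℂ) (a : G →₀ ℂ) (u : E (G × Unit)) :
    cv (r • a) u = r • cv a u := by
  induction a using Finsupp.induction_linear with
  | zero => rw [smul_zero, cv_zero]; simp
  | add a b ha hb =>
    rw [smul_add, cv_add, cv_add, _root_.add_apply, _root_.add_apply, ha, hb, smul_add]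
  | single g c =>
    rw [Finsupp.smul_single, cv_single, cv_single, _root_.smul_apply, _root_.smul_apply,
      smul_smul, smul_eq_mul]

private theorem Gain_single {a : G →₀ ℂ} (h : a.support.card = 1) :
    ∃ g c, c ≠ 0 ∧ a = Finsupp.single g c := by
  obtain ⟨g, hg, e⟩ := Finsupp.card_support_eq_one.1 h
  exact ⟨g, a g, hg, e⟩

/-- the matrix with the row `i'` removed -/
private noncomputable def GainB (A : Matrix ι κ (G →₀ ℂ)) (i i' : ι) (r : ℂ) (t : G) :
    Matrix {k : ι // k ≠ i'} κ (G →₀ ℂ) :=
  fun k l => if k.1 = i then A i l + r • (A i' l).mapDomain (fun g => t * g) else A k.1 l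

private theorem Gain_sum_split [Fintype ι] {M : Type} [AddCommMonoid M] (i' : ι) (f : ι → M) :
    ∑ k, f k = ∑ k : {k : ι // k ≠ i'}, f k.1 + f i' := by
  rw [← Finset.sum_subtype (Finset.univ.filter fun k => k ≠ i') (by simp) f,
    ← Finset.sum_filter_add_sum_filter_not Finset.univ (fun k => k ≠ i') f]
  congr 1
  have : (Finset.univ.filter fun k => ¬ k ≠ i') = {i'} := by
    ext k; simp
  rw [this, Finset.sum_singleton]

private theorem Gain_card [Fintype ι] (A : Matrix ι κ (G →₀ ℂ)) {i i' : ι} (hi : i ≠ i') (r : ℂ)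
    (t : G) (l : κ) :
    ∑ k, (GainB A i i' r t k l).support.card ≤ ∑ k, (A k l).support.card := by
  have h1 : ∀ k : {k : ι // k ≠ i'}, (GainB A i i' r t k l).support.card ≤
      (A k.1 l).support.card + (if k = ⟨i, hi⟩ then (A i' l).support.card else 0) := by
    intro k
    unfold GainB
    by_cases hk : k.1 = i
    · have hk2 : k = ⟨i, hi⟩ := Subtype.ext hk
      rw [if_pos hk, if_pos hk2, hk]
      refine (Finset.card_le_card Finsupp.support_add).trans ((Finset.card_union_le _ _).trans ?_)
      refine Nat.add_le_add_left ?_ _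
      refine (Finset.card_le_card Finsupp.support_smul).trans ?_
      refine (Finset.card_le_card Finsupp.mapDomain_support).trans ?_
      exact Finset.card_image_le
    · have hk2 : k ≠ ⟨i, hi⟩ := fun h => hk (congrArg Subtype.val h)
      rw [if_neg hk, if_neg hk2, Nat.add_zero]
  refine (Finset.sum_le_sum fun k _ => h1 k).trans ?_
  rw [Finset.sum_add_distrib, Finset.sum_ite_eq', if_pos (Finset.mem_univ _),
    Gain_sum_split i' (fun k => (A k l).support.card)]

private theorem Gain_eqn [Fintype ι] (A : Matrix ι κ (G →₀ ℂ)) {i i' : ι} (hi : i ≠ i') (r : ℂ)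
    (t : G) (l : κ) (u : E (G × ι)) (hu : co i' u = r • rt t (co i u)) :
    ∑ k, cv (GainB A i i' r t k l) (co k (cr Subtype.val Subtype.val_injective u)) =
      ∑ k, cv (A k l) (co k u) := by
  have h1 : ∀ k : {k : ι // k ≠ i'},
      cv (GainB A i i' r t k l) (co k (cr Subtype.val Subtype.val_injective u)) =
      cv (A k.1 l) (co k.1 u) + (if k = ⟨i, hi⟩ then cv (A i' l) (co i' u) else 0) := by
    intro k
    rw [co_cr]
    unfold GainB
    by_cases hk : k.1 = i
    · have hk2 : k = ⟨i, hi⟩ := Subtype.ext hk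
      rw [if_pos hk, if_pos hk2, hk, cv_add, _root_.add_apply, Gain_smul, Gain_tl, hu, map_smul]
    · have hk2 : k ≠ ⟨i, hi⟩ := fun h => hk (congrArg Subtype.val h)
      rw [if_neg hk, if_neg hk2, add_zero]
  rw [Finset.sum_congr rfl fun k _ => h1 k, Finset.sum_add_distrib, Finset.sum_ite_eq',
    if_pos (Finset.mem_univ _), Gain_sum_split i' (fun k => cv (A k l) (co k u))]

private theorem Gain_step [Fintype ι] [Fintype κ] (A : Matrix ι κ (G →₀ ℂ)) {i i' : ι}
    (hi : i ≠ i') (r : ℂ) (t : G) (hA : ∀ u ∈ ker A, co i' u = r • rt t (co i u)) :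
    nd (ker A) = nd (ker (GainB A i i' r t)) := by
  have h1 : (ker A).map (cr Subtype.val Subtype.val_injective :
      E (G × ι) →L[ℂ] E (G × {k : ι // k ≠ i'})).toLinearMap = ker (GainB A i i' r t) := by
    ext v
    constructor
    · rintro ⟨u, hu, rfl⟩
      refine (mem_ker _ _).2 fun l => ?_
      exact (Gain_eqn A hi r t l u (hA u hu)).trans ((mem_ker A u).1 hu l)
    · intro hv
      set u : E (G × ι) := ce Subtype.val Subtype.val_injective v +
        ci i' (r • rt t (co (⟨i, hi⟩ : {k : ι // k ≠ i'}) v)) with hu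
      have e1 : ∀ k : {k : ι // k ≠ i'}, co k.1 u = co k v := by
        intro k
        rw [hu, map_add, co_ci_ne (fun h => k.2 h.symm), add_zero,
          ← co_cr Subtype.val Subtype.val_injective k, cr_ce]
      have e2 : co i' u = r • rt t (co i u) := by
        have e3 := e1 ⟨i, hi⟩
        have e4 : co i' (ce Subtype.val Subtype.val_injective v : E (G × ι)) = 0 := by
          ext ⟨x, s⟩
          rw [co_apply]
          refine ce_apply_of_notMem Subtype.val Subtype.val_injective v x i' ?_
          rintro ⟨k, hk⟩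
          exact k.2 hk
        rw [e3, hu, map_add, e4, zero_add, co_ci_self]
      have e5 : cr Subtype.val Subtype.val_injective u = v := by
        refine ext_co fun k => ?_
        rw [co_cr]
        exact e1 k
      refine ⟨u, (mem_ker A u).2 fun l => ?_, e5⟩
      rw [← Gain_eqn A hi r t l u e2, e5]
      exact (mem_ker _ _).1 hv l
  rw [← h1]
  refine (nd_map_inj _ (equi_cr _ _) (ker A) (isClosed_kerA A) (inv_kerA A) ?_).symm
  intro u hu h0
  have e1 : ∀ k : {k : ι // k ≠ i'}, co k.1 u = 0 := by
    intro k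
    rw [← co_cr Subtype.val Subtype.val_injective k, h0, map_zero]
  refine ext_co fun k => ?_
  rw [map_zero]
  by_cases hk : k = i'
  · have e2 := e1 ⟨i, hi⟩
    rw [hk, hA u hu, e2, map_zero, smul_zero]
  · exact e1 ⟨k, hk⟩

private theorem Gain_two [Fintype ι] [Fintype κ] (A : Matrix ι κ (G →₀ ℂ))
    (hA : ∀ j, ∑ i, (A i j).support.card ≤ 2) {i i' : ι} (hi : i ≠ i') {j : κ}
    (h1 : A i j ≠ 0) (h2 : A i' j ≠ 0) :
    ∃ (r : ℂ) (t : G), ∀ u ∈ ker A, co i' u = r • rt t (co i u) := by
  have c1 : 0 < (A i j).support.card := Finset.card_pos.2 (Finsupp.support_nonempty_iff.2 h1)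
  have c2 : 0 < (A i' j).support.card := Finset.card_pos.2 (Finsupp.support_nonempty_iff.2 h2)
  have hs := hA j
  rw [Gain_sum_split i' (fun k => (A k j).support.card)] at hs
  have hs1 : ∑ k : {k : ι // k ≠ i'}, (A k.1 j).support.card =
      (A i j).support.card + ∑ k ∈ Finset.univ.erase (⟨i, hi⟩ : {k : ι // k ≠ i'}),
        (A k.1 j).support.card :=
    (Finset.add_sum_erase Finset.univ (fun k : {k : ι // k ≠ i'} => (A k.1 j).support.card)
      (Finset.mem_univ (⟨i, hi⟩ : {k : ι // k ≠ i'}))).symm
  rw [hs1] at hs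
  have d1 : (A i j).support.card = 1 := by omega
  have d2 : (A i' j).support.card = 1 := by omega
  have d3 : ∑ k ∈ Finset.univ.erase (⟨i, hi⟩ : {k : ι // k ≠ i'}), (A k.1 j).support.card = 0 := by
    omega
  have d4 : ∀ k, k ≠ i → k ≠ i' → A k j = 0 := by
    intro k hk hk'
    have h3 := (Finset.sum_eq_zero_iff.1 d3) ⟨k, hk'⟩
      (Finset.mem_erase.2 ⟨fun h => hk (congrArg Subtype.val h), Finset.mem_univ _⟩)
    exact Finsupp.support_eq_empty.1 (Finset.card_eq_zero.1 h3)
  obtain ⟨h, c, hc, e1⟩ := Gain_single d1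
  obtain ⟨h', c', hc', e2⟩ := Gain_single d2
  refine ⟨-(c / c'), h * h'⁻¹, fun u hu => ?_⟩
  have h3 := (mem_ker A u).1 hu j
  rw [← Finset.add_sum_erase Finset.univ _ (Finset.mem_univ i),
    ← Finset.add_sum_erase (Finset.univ.erase i) _
      (Finset.mem_erase.2 ⟨hi.symm, Finset.mem_univ i'⟩), Finset.sum_eq_zero (fun k hk => ?_),
    add_zero] at h3
  · rw [e1, e2, cv_single, cv_single, _root_.smul_apply, _root_.smul_apply] at h3
    have h4 : rt h' (co i' u) = -(c / c') • rt h (co i u) := by
      have h5 : c' • rt h' (co i' u) = -(c • rt h (co i u)) := eq_neg_of_add_eq_zero_right h3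
      have h6 : rt h' (co i' u) = c'⁻¹ • (c' • rt h' (co i' u)) := by
        rw [smul_smul, inv_mul_cancel₀ hc', one_smul]
      rw [h6, h5, smul_neg, smul_smul, neg_smul]
      congr 2
      field_simp
    have h7 : co i' u = rt h'⁻¹ (rt h' (co i' u)) := by
      rw [← rt_mul, mul_inv_cancel, rt_one]
    rw [h7, h4, map_smul, ← rt_mul]
  · rw [Finset.mem_erase, Finset.mem_erase] at hk
    rw [d4 k hk.2.1 hk.1, cv_zero]
    rfl

private theorem Gain_one [Fintype ι] [Fintype κ] (hG : TF G) (A : Matrix ι κ (G →₀ ℂ))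
    (hA : ∀ j, ∑ i, (A i j).support.card ≤ 2)
    (h : ∀ j i i', A i j ≠ 0 → A i' j ≠ 0 → i = i') :
    ker A = cs (Finset.univ.filter fun i => ∀ j, A i j = 0) := by
  ext u
  rw [mem_ker, mem_cs]
  constructor
  · intro hu i hi
    rw [Finset.mem_filter, not_and] at hi
    have h1 := hi (Finset.mem_univ i)
    push Not at h1
    obtain ⟨j, hj⟩ := h1
    have h2 := hu j
    rw [Finset.sum_eq_single i] at h2
    · refine eq_zero_of_two hG hj ?_ h2
      exact (Finset.single_le_sum (f := fun i => (A i j).support.card) (fun _ _ => Nat.zero_le _)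
        (Finset.mem_univ i)).trans (hA j)
    · intro k _ hk
      have h3 : A k j = 0 := by
        by_contra h4
        exact hk (h j k i h4 hj)
      rw [h3, cv_zero]
      rfl
    · intro h3
      exact absurd (Finset.mem_univ i) h3
  · intro hu j
    refine Finset.sum_eq_zero fun k _ => ?_
    by_cases hk : A k j = 0
    · rw [hk, cv_zero]
      rfl
    · rw [hu k (fun h1 => hk ((Finset.mem_filter.1 h1).2 j)), map_zero]

private theorem Gain_aux [Fintype κ] (hG : TF G) : ∀ (n : ℕ) (ι : Type) [Fintype ι]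
    (A : Matrix ι κ (G →₀ ℂ)), Fintype.card ι = n → (∀ j, ∑ i, (A i j).support.card ≤ 2) →
    ∃ k : ℕ, nd (ker A) = k := by
  intro n
  induction n with
  | zero =>
    intro ι _ A hn hA
    have h0 : ∀ j i i', A i j ≠ 0 → A i' j ≠ 0 → i = i' := by
      intro j i
      exact ((Fintype.card_eq_zero_iff.1 hn).false i).elim
    exact ⟨_, by rw [Gain_one hG A hA h0]; exact nd_cs _⟩
  | succ n ih =>
    intro ι _ A hn hA
    by_cases h : ∀ j i i', A i j ≠ 0 → A i' j ≠ 0 → i = i'
    · exact ⟨_, by rw [Gain_one hG A hA h]; exact nd_cs _⟩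
    · push Not at h
      obtain ⟨j, i, i', h1, h2, hi⟩ := h
      obtain ⟨r, t, hr⟩ := Gain_two A hA hi h1 h2
      rw [Gain_step A hi r t hr]
      refine ih {k : ι // k ≠ i'} _ ?_ fun l => (Gain_card A hi r t l).trans (hA l)
      have h3 : Fintype.card {k : ι // k ≠ i'} = Fintype.card ι - 1 :=
        Set.card_ne_eq i'
      rw [h3, hn, Nat.add_sub_cancel]

theorem gain [Fintype ι] [Fintype κ] (hG : TF G) (A : Matrix ι κ (G →₀ ℂ))
    (hA : ∀ j, ∑ i, (A i j).support.card ≤ 2) : ∃ k : ℕ, nd (ker A) = k :=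
  Gain_aux hG _ ι A rfl hA

end Pool.Agent.H84.At.SG
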