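import Pool.Agent.H38.SG.DomA
import Pool.Agent.H38.SG.Gain

/-!
# Module DomB: doubly diagonally dominant matrices over torsion-free groups

Let `κ = (Σ i : ι, Σ j : ι, (A i j).support) ⊕ ι` and let `C : Matrix ι κ (G →₀ ℂ)` have the column
`inl ⟨i, j, g⟩` with `single g (‖A j j 1‖ * A i j g)` in the row `i` plus `single 1 (‖A i j g‖ * A j j 1)`
in the row `j` if `i ≠ j ∨ g ≠ 1`, the zero column otherwise, and the column `inr j` with `single 1 1`
in the row `j` if `∑ i, ∑ g, ‖A i j g‖ < 2 * ‖A j j 1‖`, the zero column otherwise. Every column has at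
most two terms and `ker A = ker C` by `dom_iff` and `mem_ker` (`cv_single`, `rt_one`; for `A i j g = 0`
the relation is trivial). Conclude with `gain`.
-/

set_option autoImplicit false
set_option linter.unusedSectionVars false

namespace Pool.Agent.H84.At.SG

open scoped ENNReal InnerProductSpace Classical

variable {G : Type} [Group G] {ι κ ν : Type}

/-- the matrix with at most two terms in every column -/
private noncomputable def DomB_C [Fintype ι] (A : Matrix ι ι (G →₀ ℂ)) :
    Matrix ι ((Σ i : ι, Σ j : ι, (A i j).support) ⊕ ι) (G →₀ ℂ) :=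
  fun k c => match c with
  | Sum.inl ⟨i, j, g⟩ => if i ≠ j ∨ (g : G) ≠ 1 then
      (if k = i then Finsupp.single (g : G) (((‖A j j 1‖ : ℝ) : ℂ) * A i j g) else 0) +
        (if k = j then Finsupp.single (1 : G) (((‖A i j g‖ : ℝ) : ℂ) * A j j 1) else 0)
      else 0
  | Sum.inr j => if ∑ i, ∑ g ∈ (A i j).support, ‖A i j g‖ < 2 * ‖A j j 1‖ then
      (if k = j then Finsupp.single (1 : G) (1 : ℂ) else 0) else 0

private theorem DomB_card1 [Fintype ι] (i : ι) (g : G) (c : ℂ) :
    ∑ k : ι, (if k = i then Finsupp.single g c else 0 : G →₀ ℂ).support.card ≤ 1 := by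
  rw [Finset.sum_eq_single i]
  · rw [if_pos rfl]
    exact (Finset.card_le_card Finsupp.support_single_subset).trans (by simp)
  · intro k _ hk
    rw [if_neg hk]
    simp
  · intro h
    exact absurd (Finset.mem_univ i) h

private theorem DomB_card [Fintype ι] (A : Matrix ι ι (G →₀ ℂ))
    (c : (Σ i : ι, Σ j : ι, (A i j).support) ⊕ ι) : ∑ k, (DomB_C A k c).support.card ≤ 2 := by
  rcases c with ⟨i, j, g⟩ | j
  · by_cases h : i ≠ j ∨ (g : G) ≠ 1
    · have h1 : ∀ k, (DomB_C A k (Sum.inl ⟨i, j, g⟩)).support.card ≤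
          (if k = i then Finsupp.single (g : G) (((‖A j j 1‖ : ℝ) : ℂ) * A i j g)
            else 0 : G →₀ ℂ).support.card +
          (if k = j then Finsupp.single (1 : G) (((‖A i j g‖ : ℝ) : ℂ) * A j j 1)
            else 0 : G →₀ ℂ).support.card := by
        intro k
        have h2 : DomB_C A k (Sum.inl ⟨i, j, g⟩) =
            (if k = i then Finsupp.single (g : G) (((‖A j j 1‖ : ℝ) : ℂ) * A i j g) else 0) +
            (if k = j then Finsupp.single (1 : G) (((‖A i j g‖ : ℝ) : ℂ) * A j j 1) else 0) :=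
          if_pos h
        rw [h2]
        exact (Finset.card_le_card Finsupp.support_add).trans (Finset.card_union_le _ _)
      refine (Finset.sum_le_sum fun k _ => h1 k).trans ?_
      rw [Finset.sum_add_distrib]
      have h3 := DomB_card1 i (g : G) (((‖A j j 1‖ : ℝ) : ℂ) * A i j g)
      have h4 := DomB_card1 j (1 : G) (((‖A i j g‖ : ℝ) : ℂ) * A j j 1)
      omega
    · have h1 : ∀ k, DomB_C A k (Sum.inl ⟨i, j, g⟩) = 0 := fun k => if_neg h
      rw [Finset.sum_eq_zero fun k _ => by rw [h1 k]; simp]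
      omega
  · by_cases h : ∑ i, ∑ g ∈ (A i j).support, ‖A i j g‖ < 2 * ‖A j j 1‖
    · have h1 : ∀ k, DomB_C A k (Sum.inr j) =
          (if k = j then Finsupp.single (1 : G) (1 : ℂ) else 0) := fun k => if_pos h
      rw [Finset.sum_congr rfl fun k _ => by rw [h1 k]]
      exact (DomB_card1 j (1 : G) (1 : ℂ)).trans (by omega)
    · have h1 : ∀ k, DomB_C A k (Sum.inr j) = 0 := fun k => if_neg h
      rw [Finset.sum_eq_zero fun k _ => by rw [h1 k]; simp]
      omega

private theorem DomB_cv [Fintype ι] (i : ι) (a : G →₀ ℂ) (x : E (G × ι)) :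
    ∑ k : ι, cv (if k = i then a else 0) (co k x) = cv a (co i x) := by
  rw [Finset.sum_eq_single i]
  · rw [if_pos rfl]
  · intro k _ hk
    rw [if_neg hk, cv_zero]
    rfl
  · intro h
    exact absurd (Finset.mem_univ i) h

private theorem DomB_inl [Fintype ι] (A : Matrix ι ι (G →₀ ℂ)) (x : E (G × ι)) (i j : ι)
    (g : (A i j).support) (h : i ≠ j ∨ (g : G) ≠ 1) :
    ∑ k, cv (DomB_C A k (Sum.inl ⟨i, j, g⟩)) (co k x) =
      (((‖A j j 1‖ : ℝ) : ℂ) * A i j g) • rt (g : G) (co i x) +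
        (((‖A i j g‖ : ℝ) : ℂ) * A j j 1) • co j x := by
  have h1 : ∀ k, cv (DomB_C A k (Sum.inl ⟨i, j, g⟩)) (co k x) =
      cv (if k = i then Finsupp.single (g : G) (((‖A j j 1‖ : ℝ) : ℂ) * A i j g) else 0) (co k x) +
      cv (if k = j then Finsupp.single (1 : G) (((‖A i j g‖ : ℝ) : ℂ) * A j j 1) else 0)
        (co k x) := by
    intro k
    have h2 : DomB_C A k (Sum.inl ⟨i, j, g⟩) =
        (if k = i then Finsupp.single (g : G) (((‖A j j 1‖ : ℝ) : ℂ) * A i j g) else 0) +
        (if k = j then Finsupp.single (1 : G) (((‖A i j g‖ : ℝ) : ℂ) * A j j 1) else 0) :=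
      if_pos h
    rw [h2, cv_add, _root_.add_apply]
  rw [Finset.sum_congr rfl fun k _ => h1 k, Finset.sum_add_distrib, DomB_cv, DomB_cv, cv_single,
    cv_single, _root_.smul_apply, _root_.smul_apply, rt_one]

private theorem DomB_ker [Fintype ι] (A : Matrix ι ι (G →₀ ℂ))
    (h1 : ∀ i, ∑ j, ∑ g ∈ (A i j).support, ‖A i j g‖ ≤ 2 * ‖A i i 1‖)
    (h2 : ∀ j, ∑ i, ∑ g ∈ (A i j).support, ‖A i j g‖ ≤ 2 * ‖A j j 1‖) :
    ker A = ker (DomB_C A) := by
  ext x
  rw [dom_iff A h1 h2 x, mem_ker]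
  constructor
  · rintro ⟨hx1, hx2⟩ (⟨i, j, g⟩ | j)
    · by_cases h : i ≠ j ∨ (g : G) ≠ 1
      · rw [DomB_inl A x i j g h]
        exact hx1 i j g h
      · have h3 : ∀ k, DomB_C A k (Sum.inl ⟨i, j, g⟩) = 0 := fun k => if_neg h
        refine Finset.sum_eq_zero fun k _ => ?_
        rw [h3 k, cv_zero]
        rfl
    · by_cases h : ∑ i, ∑ g ∈ (A i j).support, ‖A i j g‖ < 2 * ‖A j j 1‖
      · have h3 : ∀ k, DomB_C A k (Sum.inr j) =
            (if k = j then Finsupp.single (1 : G) (1 : ℂ) else 0) := fun k => if_pos h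
        rw [Finset.sum_congr rfl fun k _ => by rw [h3 k], DomB_cv, cv_single, _root_.smul_apply,
          rt_one, hx2 j h, smul_zero]
      · have h3 : ∀ k, DomB_C A k (Sum.inr j) = 0 := fun k => if_neg h
        refine Finset.sum_eq_zero fun k _ => ?_
        rw [h3 k, cv_zero]
        rfl
  · intro hx
    constructor
    · intro i j g h
      by_cases hg : A i j g = 0
      · rw [hg]
        simp
      · have h3 := hx (Sum.inl ⟨i, j, ⟨g, Finsupp.mem_support_iff.2 hg⟩⟩)
        rw [DomB_inl A x i j ⟨g, Finsupp.mem_support_iff.2 hg⟩ h] at h3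
        exact h3
    · intro j h
      have h4 := hx (Sum.inr j)
      have h3 : ∀ k, DomB_C A k (Sum.inr j) =
          (if k = j then Finsupp.single (1 : G) (1 : ℂ) else 0) := fun k => if_pos h
      rw [Finset.sum_congr rfl fun k _ => by rw [h3 k], DomB_cv, cv_single, _root_.smul_apply,
        rt_one, one_smul] at h4
      exact h4

theorem dom [Fintype ι] (hG : TF G) (A : Matrix ι ι (G →₀ ℂ))
    (h1 : ∀ i, ∑ j, ∑ g ∈ (A i j).support, ‖A i j g‖ ≤ 2 * ‖A i i 1‖)
    (h2 : ∀ j, ∑ i, ∑ g ∈ (A i j).support, ‖A i j g‖ ≤ 2 * ‖A j j 1‖) :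
    ∃ k : ℕ, nd (ker A) = k := by
  rw [DomB_ker A h1 h2]
  exact gain hG (DomB_C A) (DomB_card A)

end Pool.Agent.H84.At.SG
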