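import Pool.Agent.H38.SG.Init

/-!
# Module Face: one face step for elements of the group ring

`nd_ker_tl`: `rt u` maps `ker (el (u a))` isometrically onto `ker (el a)`, since
`x (u a) = (x u) a`: `cv (tl u a) x = cv a (rt u x)` (`cv` of `mapDomain`, `rt_mul`); use `nd_map_inj`
in both directions, or compare the two kernels under the equivariant unitary `rt u` (as an operator
of `E (G × Unit)`, `co () x = x` up to the identification of the index).
`face_step`: apply `init_le` to the `1 × 1` matrix `el (tl u⁻¹ a)` with `a = 0`, `b = c`, and translate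
back: `(tl u⁻¹ a).filter {h | ∃ _ : h ∈ H, c = φ h} = tl u⁻¹ (a.filter {g | ∃ _ : u⁻¹ g ∈ H, φ (u⁻¹ g) = c})`.
-/

set_option autoImplicit false
set_option linter.unusedSectionVars false

namespace Pool.Agent.H84.At.SG

open scoped ENNReal InnerProductSpace Classical

variable {G : Type} [Group G] {ι κ ν : Type}

/-- the left translate `u a` of an element of the group ring -/
noncomputable def tl (u : G) (a : G →₀ ℂ) : G →₀ ℂ := a.mapDomain (fun g => u * g)

theorem tl_apply (u : G) (a : G →₀ ℂ) (g : G) : tl u a g = a (u⁻¹ * g) := by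
  have h : g = u * (u⁻¹ * g) := (mul_inv_cancel_left u g).symm
  conv_lhs => rw [h]
  exact Finsupp.mapDomain_apply (mul_right_injective u) a (u⁻¹ * g)

private theorem Face_cv_tl (u : G) (a : G →₀ ℂ) (x : E (G × Unit)) : cv (tl u a) x = cv a (rt u x) := by
  unfold tl
  induction a using Finsupp.induction_linear with
  | zero => rw [Finsupp.mapDomain_zero, cv_zero]; rfl
  | add f g hf hg =>
    rw [Finsupp.mapDomain_add, cv_add, cv_add]
    show cv (Finsupp.mapDomain (fun g => u * g) f) x + cv (Finsupp.mapDomain (fun g => u * g) g) x =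
      cv f (rt u x) + cv g (rt u x)
    rw [hf, hg]
  | single g c =>
    rw [Finsupp.mapDomain_single, cv_single, cv_single]
    show c • rt (u * g) x = c • rt g (rt u x)
    rw [rt_mul]

private theorem Face_mem (a : G →₀ ℂ) (x : E (G × Unit)) : x ∈ ker (el a) ↔ cv a x = 0 := by
  rw [mem_ker]
  have hco : co () x = x := by
    ext ⟨g, s⟩
    rfl
  constructor
  · intro h
    have h1 := h ()
    rw [Finset.sum_eq_single_of_mem () (Finset.mem_univ _) (fun b _ hb => absurd (Subsingleton.elim b ()) hb)] at h1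
    rw [hco] at h1
    exact h1
  · intro h j
    rw [Finset.sum_eq_single_of_mem () (Finset.mem_univ _) (fun b _ hb => absurd (Subsingleton.elim b ()) hb), hco]
    exact h

private theorem Face_cond (H : Subgroup G) (φ : H →* Multiplicative ℤ) (Q : ℤ → Prop) {x y : G} (hxy : x = y) :
    (∃ h : x ∈ H, Q (Multiplicative.toAdd (φ ⟨x, h⟩))) ↔ ∃ h : y ∈ H, Q (Multiplicative.toAdd (φ ⟨y, h⟩)) := by
  subst hxy
  exact Iff.rfl

theorem nd_ker_tl (u : G) (a : G →₀ ℂ) : nd (ker (el (tl u a))) = nd (ker (el a)) := by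
  have h1 : ker (el (tl u a)) = (ker (el a)).map (rt u⁻¹ : E (G × Unit) →L[ℂ] E (G × Unit)).toLinearMap := by
    ext x
    rw [Face_mem, Face_cv_tl, Submodule.mem_map]
    constructor
    · intro h
      refine ⟨rt u x, (Face_mem a _).2 h, ?_⟩
      show rt u⁻¹ (rt u x) = x
      rw [← rt_mul, mul_inv_cancel, rt_one]
    · rintro ⟨y, hy, rfl⟩
      show cv a (rt u (rt u⁻¹ y)) = 0
      rw [← rt_mul, inv_mul_cancel, rt_one]
      exact (Face_mem a y).1 hy
  rw [h1]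
  refine nd_map_inj _ (equi_rt _) _ (isClosed_kerA _) (inv_kerA _) fun y _ hy => ?_
  have h2 : ‖(rt u⁻¹ y : E (G × Unit))‖ = ‖y‖ := norm_rt _ _
  rw [hy, norm_zero] at h2
  exact norm_eq_zero.1 h2.symm

theorem face_step (a : G →₀ ℂ) (u : G) (H : Subgroup G) (φ : H →* Multiplicative ℤ) (c : ℤ)
    (ha : ∀ g, a g ≠ 0 → ∃ h : u⁻¹ * g ∈ H, c ≤ Multiplicative.toAdd (φ ⟨u⁻¹ * g, h⟩)) :
    nd (ker (el a)) ≤ nd (ker (el (a.filter
      (· ∈ {g | ∃ h : u⁻¹ * g ∈ H, Multiplicative.toAdd (φ ⟨u⁻¹ * g, h⟩) = c})))) := by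
  have e1 : ∀ g : G, tl u⁻¹ a g = a (u * g) := fun g => by rw [tl_apply, inv_inv]
  have hA : ∀ (i j : Unit) (g : G), el (tl u⁻¹ a) i j g ≠ 0 →
      ∃ h : g ∈ H, (fun _ : Unit => c) j ≤ (fun _ : Unit => (0 : ℤ)) i + Multiplicative.toAdd (φ ⟨g, h⟩) := by
    intro i j g hg
    have h1 : a (u * g) ≠ 0 := by
      rw [← e1]
      exact hg
    have h2 := (Face_cond H φ (fun z => c ≤ z) (inv_mul_cancel_left u g)).1 (ha (u * g) h1)
    obtain ⟨h, hc⟩ := h2
    exact ⟨h, by show c ≤ 0 + _; rw [zero_add]; exact hc⟩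
  have key := init_le H φ (fun _ : Unit => (0 : ℤ)) (fun _ : Unit => c) (el (tl u⁻¹ a)) hA
  rw [nd_ker_tl] at key
  have e2 : flt (fun i j => {g | ∃ h : g ∈ H,
      (fun _ : Unit => c) j = (fun _ : Unit => (0 : ℤ)) i + Multiplicative.toAdd (φ ⟨g, h⟩)}) (el (tl u⁻¹ a)) =
      el (tl u⁻¹ (a.filter
      (· ∈ {g | ∃ h : u⁻¹ * g ∈ H, Multiplicative.toAdd (φ ⟨u⁻¹ * g, h⟩) = c}))) := by
    funext i j
    ext g
    rw [flt_apply]
    have hiff : (g ∈ {g | ∃ h : g ∈ H,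
        (fun _ : Unit => c) j = (fun _ : Unit => (0 : ℤ)) i + Multiplicative.toAdd (φ ⟨g, h⟩)}) ↔
        u * g ∈ {g | ∃ h : u⁻¹ * g ∈ H, Multiplicative.toAdd (φ ⟨u⁻¹ * g, h⟩) = c} := by
      show (∃ h : g ∈ H, c = 0 + Multiplicative.toAdd (φ ⟨g, h⟩)) ↔
        ∃ h : u⁻¹ * (u * g) ∈ H, Multiplicative.toAdd (φ ⟨u⁻¹ * (u * g), h⟩) = c
      rw [Face_cond H φ (fun z => z = c) (inv_mul_cancel_left u g)]
      exact ⟨fun ⟨h, hc⟩ => ⟨h, by rw [hc, zero_add]⟩, fun ⟨h, hc⟩ => ⟨h, by rw [zero_add]; exact hc.symm⟩⟩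
    by_cases hg : u * g ∈ {g | ∃ h : u⁻¹ * g ∈ H, Multiplicative.toAdd (φ ⟨u⁻¹ * g, h⟩) = c}
    · rw [if_pos (hiff.2 hg)]
      show tl u⁻¹ a g = tl u⁻¹ (a.filter
        (· ∈ {g | ∃ h : u⁻¹ * g ∈ H, Multiplicative.toAdd (φ ⟨u⁻¹ * g, h⟩) = c})) g
      rw [tl_apply, tl_apply, inv_inv, Finsupp.filter_apply_pos _ _ hg]
    · rw [if_neg (mt hiff.1 hg)]
      show 0 = tl u⁻¹ (a.filter
        (· ∈ {g | ∃ h : u⁻¹ * g ∈ H, Multiplicative.toAdd (φ ⟨u⁻¹ * g, h⟩) = c})) g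
      rw [tl_apply, inv_inv, Finsupp.filter_apply_neg _ _ hg]
  rw [e2, nd_ker_tl] at key
  exact key

end Pool.Agent.H84.At.SG
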