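import Pool.Agent.H38.SG.Defs

/-!
# Module Fil: the dimension of the solutions of a block Toeplitz system

Induction on `N` (for all `y : E (G × (Fin (d + N) × ι))`; `d + (N + 1)` is by definition
`(d + N) + 1`). `N = 0`: `nd_le`, the cardinality of `Fin (d + 0) × ι` is `d * card ι`.
Step: let `K = toep P d (N + 1)` and let
`T = cr (Prod.map Fin.succ id) : E (G × (Fin (d + N + 1) × ι)) → E (G × (Fin (d + N) × ι))`
drop the block `0`. By `rank`, `nd K = nd (K ⊓ ker T) + nd (K.map T)`. The image is contained in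
`toep P d N` (the equation `l` of the image is the equation `l + 1` of the vector, all the blocks
`l + 1 + k` with `k ≤ d`, `l < N` are in range), use `nd_mono` and the induction hypothesis. On
`K ⊓ ker T` all blocks but the first vanish, so `bl 0` is injective there and, by the equation
`l = 0`, has values in `kr (P 0)`: `nd_map_inj` and `nd_mono` give `nd (K ⊓ ker T) ≤ nd (kr (P 0))`.
-/

set_option autoImplicit false
set_option linter.unusedSectionVars false

namespace Pool.Agent.H84.At.SG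

open scoped ENNReal InnerProductSpace Classical

variable {G : Type} [Group G] {ι κ ν : Type}

private theorem Fil_inj (M : ℕ) :
    Function.Injective (fun x : Fin M × ι => (x.1.succ, x.2)) := by
  rintro ⟨a, i⟩ ⟨b, j⟩ h
  obtain ⟨h1, h2⟩ := Prod.mk.inj h
  exact Prod.ext (Fin.succ_injective _ h1) h2

/-- drop the first block -/
private noncomputable def Fil_T (G ι : Type) (M : ℕ) :
    E (G × (Fin (M + 1) × ι)) →L[ℂ] E (G × (Fin M × ι)) := cr _ (Fil_inj M)

private theorem Fil_equi (M : ℕ) : Equi (Fil_T G ι M) := equi_cr _ _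

private theorem Fil_bl (M : ℕ) (j : Fin M) (u : E (G × (Fin (M + 1) × ι))) :
    bl j (Fil_T G ι M u) = bl j.succ u := by
  ext ⟨g, i⟩
  rfl

private theorem Fil_bn (M k : ℕ) (u : E (G × (Fin (M + 1) × ι))) :
    bn M k (Fil_T G ι M u) = bn (M + 1) (k + 1) u := by
  by_cases h : k < M
  · rw [bn_of_lt h, bn_of_lt (Nat.succ_lt_succ h)]
    exact Fil_bl M ⟨k, h⟩ u
  · unfold bn
    rw [dif_neg h, dif_neg (fun h' => h (Nat.lt_of_succ_lt_succ h'))]
    rfl

private theorem Fil_map [Fintype ι] [Fintype κ] {P : ℕ → E (G × ι) →L[ℂ] E (G × κ)} (d N : ℕ)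
    {y : E (G × (Fin (d + N + 1) × ι))} (hy : y ∈ toep P d (N + 1)) :
    Fil_T G ι (d + N) y ∈ toep P d N := by
  have hy' : ∀ l : ℕ, l < N + 1 →
      ∑ k : Fin (d + 1), P k (bn (d + N + 1) (l + k) y) = 0 := mem_toep.1 hy
  rw [mem_toep]
  intro l hl
  have h := hy' (l + 1) (Nat.succ_lt_succ hl)
  rw [← h]
  refine Finset.sum_congr rfl fun k _ => ?_
  rw [Fil_bn, Nat.add_right_comm l (k : ℕ) 1]

private theorem Fil_zero [Fintype ι] [Fintype κ] {P : ℕ → E (G × ι) →L[ℂ] E (G × κ)} (d N : ℕ)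
    {y : E (G × (Fin (d + N + 1) × ι))} (hy : y ∈ toep P d (N + 1))
    (h0 : Fil_T G ι (d + N) y = 0) : bl (0 : Fin (d + N + 1)) y ∈ kr (P 0) := by
  have hy' : ∀ l : ℕ, l < N + 1 →
      ∑ k : Fin (d + 1), P k (bn (d + N + 1) (l + k) y) = 0 := mem_toep.1 hy
  have h := hy' 0 (Nat.succ_pos N)
  rw [Fin.sum_univ_succ] at h
  have h1 : ∀ k : Fin d, P (k.succ : Fin (d + 1)) (bn (d + N + 1) (0 + (k.succ : Fin (d + 1))) y) =
      0 := by
    intro k
    have h2 : (0 + ((k.succ : Fin (d + 1)) : ℕ)) = (k : ℕ) + 1 := by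
      rw [Fin.val_succ, Nat.zero_add]
    rw [h2, ← Fil_bn, h0, map_zero, map_zero]
  rw [Finset.sum_eq_zero fun k _ => h1 k, add_zero] at h
  rw [mem_kr]
  have h3 : (bn (d + N + 1) (0 + ((0 : Fin (d + 1)) : ℕ)) :
      E (G × (Fin (d + N + 1) × ι)) →L[ℂ] E (G × ι)) = bl (0 : Fin (d + N + 1)) :=
    bn_of_lt (Nat.succ_pos _)
  rw [h3] at h
  exact h

private theorem Fil_step [Fintype ι] [Fintype κ] {P : ℕ → E (G × ι) →L[ℂ] E (G × κ)}
    (hP : ∀ k, Equi (P k)) (d N : ℕ)
    (K : Submodule ℂ (E (G × (Fin (d + N + 1) × ι)))) (hK : K = toep P d (N + 1)) :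
    nd K ≤ nd (kr (P 0)) + nd (toep P d N) := by
  have cK : IsClosed (K : Set (E (G × (Fin (d + N + 1) × ι)))) := by
    rw [hK]; exact closed_toep P d (N + 1)
  have iK : Inv K := by
    rw [hK]; exact inv_toep hP d (N + 1)
  have h1 := rank (Fil_T G ι (d + N)) (Fil_equi _) K cK iK
  have h2 : nd (K.map (Fil_T G ι (d + N)).toLinearMap) ≤ nd (toep P d N) := by
    refine nd_mono ?_
    rintro _ ⟨y, hy, rfl⟩
    have hy1 : y ∈ K := hy
    rw [hK] at hy1
    exact Fil_map d N hy1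
  have cL : IsClosed ((K ⊓ LinearMap.ker (Fil_T G ι (d + N)).toLinearMap :
      Submodule ℂ (E (G × (Fin (d + N + 1) × ι)))) : Set (E (G × (Fin (d + N + 1) × ι)))) :=
    cK.inter (isClosed_ker _)
  have iL : Inv (K ⊓ LinearMap.ker (Fil_T G ι (d + N)).toLinearMap) :=
    Inv.inf iK (Inv.ker (Fil_equi _))
  have h3 := nd_map_inj (bl (0 : Fin (d + N + 1))) (equi_bl (G := G) (ι := ι) _)
    (K ⊓ LinearMap.ker (Fil_T G ι (d + N)).toLinearMap) cL iL (by
      rintro y ⟨-, hy⟩ hy0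
      have hT : Fil_T G ι (d + N) y = 0 := hy
      refine ext_bl fun k => ?_
      rw [map_zero]
      refine Fin.cases ?_ (fun j => ?_) k
      · exact hy0
      · rw [← Fil_bl, hT, map_zero])
  have h4 : nd ((K ⊓ LinearMap.ker (Fil_T G ι (d + N)).toLinearMap).map
      (bl (0 : Fin (d + N + 1)) : E (G × (Fin (d + N + 1) × ι)) →L[ℂ] E (G × ι)).toLinearMap) ≤
      nd (kr (P 0)) := by
    refine nd_mono ?_
    rintro _ ⟨y, ⟨hy, hy'⟩, rfl⟩
    have hy1 : y ∈ K := hy
    rw [hK] at hy1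
    exact Fil_zero d N hy1 hy'
  rw [h3] at h4
  linarith

theorem nd_toep_le [Fintype ι] [Fintype κ] {P : ℕ → E (G × ι) →L[ℂ] E (G × κ)}
    (hP : ∀ k, Equi (P k)) (d N : ℕ) :
    nd (toep P d N) ≤ N * nd (kr (P 0)) + d * Fintype.card ι := by
  induction N with
  | zero =>
    have h := nd_le (toep P d 0)
    rw [Fintype.card_prod, Fintype.card_fin, Nat.cast_mul] at h
    rw [Nat.cast_zero, zero_mul, zero_add]
    exact h
  | succ N ih =>
    have h := Fil_step hP d N (toep P d (N + 1)) rfl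
    have h1 : nd (toep P d (N + 1)) ≤ nd (kr (P 0)) + nd (toep P d N) := h
    push_cast
    linarith

end Pool.Agent.H84.At.SG
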