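import Mathlib

/-!
# Module Hall: the deficiency form of the marriage theorem

Let `δ` be the maximum over the finite sets `X` of `|X| - |N X|` (natural subtraction, or as an
integer; it is `≥ 0` for `X = ∅`), attained at `X`. Add `δ` dummy columns adjacent to all rows: the
relation `i ~ j` on `κ ⊕ Fin δ` satisfies Hall's condition, so by
`Finset.all_card_le_biUnion_card_iff_exists_injective` there is an injective `f : ι → κ ⊕ Fin δ` with
`f i` adjacent to `i`. At most `δ` rows are matched to dummies, the others give a matching of size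
`r' ≥ |ι| - δ`; keep `r = |ι| - δ` of them (`δ ≤ |ι|`), enumerated by `Fin r`.
-/

set_option autoImplicit false

namespace Pool.Agent.H84.At.SG

open scoped Classical

theorem hall_deficient {ι κ : Type} [Fintype ι] [Fintype κ] (R : ι → κ → Prop) :
    ∃ (X : Finset ι) (r : ℕ) (p : Fin r → ι) (q : Fin r → κ),
      Function.Injective p ∧ Function.Injective q ∧ (∀ k, R (p k) (q k)) ∧
      X.card + r = Fintype.card ι + (Finset.univ.filter fun j : κ => ∃ i ∈ X, R i j).card := by
  obtain ⟨X, -, hX⟩ := Finset.exists_max_image (Finset.univ : Finset (Finset ι))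
    (fun X => (X.card : ℤ) - ((Finset.univ.filter fun j : κ => ∃ i ∈ X, R i j).card : ℤ))
    Finset.univ_nonempty
  have h0 := hX ∅ (Finset.mem_univ _)
  have he : (Finset.univ.filter fun j : κ => ∃ i ∈ (∅ : Finset ι), R i j) = ∅ := by simp
  rw [he, Finset.card_empty, Finset.card_empty] at h0
  obtain ⟨δ, hδ⟩ : ∃ δ : ℕ,
      X.card = (Finset.univ.filter fun j : κ => ∃ i ∈ X, R i j).card + δ :=
    ⟨X.card - (Finset.univ.filter fun j : κ => ∃ i ∈ X, R i j).card, by omega⟩
  have hmax : ∀ s : Finset ι,
      s.card ≤ (Finset.univ.filter fun j : κ => ∃ i ∈ s, R i j).card + δ := by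
    intro s
    have h := hX s (Finset.mem_univ _)
    omega
  have hle : X.card ≤ Fintype.card ι := Finset.card_le_univ X
  obtain ⟨f, hf, hfm⟩ := (Finset.all_card_le_biUnion_card_iff_exists_injective
    (fun i : ι => (Finset.univ.filter fun j : κ => R i j).disjSum
      (Finset.univ : Finset (Fin δ)))).mp (by
    intro s
    rcases s.eq_empty_or_nonempty with hs | ⟨i0, hi0⟩
    · rw [hs]
      simp
    · refine (hmax s).trans ?_
      have hc : (Finset.univ.filter fun j : κ => ∃ i ∈ s, R i j).card + δ =
          ((Finset.univ.filter fun j : κ => ∃ i ∈ s, R i j).disjSum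
            (Finset.univ : Finset (Fin δ))).card := by
        rw [Finset.card_disjSum, Finset.card_univ, Fintype.card_fin]
      rw [hc]
      apply Finset.card_le_card
      intro z hz
      rw [Finset.mem_biUnion]
      rcases z with j | d
      · rw [Finset.inl_mem_disjSum, Finset.mem_filter] at hz
        obtain ⟨-, i, hi, hij⟩ := hz
        refine ⟨i, hi, ?_⟩
        rw [Finset.inl_mem_disjSum, Finset.mem_filter]
        exact ⟨Finset.mem_univ _, hij⟩
      · refine ⟨i0, hi0, ?_⟩
        rw [Finset.inr_mem_disjSum]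
        exact Finset.mem_univ _)
  have hC : (Finset.univ.filter fun i : ι => ¬ ∃ j : κ, f i = Sum.inl j).card ≤ δ := by
    have h1 := Finset.card_le_card_of_injOn (s := Finset.univ.filter fun i : ι =>
      ¬ ∃ j : κ, f i = Sum.inl j) (t := (Finset.univ : Finset (Fin δ)).map
      (Function.Embedding.inr : Fin δ ↪ κ ⊕ Fin δ)) f (by
        intro i hi
        have hi' : ¬ ∃ j : κ, f i = Sum.inl j := by
          simpa using hi
        rcases hfi : f i with j | d
        · exact absurd ⟨j, hfi⟩ hi'
        · simp) (hf.injOn)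
    rw [Finset.card_map, Finset.card_univ, Fintype.card_fin] at h1
    exact h1
  have hI := Finset.card_filter_add_card_filter_not (s := (Finset.univ : Finset ι))
    (fun i : ι => ∃ j : κ, f i = Sum.inl j)
  rw [Finset.card_univ] at hI
  obtain ⟨I, hIs, hIc⟩ := Finset.exists_subset_card_eq
    (s := Finset.univ.filter fun i : ι => ∃ j : κ, f i = Sum.inl j)
    (n := Fintype.card ι - δ) (by omega)
  have hg : ∀ i : I, ∃ j : κ, f i = Sum.inl j ∧ R i j := by
    intro i
    have h1 := hIs i.2
    rw [Finset.mem_filter] at h1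
    obtain ⟨-, j, hj⟩ := h1
    refine ⟨j, hj, ?_⟩
    have h2 := hfm (i : ι)
    rw [hj, Finset.inl_mem_disjSum, Finset.mem_filter] at h2
    exact h2.2
  choose g hg1 hg2 using hg
  refine ⟨X, Fintype.card ι - δ, fun k => ((Finset.equivFinOfCardEq hIc).symm k : ι),
    fun k => g ((Finset.equivFinOfCardEq hIc).symm k), ?_, ?_, ?_, ?_⟩
  · intro k l hkl
    exact (Finset.equivFinOfCardEq hIc).symm.injective (Subtype.ext hkl)
  · intro k l hkl
    have h1 := hg1 ((Finset.equivFinOfCardEq hIc).symm k)
    have h2 := hg1 ((Finset.equivFinOfCardEq hIc).symm l)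
    have h3 : g ((Finset.equivFinOfCardEq hIc).symm k) =
        g ((Finset.equivFinOfCardEq hIc).symm l) := hkl
    rw [h3, ← h2] at h1
    exact (Finset.equivFinOfCardEq hIc).symm.injective (Subtype.ext (hf h1))
  · intro k
    exact hg2 _
  · omega

end Pool.Agent.H84.At.SG
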