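import Pool.Agent.H38.SG.Defs

/-!
# Module Two: elements with at most two terms

`cv_apply : cv a x (g, s) = ∑ h ∈ a.support, x (g * h⁻¹, s) * a h`.
One term `c u`: `x (g u⁻¹) c = 0` for all `g`. Two terms `a u`, `a v`, `u ≠ v`, in a torsion-free
group: `x (g u⁻¹) a_u + x (g v⁻¹) a_v = 0` for all `g`, so with `w = v u⁻¹ ≠ 1` and `g` replaced by
`g v`: `x (g w) = r x (g)` with `r = - a_v / a_u ≠ 0`, hence `x (g w ^ n) = r ^ n x (g)` for all
`n : ℤ`. The elements `g w ^ n` are distinct, so `∑ n, ‖r‖ ^ (2 n) ‖x g‖ ^ 2 ≤ ‖x‖ ^ 2` and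
`x (g w ^ n) → 0` along `n → ∞` and `n → -∞` (cofinite); if `‖r‖ ≥ 1` use `n → ∞`, otherwise
`n → -∞`.
-/

set_option autoImplicit false
set_option linter.unusedSectionVars false

namespace Pool.Agent.H84.At.SG

open scoped ENNReal InnerProductSpace Classical

variable {G : Type} [Group G] {ι κ ν : Type}

private theorem Two_geo {w : G} (hw : ¬ IsOfFinOrder w) {r : ℂ} (hr : 1 ≤ ‖r‖)
    {x : E (G × Unit)} (h : ∀ (g : G) (s : Unit), x (g * w, s) = r * x (g, s)) : x = 0 := by
  have hpow : ∀ (n : ℕ) (g : G) (s : Unit), x (g * w ^ n, s) = r ^ n * x (g, s) := by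
    intro n
    induction n with
    | zero => intro g s; simp
    | succ n ih =>
      intro g s
      rw [pow_succ w n, ← mul_assoc, h, ih, pow_succ r n]
      ring
  ext ⟨g, s⟩
  show x (g, s) = 0
  have hinj : Function.Injective fun n : ℕ => ((g * w ^ n, s) : G × Unit) := by
    intro m n hmn
    have h1 : g * w ^ m = g * w ^ n := (Prod.mk.inj hmn).1
    exact (injective_pow_iff_not_isOfFinOrder.2 hw) (mul_left_cancel h1)
  have hs := (summable_sq x).comp_injective hinj
  have ht := hs.tendsto_atTop_zero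
  have hle : ∀ n : ℕ, ‖x (g, s)‖ ^ 2 ≤
      ((fun a => ‖x a‖ ^ 2) ∘ fun n : ℕ => ((g * w ^ n, s) : G × Unit)) n := by
    intro n
    show ‖x (g, s)‖ ^ 2 ≤ ‖x (g * w ^ n, s)‖ ^ 2
    rw [hpow n g s, norm_mul, norm_pow]
    have h1 : 1 ≤ ‖r‖ ^ n := one_le_pow₀ hr
    have h2 : ‖x (g, s)‖ ≤ ‖r‖ ^ n * ‖x (g, s)‖ := le_mul_of_one_le_left (norm_nonneg _) h1
    exact pow_le_pow_left₀ (norm_nonneg _) h2 2
  have h0 : ‖x (g, s)‖ ^ 2 ≤ 0 := ge_of_tendsto' ht hle
  have h3 : ‖x (g, s)‖ ^ 2 = 0 := le_antisymm h0 (by positivity)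
  have h4 : ‖x (g, s)‖ = 0 := pow_eq_zero_iff (two_ne_zero) |>.1 h3
  exact norm_eq_zero.1 h4

theorem eq_zero_of_one {a : G →₀ ℂ} (hc : a.support.card = 1) {x : E (G × Unit)}
    (hx : cv a x = 0) : x = 0 := by
  obtain ⟨u, hu⟩ := Finset.card_eq_one.1 hc
  have hau : a u ≠ 0 := by
    rw [← Finsupp.mem_support_iff, hu]
    exact Finset.mem_singleton_self u
  ext ⟨g, s⟩
  show x (g, s) = 0
  have h1 : cv a x (g * u, s) = 0 := by rw [hx]; rfl
  rw [cv_apply, hu, Finset.sum_singleton, mul_inv_cancel_right] at h1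
  exact (mul_eq_zero.1 h1).resolve_right hau

theorem eq_zero_of_two (hG : TF G) {a : G →₀ ℂ} (ha : a ≠ 0) (hc : a.support.card ≤ 2)
    {x : E (G × Unit)} (hx : cv a x = 0) : x = 0 := by
  have hpos : 0 < a.support.card := Finset.card_pos.2 (Finsupp.support_nonempty_iff.2 ha)
  rcases Nat.lt_or_ge a.support.card 2 with hlt | hge
  · exact eq_zero_of_one (by omega) hx
  · have h2 : a.support.card = 2 := le_antisymm hc hge
    obtain ⟨u, v, huv, hs⟩ := Finset.card_eq_two.1 h2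
    have hau : a u ≠ 0 := by
      rw [← Finsupp.mem_support_iff, hs]
      exact Finset.mem_insert_self u _
    have hav : a v ≠ 0 := by
      rw [← Finsupp.mem_support_iff, hs]
      exact Finset.mem_insert_of_mem (Finset.mem_singleton_self v)
    have key : ∀ (g : G) (s : Unit), x (g * u⁻¹, s) * a u + x (g * v⁻¹, s) * a v = 0 := by
      intro g s
      have h1 : cv a x (g, s) = 0 := by rw [hx]; rfl
      rw [cv_apply, hs, Finset.sum_pair huv] at h1
      exact h1
    have hw : v * u⁻¹ ≠ 1 := by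
      intro h
      exact huv (mul_inv_eq_one.1 h).symm
    have h3 : ∀ (g : G) (s : Unit), x (g * (v * u⁻¹), s) = (- a v / a u) * x (g, s) := by
      intro g s
      have h4 := key (g * v) s
      rw [mul_inv_cancel_right, mul_assoc] at h4
      have h5 : x (g * (v * u⁻¹), s) * a u = - (x (g, s) * a v) := eq_neg_of_add_eq_zero_left h4
      rw [div_mul_eq_mul_div, eq_div_iff hau, h5]
      ring
    rcases le_total 1 ‖(- a v / a u)‖ with hr | hr
    · exact Two_geo (hG _ hw) hr h3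
    · have hr0 : (- a v / a u) ≠ 0 := div_ne_zero (neg_ne_zero.2 hav) hau
      have hw' : (v * u⁻¹)⁻¹ ≠ 1 := inv_ne_one.2 hw
      refine Two_geo (w := (v * u⁻¹)⁻¹) (r := (- a v / a u)⁻¹) (hG _ hw') ?_ ?_
      · rw [norm_inv]
        exact (one_le_inv₀ (norm_pos_iff.2 hr0)).2 hr
      · intro g s
        have h4 := h3 (g * (v * u⁻¹)⁻¹) s
        rw [inv_mul_cancel_right] at h4
        rw [h4, inv_mul_cancel_left₀ hr0]

private theorem Two_ker {a : G →₀ ℂ} (h : ∀ x : E (G × Unit), cv a x = 0 → x = 0) :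
    nd (ker (el a)) = 0 := by
  have hb : ker (el a) = ⊥ := by
    rw [eq_bot_iff]
    intro x hx
    rw [Submodule.mem_bot]
    rw [mem_ker] at hx
    have h1 := hx ()
    rw [Fintype.sum_unique] at h1
    have h2 : co (default : Unit) x = 0 := h _ h1
    refine ext_co fun i => ?_
    have hi : i = default := Subsingleton.elim _ _
    rw [hi, h2, map_zero]
  rw [hb, nd_bot]

theorem nd_ker_el_zero (hG : TF G) {a : G →₀ ℂ} (ha : a ≠ 0) (hc : a.support.card ≤ 2) :
    nd (ker (el a)) = 0 :=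
  Two_ker fun _ hx => eq_zero_of_two hG ha hc hx

theorem nd_ker_el_one {a : G →₀ ℂ} (hc : a.support.card = 1) : nd (ker (el a)) = 0 :=
  Two_ker fun _ hx => eq_zero_of_one hc hx

end Pool.Agent.H84.At.SG
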