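import Pool.Agent.H38.SG.Gen
import Pool.Agent.H38.SG.Coord
import Pool.Agent.H38.SG.Hall
import Pool.Agent.H38.SG.Two

/-!
# Module GenB: the generic kernel of a support pattern

`nd_mt_ge`: `hall_deficient` for `R i j = ∃ g, (i, j, g) ∈ P` gives `X` and a matching of size
`r' ≤ r` with `|X| - |N X| = |ι| - r'`; `nd_ker_ge` for `A = mt P c` (its entry `(i, j)` is zero if
`¬ R i j`) gives `nd (ker (mt P c)) ≥ |ι| - r' ≥ |ι| - r`.
`generic`: let `p, q` be a matching of size `r`, choose `g k` with `(p k, q k, g k) ∈ P` and let `c₀` be the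
indicator function of these triples. In the column `q k` of `mt P c₀` only the entry of the row `p k` is
nonzero, it is `single (g k) 1`, so `ker (mt P c₀) ≤ cs (univ \ image p)`, of dimension `|ι| - r`
(`nd_cs`, `eq_zero_of_one`). Now `rm (mt P c) = ∑ s : P, c s • rm (mt P (Pi.single s 1))` (compare
`co j (· u)` with `co_rm`), so `ae_le` and `nd_mt_ge` give the claim.
-/

set_option autoImplicit false
set_option linter.unusedSectionVars false

namespace Pool.Agent.H84.At.SG

open scoped ENNReal InnerProductSpace Classical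

variable {G : Type} [Group G] {ι κ ν : Type}

/-- the matrix with coefficients `c` on the pattern `P` -/
noncomputable def mt (P : Finset (ι × κ × G)) (c : P → ℂ) : Matrix ι κ (G →₀ ℂ) :=
  fun i j => ∑ p : P, if p.1.1 = i ∧ p.1.2.1 = j then Finsupp.single p.1.2.2 (c p) else 0

/-- the pattern `P` has `r` entries in different rows and columns -/
def Mat (P : Finset (ι × κ × G)) (r : ℕ) : Prop :=
  ∃ (p : Fin r → ι) (q : Fin r → κ), Function.Injective p ∧ Function.Injective q ∧
    ∀ k, ∃ g, (p k, q k, g) ∈ P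

private theorem GenB_zero (P : Finset (ι × κ × G)) (c : P → ℂ) {i : ι} {j : κ}
    (h : ¬ ∃ g, (i, j, g) ∈ P) : mt P c i j = 0 := by
  unfold mt
  refine Finset.sum_eq_zero fun s _ => ?_
  rw [if_neg]
  rintro ⟨h1, h2⟩
  refine h ⟨s.1.2.2, ?_⟩
  have h3 : (i, j, s.1.2.2) = s.1 := by
    rw [← h1, ← h2]
  rw [h3]
  exact s.2

theorem nd_mt_ge [Fintype ι] [Fintype κ] (P : Finset (ι × κ × G)) (r : ℕ)
    (hmax : ∀ s, Mat P s → s ≤ r) (c : P → ℂ) :
    (Fintype.card ι : ℝ) - r ≤ nd (ker (mt P c)) := by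
  obtain ⟨X, r', p, q, hp, hq, hR, hcard⟩ :=
    hall_deficient (fun (i : ι) (j : κ) => ∃ g, (i, j, g) ∈ P)
  have h1 : r' ≤ r := hmax r' ⟨p, q, hp, hq, hR⟩
  have h2 := nd_ker_ge (mt P c) X
  have h3 : (Finset.univ.filter fun j : κ => ∃ i ∈ X, mt P c i j ≠ 0).card ≤
      (Finset.univ.filter fun j : κ => ∃ i ∈ X, ∃ g, (i, j, g) ∈ P).card := by
    apply Finset.card_le_card
    intro j hj
    obtain ⟨-, i, hi, hij⟩ := Finset.mem_filter.1 hj
    refine Finset.mem_filter.2 ⟨Finset.mem_univ j, i, hi, ?_⟩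
    by_contra h
    exact hij (GenB_zero P c h)
  have h4 : (X.card : ℝ) + r' = Fintype.card ι +
      (Finset.univ.filter fun j : κ => ∃ i ∈ X, ∃ g, (i, j, g) ∈ P).card := by
    exact_mod_cast hcard
  have h5 : ((Finset.univ.filter fun j : κ => ∃ i ∈ X, mt P c i j ≠ 0).card : ℝ) ≤
      (Finset.univ.filter fun j : κ => ∃ i ∈ X, ∃ g, (i, j, g) ∈ P).card := by
    exact_mod_cast h3
  have h6 : (r' : ℝ) ≤ r := by exact_mod_cast h1
  linarith

private noncomputable def GenB_h : (G →₀ ℂ) →+ (E (G × Unit) →L[ℂ] E (G × Unit)) where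
  toFun := cv
  map_zero' := cv_zero
  map_add' := cv_add

private theorem GenB_cv (P : Finset (ι × κ × G)) (c : P → ℂ) (i : ι) (j : κ)
    (u : E (G × Unit)) : cv (mt P c i j) u =
      ∑ s : P, if s.1.1 = i ∧ s.1.2.1 = j then c s • rt s.1.2.2 u else 0 := by
  have h1 : cv (mt P c i j) = ∑ s : P, cv (if s.1.1 = i ∧ s.1.2.1 = j then
      Finsupp.single s.1.2.2 (c s) else 0) :=
    map_sum (GenB_h (G := G)) _ _
  rw [h1, ContinuousLinearMap.sum_apply]
  refine Finset.sum_congr rfl fun s _ => ?_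
  by_cases h : s.1.1 = i ∧ s.1.2.1 = j
  · rw [if_pos h, if_pos h, cv_single]
    rfl
  · rw [if_neg h, if_neg h, cv_zero]
    rfl

private theorem GenB_rm [Fintype ι] [Fintype κ] (P : Finset (ι × κ × G)) (c : P → ℂ) :
    rm (mt P c) = ∑ s : P, c s • rm (mt P (Pi.single s 1)) := by
  refine ContinuousLinearMap.ext fun u => ?_
  apply ext_co
  intro j
  rw [co_rm, ContinuousLinearMap.sum_apply, map_sum]
  have h1 : ∀ s : P, co j ((c s • rm (mt P (Pi.single s 1))) u) =
      ∑ i, c s • cv (mt P (Pi.single s 1) i j) (co i u) := by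
    intro s
    have e : (c s • rm (mt P (Pi.single s 1))) u = c s • rm (mt P (Pi.single s 1)) u := rfl
    rw [e, map_smul, co_rm, Finset.smul_sum]
  rw [Finset.sum_congr rfl fun s _ => h1 s, Finset.sum_comm]
  refine Finset.sum_congr rfl fun i _ => ?_
  rw [GenB_cv]
  refine Finset.sum_congr rfl fun s _ => ?_
  rw [GenB_cv, Finset.sum_eq_single s]
  · rw [Pi.single_eq_same, one_smul]
    split_ifs
    · rfl
    · rw [smul_zero]
  · intro t _ hts
    rw [Pi.single_eq_of_ne hts, zero_smul]
    split_ifs <;> rfl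
  · intro h
    exact absurd (Finset.mem_univ s) h

/-- the indicator function of the matching -/
private noncomputable def GenB_c (P : Finset (ι × κ × G)) {r : ℕ} (p : Fin r → ι) (q : Fin r → κ)
    (g : Fin r → G) : P → ℂ := fun s => if ∃ k, s.1 = (p k, q k, g k) then 1 else 0

private theorem GenB_col (P : Finset (ι × κ × G)) {r : ℕ} {p : Fin r → ι} {q : Fin r → κ}
    {g : Fin r → G} (hq : Function.Injective q) (hg : ∀ k, (p k, q k, g k) ∈ P) (k : Fin r)
    (i : ι) : mt P (GenB_c P p q g) i (q k) =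
      if p k = i then Finsupp.single (g k) 1 else 0 := by
  unfold mt
  rw [Finset.sum_eq_single (⟨(p k, q k, g k), hg k⟩ : P)]
  · by_cases h : p k = i
    · rw [if_pos ⟨h, rfl⟩, if_pos h]
      have e : GenB_c P p q g ⟨(p k, q k, g k), hg k⟩ = 1 := if_pos ⟨k, rfl⟩
      rw [e]
    · rw [if_neg (fun h' => h h'.1), if_neg h]
  · intro s _ hs
    split_ifs with h
    · have e : GenB_c P p q g s = 0 := by
        refine if_neg ?_
        rintro ⟨k', hk'⟩
        have h1 : q k' = q k := by rw [← h.2, hk']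
        have h2 := hq h1
        subst h2
        exact hs (Subtype.ext hk')
      rw [e, Finsupp.single_zero]
    · rfl
  · intro h
    exact absurd (Finset.mem_univ _) h

private theorem GenB_le [Fintype ι] [Fintype κ] (P : Finset (ι × κ × G)) {r : ℕ} {p : Fin r → ι}
    {q : Fin r → κ} {g : Fin r → G} (hp : Function.Injective p) (hq : Function.Injective q)
    (hg : ∀ k, (p k, q k, g k) ∈ P) :
    nd (ker (mt P (GenB_c P p q g))) ≤ (Fintype.card ι : ℝ) - r := by
  have h1 : ker (mt P (GenB_c P p q g)) ≤ cs (Finset.univ \ Finset.univ.image p) := by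
    intro u hu
    rw [mem_cs]
    intro i hi
    have hi' : i ∈ Finset.univ.image p := by
      by_contra h
      exact hi (Finset.mem_sdiff.2 ⟨Finset.mem_univ i, h⟩)
    obtain ⟨k, -, rfl⟩ := Finset.mem_image.1 hi'
    have h2 := (mem_ker _ u).1 hu (q k)
    rw [Finset.sum_eq_single (p k)] at h2
    · rw [GenB_col P hq hg, if_pos rfl] at h2
      refine eq_zero_of_one ?_ h2
      rw [Finsupp.support_single _ one_ne_zero, Finset.card_singleton]
    · intro i' _ hi'
      rw [GenB_col P hq hg, if_neg hi'.symm, cv_zero]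
      rfl
    · intro h
      exact absurd (Finset.mem_univ _) h
  refine (nd_mono h1).trans ?_
  rw [nd_cs, Finset.card_sdiff_of_subset (Finset.subset_univ _),
    Finset.card_image_of_injective _ hp, Finset.card_univ, Finset.card_univ, Fintype.card_fin]
  have h3 : r ≤ Fintype.card ι := by
    have := Fintype.card_le_of_injective p hp
    rwa [Fintype.card_fin] at this
  rw [Nat.cast_sub h3]

theorem generic [Fintype ι] [Fintype κ] (P : Finset (ι × κ × G)) (r : ℕ) (hr : Mat P r)
    (hmax : ∀ s, Mat P s → s ≤ r) :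
    ∀ᵐ c : P → ℂ, nd (ker (mt P c)) = (Fintype.card ι : ℝ) - r := by
  obtain ⟨p, q, hp, hq, hPg⟩ := hr
  choose g hg using hPg
  filter_upwards [ae_le (fun s : P => rm (mt P (Pi.single s 1))) (fun s => equi_rm _)
    (GenB_c P p q g)] with c hc
  rw [← GenB_rm, ← GenB_rm] at hc
  exact le_antisymm (hc.trans (GenB_le P hp hq hg)) (nd_mt_ge P r hmax c)

end Pool.Agent.H84.At.SG
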