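import Pool.Agent.H38.SG.ArcB
import Pool.Agent.H84.At.Para

/-!
# Module Tri: elements with three terms

`tri`: let `K = ker (el a)`, `c = (‖a u‖² + ‖a v‖² - ‖a w‖²) / (2 ‖a u‖ ‖a v‖)`. If `c ≤ -1` the bound is
`1` (`nd_le`). Otherwise let `t = arccos c`, so `cos t ≤ c`. For `x ∈ K` (identify `x` with `co () x`):
`a u • rt u x + a v • rt v x = - a w • rt w x`; taking norms squared (`norm_rt`, `norm_add_sq`)
`‖a u‖² ‖x‖² + ‖a v‖² ‖x‖² + 2 Re (conj (a u) a v ⟪rt u x, rt v x⟫) = ‖a w‖² ‖x‖²`, and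
`⟪rt u x, rt v x⟫ = ⟪x, rt (v u⁻¹) x⟫` (`inner_rt`, `rt_mul`). With `ω = conj (a u) a v / ‖a u‖ ‖a v‖` this
is `Re (ω ⟪x, rt s x⟫) = - c ‖x‖² ≤ - cos t ‖x‖²`, `s = v u⁻¹ ≠ 1`, so `K ⊓ V = ⊥` for the `V` of
`arc_ind` (inverse of the direction of the inequality there), and `para` (or `rank`) with `nd_le` gives
`nd K + nd V ≤ 1`.
`tri_third`: apply `tri` with `w` the index of the smallest `‖a ·‖`: then `c ≥ 1 / 2` and
`arccos c ≤ π / 3`.
-/

set_option autoImplicit false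
set_option linter.unusedSectionVars false

namespace Pool.Agent.H84.At.SG

open scoped ENNReal InnerProductSpace Classical

variable {G : Type} [Group G] {ι κ ν : Type}

private theorem tri_cv (a : G →₀ ℂ) (u v w : G) (huv : u ≠ v) (huw : u ≠ w) (hvw : v ≠ w)
    (ha : ∀ g, a g ≠ 0 ↔ g = u ∨ g = v ∨ g = w) (x : E (G × Unit)) (hx : x ∈ ker (el a)) :
    a u • rt u x + a v • rt v x + a w • rt w x = 0 := by
  have hc : (co () x : E (G × Unit)) = x := by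
    ext ⟨g, s⟩
    rfl
  have h1 := (mem_ker (el a) x).1 hx ()
  rw [Finset.univ_unique, Finset.sum_singleton] at h1
  have h2 : cv a x = 0 := by
    have h3 : cv a (co () x) = 0 := h1
    rwa [hc] at h3
  have hs : a.support = {u, v, w} := by
    ext g
    rw [Finsupp.mem_support_iff, ha g]
    simp only [Finset.mem_insert, Finset.mem_singleton]
  have h4 : cv a x = ∑ g ∈ a.support, a g • rt g x := by
    have h5 : cv a = ∑ g ∈ a.support, a g • rt g := rfl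
    rw [h5, ContinuousLinearMap.sum_apply]
    rfl
  rw [h4, hs, Finset.sum_insert, Finset.sum_insert, Finset.sum_singleton, ← add_assoc] at h2
  · exact h2
  · simpa using hvw
  · simp only [Finset.mem_insert, Finset.mem_singleton, not_or]
    exact ⟨huv, huw⟩

private theorem tri_norm (a : G →₀ ℂ) (u v w : G) (x : E (G × Unit))
    (h : a u • rt u x + a v • rt v x + a w • rt w x = 0) :
    ‖a w‖ ^ 2 * ‖x‖ ^ 2 = ‖a u‖ ^ 2 * ‖x‖ ^ 2 + ‖a v‖ ^ 2 * ‖x‖ ^ 2 +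
      2 * ((starRingEnd ℂ) (a u) * a v * ⟪x, rt (v * u⁻¹) x⟫_ℂ).re := by
  have h1 : a u • rt u x + a v • rt v x = -(a w • rt w x) := eq_neg_of_add_eq_zero_left h
  have h2 : ‖a u • rt u x + a v • rt v x‖ ^ 2 = ‖a w‖ ^ 2 * ‖x‖ ^ 2 := by
    rw [h1, norm_neg, norm_smul, norm_rt, mul_pow]
  have h3 : ‖a u • rt u x + a v • rt v x‖ ^ 2 = ‖a u • rt u x‖ ^ 2 +
      2 * RCLike.re ⟪a u • rt u x, a v • rt v x⟫_ℂ + ‖a v • rt v x‖ ^ 2 := norm_add_sq _ _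
  have h4 : ⟪a u • rt u x, a v • rt v x⟫_ℂ =
      (starRingEnd ℂ) (a u) * a v * ⟪x, rt (v * u⁻¹) x⟫_ℂ := by
    rw [inner_smul_left, inner_smul_right, inner_rt, ← rt_mul, mul_assoc]
  rw [h4, norm_smul, norm_smul, norm_rt, norm_rt, mul_pow, mul_pow, h2] at h3
  rw [h3]
  change _ + 2 * ((starRingEnd ℂ) (a u) * a v * ⟪x, rt (v * u⁻¹) x⟫_ℂ).re + _ = _
  ring

theorem tri (hG : TF G) (a : G →₀ ℂ) (u v w : G) (huv : u ≠ v) (huw : u ≠ w) (hvw : v ≠ w)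
    (ha : ∀ g, a g ≠ 0 ↔ g = u ∨ g = v ∨ g = w) :
    nd (ker (el a)) ≤
      Real.arccos ((‖a u‖ ^ 2 + ‖a v‖ ^ 2 - ‖a w‖ ^ 2) / (2 * ‖a u‖ * ‖a v‖)) / Real.pi := by
  have hu : 0 < ‖a u‖ := norm_pos_iff.2 ((ha u).2 (Or.inl rfl))
  have hv : 0 < ‖a v‖ := norm_pos_iff.2 ((ha v).2 (Or.inr (Or.inl rfl)))
  set c : ℝ := (‖a u‖ ^ 2 + ‖a v‖ ^ 2 - ‖a w‖ ^ 2) / (2 * ‖a u‖ * ‖a v‖) with hc
  have hcard : ((Fintype.card Unit : ℕ) : ℝ) = 1 := by simp
  rcases le_or_gt c (-1) with h1 | h1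
  · rw [Real.arccos_of_le_neg_one h1, div_self Real.pi_ne_zero]
    have := nd_le (ker (el a))
    rwa [hcard] at this
  · have hcos : Real.cos (Real.arccos c) ≤ c := by
      rcases le_or_gt c 1 with h2 | h2
      · rw [Real.cos_arccos h1.le h2]
      · exact (Real.cos_le_one _).trans h2.le
    have hs : ¬ IsOfFinOrder (v * u⁻¹) := by
      refine hG _ fun h2 => huv ?_
      exact (mul_inv_eq_one.1 h2).symm
    have hω : ‖(starRingEnd ℂ) (a u) * a v / ((‖a u‖ * ‖a v‖ : ℝ) : ℂ)‖ = 1 := by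
      rw [norm_div, norm_mul, RCLike.norm_conj, Complex.norm_real, Real.norm_of_nonneg (by positivity)]
      exact div_self (by positivity)
    obtain ⟨V, hV1, hV2, hV3, hV4⟩ := arc_ind (v * u⁻¹) hs _ hω (Real.arccos c)
      (Real.arccos_nonneg c) (Real.arccos_le_pi c)
    have hbot : ker (el a) ⊓ V = ⊥ := by
      rw [Submodule.eq_bot_iff]
      rintro x ⟨hx1, hx2⟩
      by_contra hx
      have h3 := hV4 x hx2 hx
      have h4 := tri_norm a u v w x (tri_cv a u v w huv huw hvw ha x hx1)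
      have hn : 0 < ‖x‖ ^ 2 := by
        have := norm_pos_iff.2 hx
        positivity
      have h5 : ((starRingEnd ℂ) (a u) * a v / ((‖a u‖ * ‖a v‖ : ℝ) : ℂ) *
          ⟪x, rt (v * u⁻¹) x⟫_ℂ).re =
          ((starRingEnd ℂ) (a u) * a v * ⟪x, rt (v * u⁻¹) x⟫_ℂ).re / (‖a u‖ * ‖a v‖) := by
        rw [div_mul_eq_mul_div, Complex.div_ofReal_re]
      rw [h5, lt_div_iff₀ (by positivity)] at h3
      have h6 : c * (2 * ‖a u‖ * ‖a v‖) = ‖a u‖ ^ 2 + ‖a v‖ ^ 2 - ‖a w‖ ^ 2 := by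
        rw [hc]
        exact div_mul_cancel₀ _ (by positivity)
      have h7 : Real.cos (Real.arccos c) * (‖x‖ ^ 2 * (‖a u‖ * ‖a v‖)) ≤
          c * (‖x‖ ^ 2 * (‖a u‖ * ‖a v‖)) := mul_le_mul_of_nonneg_right hcos (by positivity)
      have h8 : c * (2 * ‖a u‖ * ‖a v‖) * ‖x‖ ^ 2 =
          (‖a u‖ ^ 2 + ‖a v‖ ^ 2 - ‖a w‖ ^ 2) * ‖x‖ ^ 2 := by rw [h6]
      linarith
    have h9 := para (ker (el a)) V (isClosed_kerA _) hV1 (inv_kerA _) hV2
    rw [hbot, nd_bot, hV3] at h9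
    have h10 := nd_le (ker (el a) ⊔ V)
    rw [hcard] at h10
    linarith

private theorem tri_aux (hG : TF G) (a : G →₀ ℂ) (u v w : G) (huv : u ≠ v) (huw : u ≠ w)
    (hvw : v ≠ w) (ha : ∀ g, a g ≠ 0 ↔ g = u ∨ g = v ∨ g = w) (h1 : ‖a w‖ ≤ ‖a u‖)
    (h2 : ‖a w‖ ≤ ‖a v‖) : nd (ker (el a)) ≤ 1 / 3 := by
  have hu : 0 < ‖a u‖ := norm_pos_iff.2 ((ha u).2 (Or.inl rfl))
  have hv : 0 < ‖a v‖ := norm_pos_iff.2 ((ha v).2 (Or.inr (Or.inl rfl)))
  have hw : 0 < ‖a w‖ := norm_pos_iff.2 ((ha w).2 (Or.inr (Or.inr rfl)))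
  refine (tri hG a u v w huv huw hvw ha).trans ?_
  have h3 : (1 / 2 : ℝ) ≤ (‖a u‖ ^ 2 + ‖a v‖ ^ 2 - ‖a w‖ ^ 2) / (2 * ‖a u‖ * ‖a v‖) := by
    rw [le_div_iff₀ (by positivity)]
    rcases le_total ‖a u‖ ‖a v‖ with h | h
    · nlinarith [mul_nonneg (sub_nonneg.2 h) hv.le, mul_nonneg (sub_nonneg.2 h1) (add_pos hu hw).le]
    · nlinarith [mul_nonneg (sub_nonneg.2 h) hu.le, mul_nonneg (sub_nonneg.2 h2) (add_pos hv hw).le]
  have h4 : Real.arccos ((‖a u‖ ^ 2 + ‖a v‖ ^ 2 - ‖a w‖ ^ 2) / (2 * ‖a u‖ * ‖a v‖)) ≤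
      Real.pi / 3 := by
    have h5 : Real.arccos (1 / 2) = Real.pi / 3 := by
      rw [← Real.cos_pi_div_three]
      exact Real.arccos_cos (by positivity) (by linarith [Real.pi_pos])
    rw [← h5]
    exact Real.antitone_arccos h3
  rw [div_le_iff₀ Real.pi_pos]
  linarith

theorem tri_third (hG : TF G) (a : G →₀ ℂ) (ha : a.support.card = 3) :
    nd (ker (el a)) ≤ 1 / 3 := by
  obtain ⟨u, v, w, huv, huw, hvw, hs⟩ := Finset.card_eq_three.1 ha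
  have h : ∀ g, a g ≠ 0 ↔ g = u ∨ g = v ∨ g = w := by
    intro g
    rw [← Finsupp.mem_support_iff, hs]
    simp only [Finset.mem_insert, Finset.mem_singleton]
  rcases le_total ‖a u‖ ‖a v‖ with h1 | h1
  · rcases le_total ‖a u‖ ‖a w‖ with h2 | h2
    · exact tri_aux hG a v w u hvw huv.symm huw.symm (fun g => by rw [h g]; tauto) h1 h2
    · exact tri_aux hG a u v w huv huw hvw h h2 (h2.trans h1)
  · rcases le_total ‖a v‖ ‖a w‖ with h2 | h2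
    · exact tri_aux hG a u w v huw huv hvw.symm (fun g => by rw [h g]; tauto) h1 h2
    · exact tri_aux hG a u v w huv huw hvw h (h2.trans h1) h2

end Pool.Agent.H84.At.SG
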