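import Pool.Agent.H84.At.Bridge
import Pool.Agent.H38.SG.Face
import Pool.Agent.H38.SG.Tri
import Pool.Agent.H38.SG.DomB
import Pool.Agent.H38.SG.GenB

/-!
# MP_c5ea68_al: kernels of sparse matrices over group rings

(1) For every group, the von Neumann dimension of the kernel of a matrix is at most that of its
initial form with respect to a character of a subgroup and integral weights.
(2) For every group and every finite pattern of positions and group elements, for almost all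
coefficients the dimension of the kernel is the number of rows minus the term rank of the pattern.
(3) Over torsion-free groups, matrices with at most two terms in every column, and doubly weakly
diagonally dominant square matrices, have kernels of integral dimension.
(4) Over torsion-free groups, an element with three terms has a kernel of dimension at most `1/3`,
more precisely at most the smallest angle of the triangle with the absolute values of the
coefficients as sides, divided by `π`; the same holds for elements with an iterated face with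
three terms, and the kernel is zero if some iterated face has one or two terms.
-/

set_option autoImplicit false

namespace Pool.Agent.Results.MP_c5ea68_al.SparseKernels

/-- the Hilbert space `ℓ²(α)` -/
abbrev L2 (α : Type) : Type := lp (fun _ : α => ℂ) 2

/-- `x A = 0`, for `x ∈ ℓ²(G)^m` and an `m × n` matrix `A` over `ℂ G` -/
def Solves {G : Type} [Group G] {m n : ℕ} (A : Matrix (Fin m) (Fin n) (G →₀ ℂ))
    (x : L2 (G × Fin m)) : Prop :=
  ∀ (j : Fin n) (g : G), ∑ i : Fin m, ∑ h ∈ (A i j).support, x (g * h⁻¹, i) * A i j h = 0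

/-- the kernel of `x ↦ x A` on `ℓ²(G)^m` -/
noncomputable def Kernel {G : Type} [Group G] {m n : ℕ} (A : Matrix (Fin m) (Fin n) (G →₀ ℂ)) :
    Submodule ℂ (L2 (G × Fin m)) := Submodule.span ℂ {x | Solves A x}

/-- the distance of `x` to the orthogonal complement of `K`, that is the norm of the projection of
`x` to the closure of `K` -/
noncomputable def projNorm {α : Type} (K : Submodule ℂ (L2 α)) (x : L2 α) : ℝ :=
  Metric.infDist x (Kᗮ : Set (L2 α))

/-- the basis vector at `a` -/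
noncomputable def basis {α : Type} [DecidableEq α] (a : α) : L2 α := lp.single 2 a (1 : ℂ)

/-- the von Neumann dimension of the kernel of `x ↦ x A` on `ℓ²(G)^m` -/
noncomputable def kerDim {G : Type} [Group G] [DecidableEq G] {m n : ℕ}
    (A : Matrix (Fin m) (Fin n) (G →₀ ℂ)) : ℝ :=
  ∑ i : Fin m, projNorm (Kernel A) (basis ((1 : G), i)) ^ 2

/-- torsion-free groups -/
def TorsionFree (G : Type) [Group G] : Prop := ∀ g : G, g ≠ 1 → ¬ IsOfFinOrder g

/-- the `1 × 1` matrix of an element of the group ring -/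
def el {G : Type} (a : G →₀ ℂ) : Matrix (Fin 1) (Fin 1) (G →₀ ℂ) := fun _ _ => a

/-- the coefficient `b` of the element `g` in the matrix position `(i, j)` is nonzero only if
`g` is in the subgroup `H` and `v j ≤ u i + φ g` -/
def Bounded {G : Type} [Group G] {m n : ℕ} (A : Matrix (Fin m) (Fin n) (G →₀ ℂ))
    (H : Subgroup G) (φ : H →* Multiplicative ℤ) (u : Fin m → ℤ) (v : Fin n → ℤ) : Prop :=
  ∀ i j g, A i j g ≠ 0 → ∃ h : g ∈ H, v j ≤ u i + Multiplicative.toAdd (φ ⟨g, h⟩)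

/-- `B` is the part of `A` on the terms with `v j = u i + φ g` -/
def IsInitial {G : Type} [Group G] {m n : ℕ} (A B : Matrix (Fin m) (Fin n) (G →₀ ℂ))
    (H : Subgroup G) (φ : H →* Multiplicative ℤ) (u : Fin m → ℤ) (v : Fin n → ℤ) : Prop :=
  ∀ i j g, ((∃ h : g ∈ H, v j = u i + Multiplicative.toAdd (φ ⟨g, h⟩)) → B i j g = A i j g) ∧
    ((¬ ∃ h : g ∈ H, v j = u i + Multiplicative.toAdd (φ ⟨g, h⟩)) → B i j g = 0)

/-- `b` is a face of `a`: for some `u : G`, some homomorphism `φ` from a subgroup `H` to `ℤ` and some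
integer `c`, all `g` in the support of `a` satisfy `u⁻¹ g ∈ H` and `c ≤ φ (u⁻¹ g)`, and `b` is the
part of `a` on the `g` with `φ (u⁻¹ g) = c` -/
def IsFace {G : Type} [Group G] (a b : G →₀ ℂ) : Prop :=
  ∃ (u : G) (H : Subgroup G) (φ : H →* Multiplicative ℤ) (c : ℤ),
    (∀ g, a g ≠ 0 → ∃ h : u⁻¹ * g ∈ H, c ≤ Multiplicative.toAdd (φ ⟨u⁻¹ * g, h⟩)) ∧
    ∀ g, ((∃ h : u⁻¹ * g ∈ H, Multiplicative.toAdd (φ ⟨u⁻¹ * g, h⟩) = c) → b g = a g) ∧
      ((¬ ∃ h : u⁻¹ * g ∈ H, Multiplicative.toAdd (φ ⟨u⁻¹ * g, h⟩) = c) → b g = 0)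

/-- the matrix with the coefficients `c` on the pattern `P` of positions and group elements -/
noncomputable def matOf {G : Type} [DecidableEq G] {m n : ℕ} (P : Finset (Fin m × Fin n × G))
    (c : P → ℂ) : Matrix (Fin m) (Fin n) (G →₀ ℂ) :=
  fun i j => ∑ p : P, if p.1.1 = i ∧ p.1.2.1 = j then Finsupp.single p.1.2.2 (c p) else 0

/-- the pattern `P` has `r` positions in different rows and different columns -/
def HasMatching {G : Type} {m n : ℕ} (P : Finset (Fin m × Fin n × G)) (r : ℕ) : Prop :=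
  ∃ (p : Fin r → Fin m) (q : Fin r → Fin n), Function.Injective p ∧ Function.Injective q ∧
    ∀ k, ∃ g, (p k, q k, g) ∈ P

/-- an element with three terms -/
def ThreeTerms {G : Type} (a : G →₀ ℂ) (u v w : G) : Prop :=
  u ≠ v ∧ u ≠ w ∧ v ≠ w ∧ ∀ g, a g ≠ 0 ↔ g = u ∨ g = v ∨ g = w

open Pool.Agent.H84.At

theorem kerDim_eq_nd {G : Type} [Group G] [DecidableEq G] {m n : ℕ}
    (A : Matrix (Fin m) (Fin n) (G →₀ ℂ)) :
    kerDim A = nd (ker A) :=
  Pool.Agent.H84.At.kerDim_eq A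

theorem kerDim_el {G : Type} [Group G] [DecidableEq G] (a : G →₀ ℂ) :
    kerDim (el a) = nd (ker (SG.el a)) := by
  rw [kerDim_eq_nd]
  have h := nd_ker_submatrix (Equiv.ofUnique (Fin 1) Unit) (Equiv.ofUnique (Fin 1) Unit)
    (SG.el a)
  rw [← h]
  rfl

theorem face_one {G : Type} [Group G] [DecidableEq G] {a b : G →₀ ℂ} (h : IsFace a b) :
    kerDim (el a) ≤ kerDim (el b) := by
  classical
  obtain ⟨u, H, φ, c, h1, h2⟩ := h
  rw [kerDim_el, kerDim_el]
  refine (SG.face_step a u H φ c h1).trans (le_of_eq ?_)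
  have : (a.filter (· ∈ {g | ∃ h : u⁻¹ * g ∈ H, Multiplicative.toAdd (φ ⟨u⁻¹ * g, h⟩) = c})) = b := by
    ext g
    rw [Finsupp.filter_apply]
    split_ifs with h
    · exact ((h2 g).1 h).symm
    · exact ((h2 g).2 h).symm
  rw [← this]

theorem face_le {G : Type} [Group G] [DecidableEq G] {a b : G →₀ ℂ}
    (h : Relation.ReflTransGen IsFace a b) : kerDim (el a) ≤ kerDim (el b) := by
  induction h with
  | refl => exact le_rfl
  | tail _ h ih => exact ih.trans (face_one h)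

theorem initial_le {G : Type} [Group G] [DecidableEq G] {m n : ℕ}
    (A B : Matrix (Fin m) (Fin n) (G →₀ ℂ)) (H : Subgroup G) (φ : H →* Multiplicative ℤ)
    (u : Fin m → ℤ) (v : Fin n → ℤ) (h1 : Bounded A H φ u v) (h2 : IsInitial A B H φ u v) :
    kerDim A ≤ kerDim B := by
  classical
  rw [kerDim_eq_nd, kerDim_eq_nd]
  refine (SG.init_le H φ u v A h1).trans (le_of_eq ?_)
  have : SG.flt (fun i j =>
      {g | ∃ h : g ∈ H, v j = u i + Multiplicative.toAdd (φ ⟨g, h⟩)}) A = B := by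
    funext i j
    ext g
    rw [SG.flt_apply]
    split_ifs with h
    · exact ((h2 i j g).1 h).symm
    · exact ((h2 i j g).2 h).symm
  rw [this]

theorem generic {G : Type} [Group G] [DecidableEq G] {m n : ℕ}
    (P : Finset (Fin m × Fin n × G)) (r : ℕ) (hr : IsGreatest {s | HasMatching P s} r) :
    ∀ᵐ c : P → ℂ, kerDim (matOf P c) = (m : ℝ) - r := by
  have h := SG.generic P r hr.1 (fun s hs => hr.2 hs)
  filter_upwards [h] with c hc
  have h1 : matOf P c = SG.mt P c := by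
    funext i j
    unfold matOf SG.mt
    refine Finset.sum_congr rfl fun p _ => ?_
    by_cases hp : p.1.1 = i ∧ p.1.2.1 = j
    · rw [if_pos hp, if_pos hp]
    · rw [if_neg hp, if_neg hp]
  rw [kerDim_eq_nd, h1, hc, Fintype.card_fin]

theorem card_le {G : Type} [Group G] [DecidableEq G] (a b c : G →₀ ℂ) (hbc : ∀ g, b g ≠ 0 → c g = 0)
    (hb : ∀ g, b g ≠ 0 → a g ≠ 0) (hc : ∀ g, c g ≠ 0 → a g ≠ 0) :
    b.support.card + c.support.card ≤ a.support.card := by
  rw [← Finset.card_union_of_disjoint]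
  · apply Finset.card_le_card
    intro g hg
    rw [Finset.mem_union, Finsupp.mem_support_iff, Finsupp.mem_support_iff] at hg
    rw [Finsupp.mem_support_iff]
    exact hg.elim (hb g) (hc g)
  · rw [Finset.disjoint_left]
    intro g hg hg'
    rw [Finsupp.mem_support_iff] at hg hg'
    exact hg' (hbc g hg)

/-- the face of `a` where the character is minimal -/
theorem exists_face {G : Type} [Group G] (a : G →₀ ℂ) (ha : a ≠ 0) (u : G) (H : Subgroup G)
    (φ : H →* Multiplicative ℤ) (hH : ∀ g, a g ≠ 0 → u⁻¹ * g ∈ H) :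
    ∃ b : G →₀ ℂ, IsFace a b ∧ b ≠ 0 ∧ ∃ c : ℤ,
      (∀ g, a g ≠ 0 → ∃ h : u⁻¹ * g ∈ H, c ≤ Multiplicative.toAdd (φ ⟨u⁻¹ * g, h⟩)) ∧
      ∀ g, b g ≠ 0 → a g ≠ 0 ∧ ∃ h : u⁻¹ * g ∈ H, Multiplicative.toAdd (φ ⟨u⁻¹ * g, h⟩) = c := by
  classical
  let f : G → ℤ := fun g => if h : u⁻¹ * g ∈ H then Multiplicative.toAdd (φ ⟨u⁻¹ * g, h⟩) else 0
  have hne : a.support.Nonempty := Finsupp.support_nonempty_iff.2 ha
  obtain ⟨g₀, hg₀, hmin⟩ := a.support.exists_min_image f hne
  have hf : ∀ g (h : u⁻¹ * g ∈ H), f g = Multiplicative.toAdd (φ ⟨u⁻¹ * g, h⟩) :=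
    fun g h => dif_pos h
  have hle : ∀ g, a g ≠ 0 →
      ∃ h : u⁻¹ * g ∈ H, f g₀ ≤ Multiplicative.toAdd (φ ⟨u⁻¹ * g, h⟩) := by
    intro g hg
    refine ⟨hH g hg, ?_⟩
    rw [← hf g (hH g hg)]
    exact hmin g (Finsupp.mem_support_iff.2 hg)
  refine ⟨a.filter (fun g => ∃ h : u⁻¹ * g ∈ H, Multiplicative.toAdd (φ ⟨u⁻¹ * g, h⟩) = f g₀),
    ⟨u, H, φ, f g₀, hle, fun g => ⟨fun h => ?_, fun h => ?_⟩⟩, ?_, f g₀, hle, fun g hg => ?_⟩
  · rw [Finsupp.filter_apply, if_pos h]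
  · rw [Finsupp.filter_apply, if_neg h]
  · intro h0
    have h1 := DFunLike.congr_fun h0 g₀
    rw [Finsupp.filter_apply, if_pos ⟨hH g₀ (Finsupp.mem_support_iff.1 hg₀),
      (hf g₀ _).symm⟩] at h1
    exact Finsupp.mem_support_iff.1 hg₀ h1
  · rw [Finsupp.filter_apply] at hg
    split_ifs at hg with h
    · exact ⟨hg, h⟩
    · exact absurd rfl hg

theorem two_faces {G : Type} [Group G] [DecidableEq G] (a : G →₀ ℂ) (u : G)
    (H : Subgroup G) (φ : H →* Multiplicative ℤ) (hH : ∀ g, a g ≠ 0 → u⁻¹ * g ∈ H)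
    (hφ : ∃ g g' : G, a g ≠ 0 ∧ a g' ≠ 0 ∧ ∃ (h : u⁻¹ * g ∈ H) (h' : u⁻¹ * g' ∈ H),
      φ ⟨u⁻¹ * g, h⟩ ≠ φ ⟨u⁻¹ * g', h'⟩) :
    ∃ b c : G →₀ ℂ, IsFace a b ∧ IsFace a c ∧ b ≠ 0 ∧ c ≠ 0 ∧
      b.support.card + c.support.card ≤ a.support.card := by
  obtain ⟨g, g', hg, hg', h, h', hne⟩ := hφ
  have ha : a ≠ 0 := by
    rintro rfl
    exact hg rfl
  obtain ⟨b, hb, hb0, s, hs, hbs⟩ := exists_face a ha u H φ hH
  obtain ⟨c, hc, hc0, t, ht, hct⟩ := exists_face a ha u H φ⁻¹ hH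
  refine ⟨b, c, hb, hc, hb0, hc0, card_le a b c ?_ (fun x hx => (hbs x hx).1)
    (fun x hx => (hct x hx).1)⟩
  intro x hx
  by_contra hcx
  obtain ⟨-, k, hk⟩ := hbs x hx
  obtain ⟨-, l, hl⟩ := hct x hcx
  have hinv : ∀ z : H, Multiplicative.toAdd (φ⁻¹ z) = - Multiplicative.toAdd (φ z) := fun z => rfl
  rw [hinv] at hl
  apply hne
  have key : ∀ y, a y ≠ 0 → ∀ hy : u⁻¹ * y ∈ H, Multiplicative.toAdd (φ ⟨u⁻¹ * y, hy⟩) = s := by
    intro y hy hy'
    obtain ⟨_, h1⟩ := hs y hy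
    obtain ⟨_, h2⟩ := ht y hy
    rw [hinv] at h2
    omega
  apply Multiplicative.toAdd.injective
  rw [key g hg, key g' hg']

theorem result :
    (∀ (G : Type) [Group G] [DecidableEq G] (m n : ℕ) (A B : Matrix (Fin m) (Fin n) (G →₀ ℂ))
      (H : Subgroup G) (φ : H →* Multiplicative ℤ) (u : Fin m → ℤ) (v : Fin n → ℤ),
      Bounded A H φ u v → IsInitial A B H φ u v → kerDim A ≤ kerDim B) ∧
    (∀ (G : Type) [Group G] [DecidableEq G] (m n : ℕ) (P : Finset (Fin m × Fin n × G)) (r : ℕ),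
      IsGreatest {s | HasMatching P s} r →
        ∀ᵐ c : P → ℂ, kerDim (matOf P c) = (m : ℝ) - r) ∧
    (∀ (G : Type) [Group G] [DecidableEq G], TorsionFree G →
      (∀ (m n : ℕ) (A : Matrix (Fin m) (Fin n) (G →₀ ℂ)),
        (∀ j, ∑ i, (A i j).support.card ≤ 2) → ∃ k : ℕ, kerDim A = k) ∧
      (∀ (n : ℕ) (A : Matrix (Fin n) (Fin n) (G →₀ ℂ)),
        (∀ i, ∑ j, ∑ g ∈ (A i j).support, ‖A i j g‖ ≤ 2 * ‖A i i 1‖) →
        (∀ j, ∑ i, ∑ g ∈ (A i j).support, ‖A i j g‖ ≤ 2 * ‖A j j 1‖) →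
          ∃ k : ℕ, kerDim A = k) ∧
      (∀ a b : G →₀ ℂ, Relation.ReflTransGen IsFace a b → b ≠ 0 →
        (b.support.card ≤ 2 → kerDim (el a) = 0) ∧
        (b.support.card ≤ 3 → kerDim (el a) ≤ 1 / 3) ∧
        ∀ u v w : G, ThreeTerms b u v w → kerDim (el a) ≤
          Real.arccos ((‖b u‖ ^ 2 + ‖b v‖ ^ 2 - ‖b w‖ ^ 2) / (2 * ‖b u‖ * ‖b v‖)) / Real.pi) ∧
      (∀ (a : G →₀ ℂ) (u : G) (H : Subgroup G) (φ : H →* Multiplicative ℤ),
        (∀ g, a g ≠ 0 → u⁻¹ * g ∈ H) →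
        (∃ g g' : G, a g ≠ 0 ∧ a g' ≠ 0 ∧ ∃ (h : u⁻¹ * g ∈ H) (h' : u⁻¹ * g' ∈ H),
          φ ⟨u⁻¹ * g, h⟩ ≠ φ ⟨u⁻¹ * g', h'⟩) →
        (a.support.card ≤ 5 → kerDim (el a) = 0) ∧
        (a.support.card ≤ 7 → kerDim (el a) ≤ 1 / 3))) := by
  refine ⟨fun G _ _ m n A B H φ u v h1 h2 => initial_le A B H φ u v h1 h2,
    fun G _ _ m n P r hr => generic P r hr, fun G _ _ hG => ?_⟩
  have nn : ∀ a : G →₀ ℂ, 0 ≤ kerDim (el a) := fun a => by
    rw [kerDim_el]
    exact nd_nonneg _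
  have two : ∀ b : G →₀ ℂ, b ≠ 0 → b.support.card ≤ 2 → kerDim (el b) = 0 := fun b hb h => by
    rw [kerDim_el]
    exact SG.nd_ker_el_zero hG hb h
  have three : ∀ b : G →₀ ℂ, b ≠ 0 → b.support.card ≤ 3 → kerDim (el b) ≤ 1 / 3 :=
    fun b hb h => by
      rcases Nat.lt_or_ge 2 b.support.card with h' | h'
      · rw [kerDim_el]
        exact SG.tri_third hG b (le_antisymm h h')
      · rw [two b hb h']
        norm_num
  refine ⟨fun m n A hA => ?_, fun n A h1 h2 => ?_, fun a b hab hb => ⟨fun h => ?_, fun h => ?_,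
    fun u v w h => ?_⟩, fun a u H φ hH hφ => ?_⟩
  · obtain ⟨k, hk⟩ := SG.gain hG A hA
    exact ⟨k, by rw [kerDim_eq_nd, hk]⟩
  · obtain ⟨k, hk⟩ := SG.dom hG A h1 h2
    exact ⟨k, by rw [kerDim_eq_nd, hk]⟩
  · exact le_antisymm ((face_le hab).trans (two b hb h).le) (nn a)
  · exact (face_le hab).trans (three b hb h)
  · refine (face_le hab).trans ?_
    rw [kerDim_el]
    exact SG.tri hG b u v w h.1 h.2.1 h.2.2.1 h.2.2.2
  · obtain ⟨b, c, hb, hc, hb0, hc0, hcard⟩ := two_faces a u H φ hH hφ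
    refine ⟨fun h => ?_, fun h => ?_⟩
    · rcases Nat.lt_or_ge 2 b.support.card with h' | h'
      · exact le_antisymm ((face_one hc).trans (two c hc0 (by omega)).le) (nn a)
      · exact le_antisymm ((face_one hb).trans (two b hb0 h').le) (nn a)
    · rcases Nat.lt_or_ge 3 b.support.card with h' | h'
      · exact (face_one hc).trans (three c hc0 (by omega))
      · exact (face_one hb).trans (three b hb0 h')

end Pool.Agent.Results.MP_c5ea68_al.SparseKernels
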