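import Pool.Agent.H38.SG.Van

/-!
# Module PenC: consequences of the inequality for operator polynomials

`le_of_infinite`: choose `d + N` distinct points of `Z` (`Set.Infinite.natEmbedding` restricted to
`Fin (d + N)`), `pencil` gives `(d + N) r ≤ N κ₀ + d |ι|` for every `N`, hence
`N (r - κ₀) ≤ d (|ι| - r)` for every `N`, so `r ≤ κ₀` (archimedean).
`countable_gt`: the set is the union over `n : ℕ` of the sets
`{ζ | κ₀ + 1 / (n + 1) ≤ nd (kr (pol P d ζ))}`, which are finite by `le_of_infinite`.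
-/

set_option autoImplicit false
set_option linter.unusedSectionVars false

namespace Pool.Agent.H84.At.SG

open scoped ENNReal InnerProductSpace Classical

variable {G : Type} [Group G] {ι κ ν : Type}

theorem le_of_infinite [Fintype ι] [Fintype κ] {P : ℕ → E (G × ι) →L[ℂ] E (G × κ)}
    (hP : ∀ k, Equi (P k)) (d : ℕ) {Z : Set ℂ} (hZ : Z.Infinite) {r : ℝ}
    (h : ∀ ζ ∈ Z, r ≤ nd (kr (pol P d ζ))) : r ≤ nd (kr (P 0)) := by
  have key : ∀ N : ℕ, ((d : ℝ) + N) * r ≤ N * nd (kr (P 0)) + d * Fintype.card ι := by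
    intro N
    have hinj : Function.Injective (fun j : Fin (d + N) => ((hZ.natEmbedding Z (j : ℕ) : Z) : ℂ)) := by
      intro a b hab
      exact Fin.ext ((hZ.natEmbedding Z).injective (Subtype.ext hab))
    have h1 := pencil hP d N (fun j : Fin (d + N) => ((hZ.natEmbedding Z (j : ℕ) : Z) : ℂ)) hinj
    have h2 : ∑ _j : Fin (d + N), r ≤ ∑ j : Fin (d + N),
        nd (kr (pol P d ((hZ.natEmbedding Z (j : ℕ) : Z) : ℂ))) :=
      Finset.sum_le_sum fun j _ => h _ (hZ.natEmbedding Z (j : ℕ)).2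
    rw [Finset.sum_const, Finset.card_univ, Fintype.card_fin, nsmul_eq_mul, Nat.cast_add] at h2
    exact h2.trans h1
  by_contra hlt
  rw [not_le] at hlt
  obtain ⟨N, hN⟩ := exists_nat_gt (((d : ℝ) * Fintype.card ι - d * r) / (r - nd (kr (P 0))))
  rw [div_lt_iff₀ (sub_pos.2 hlt)] at hN
  have h3 := key N
  nlinarith [h3, hN]

theorem countable_gt [Fintype ι] [Fintype κ] {P : ℕ → E (G × ι) →L[ℂ] E (G × κ)}
    (hP : ∀ k, Equi (P k)) (d : ℕ) :
    {ζ : ℂ | nd (kr (P 0)) < nd (kr (pol P d ζ))}.Countable := by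
  have hsub : {ζ : ℂ | nd (kr (P 0)) < nd (kr (pol P d ζ))} ⊆
      ⋃ n : ℕ, {ζ : ℂ | nd (kr (P 0)) + 1 / ((n : ℝ) + 1) ≤ nd (kr (pol P d ζ))} := by
    intro ζ hζ
    have hζ' : nd (kr (P 0)) < nd (kr (pol P d ζ)) := hζ
    obtain ⟨n, hn⟩ := exists_nat_one_div_lt (sub_pos.2 hζ')
    rw [Set.mem_iUnion]
    refine ⟨n, ?_⟩
    show nd (kr (P 0)) + 1 / ((n : ℝ) + 1) ≤ nd (kr (pol P d ζ))
    linarith
  refine Set.Countable.mono hsub (Set.countable_iUnion fun n => ?_)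
  have hfin : {ζ : ℂ | nd (kr (P 0)) + 1 / ((n : ℝ) + 1) ≤ nd (kr (pol P d ζ))}.Finite := by
    by_contra hinf
    have h1 := le_of_infinite hP d (Z := {ζ : ℂ | nd (kr (P 0)) + 1 / ((n : ℝ) + 1) ≤
      nd (kr (pol P d ζ))}) hinf (r := nd (kr (P 0)) + 1 / ((n : ℝ) + 1)) (fun ζ hζ => hζ)
    have h2 : (0 : ℝ) < 1 / ((n : ℝ) + 1) := by positivity
    linarith
  exact hfin.countable

end Pool.Agent.H84.At.SG
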