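import Pool.Agent.H38.SG.Semi
import Pool.Agent.H38.SG.PenC
import Mathlib.MeasureTheory.Measure.Haar.Disintegration

/-!
# Module Gen: almost every combination has the smallest kernel

Let `T c = ∑ s, c s • T s`, `κ₀ = nd (kr (T c₀))`, `good = {c | nd (kr (T c)) ≤ κ₀}`. The complement is
the union over `n` of the closed sets `{c | κ₀ + 1 / (n + 1) ≤ nd (kr (T c))}` (`closed_ge`), so `good`
is measurable. For every `y` the set of the real `s` with `y + s c₀ ∉ good` is countable: for `s ≠ 0`,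
`T (y + s c₀) = s • pol P 1 (s⁻¹)` with `P 0 = T c₀`, `P 1 = T y` (and `P k = 0` for `k > 1`), so
`s⁻¹` lies in the countable set of `countable_gt`. Hence it is null and
`MeasureTheory.ae_ae_add_linearMap_mem_iff` (linear map `s ↦ s • c₀` from `ℝ`, Haar measures: `volume`)
gives the claim.
-/

set_option autoImplicit false
set_option linter.unusedSectionVars false

namespace Pool.Agent.H84.At.SG

open scoped ENNReal InnerProductSpace Classical

variable {G : Type} [Group G] {ι κ ν : Type}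

private lemma kr_smul [Fintype ι] [Fintype κ] (S : E (G × ι) →L[ℂ] E (G × κ)) {a : ℂ} (ha : a ≠ 0) :
    kr (a • S) = kr S := by
  ext u
  rw [mem_kr, mem_kr]
  show a • S u = 0 ↔ S u = 0
  rw [smul_eq_zero]
  exact or_iff_right ha

theorem ae_le [Fintype ι] [Fintype κ] {I : Type} [Fintype I]
    (T : I → E (G × ι) →L[ℂ] E (G × κ)) (hT : ∀ s, Equi (T s)) (c₀ : I → ℂ) :
    ∀ᵐ c : I → ℂ, nd (kr (∑ s, c s • T s)) ≤ nd (kr (∑ s, c₀ s • T s)) := by
  have hmeas : MeasurableSet {c : I → ℂ | nd (kr (∑ s, c s • T s)) ≤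
      nd (kr (∑ s, c₀ s • T s))} := by
    have hU : {c : I → ℂ | nd (kr (∑ s, c s • T s)) ≤ nd (kr (∑ s, c₀ s • T s))} =
        (⋃ n : ℕ, {c : I → ℂ | nd (kr (∑ s, c₀ s • T s)) + 1 / ((n : ℝ) + 1) ≤
          nd (kr (∑ s, c s • T s))})ᶜ := by
      ext c
      simp only [Set.mem_ofPred_eq, Set.mem_compl_iff, Set.mem_iUnion, not_exists, not_le]
      constructor
      · intro h n
        have h2 : (0 : ℝ) < 1 / ((n : ℝ) + 1) := by positivity
        linarith
      · intro h
        by_contra hlt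
        rw [not_le] at hlt
        obtain ⟨n, hn⟩ := exists_nat_one_div_lt (sub_pos.2 hlt)
        have h3 := h n
        linarith
    rw [hU]
    exact (MeasurableSet.iUnion fun n => (closed_ge T _).measurableSet).compl
  have key := MeasureTheory.ae_ae_add_linearMap_mem_iff (LinearMap.toSpanSingleton ℝ (I → ℂ) c₀)
    (MeasureTheory.volume : MeasureTheory.Measure ℝ)
    (MeasureTheory.volume : MeasureTheory.Measure (I → ℂ)) hmeas
  refine key.1 (Filter.Eventually.of_forall fun y => ?_)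
  let P : ℕ → E (G × ι) →L[ℂ] E (G × κ) := fun k =>
    if k = 0 then ∑ s, c₀ s • T s else if k = 1 then ∑ s, y s • T s else 0
  have hP : ∀ k, Equi (P k) := by
    intro k
    show Equi (if k = 0 then ∑ s, c₀ s • T s else if k = 1 then ∑ s, y s • T s else 0)
    split_ifs
    · exact Equi.sum fun s => (hT s).smul _
    · exact Equi.sum fun s => (hT s).smul _
    · exact Equi.zero
  have hP0 : P 0 = ∑ s, c₀ s • T s := rfl
  have hP1 : P 1 = ∑ s, y s • T s := rfl
  have hcount := countable_gt hP 1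
  have hpol : ∀ a : ℝ, a ≠ 0 → nd (kr (∑ s, (y + (LinearMap.toSpanSingleton ℝ (I → ℂ) c₀) a) s • T s))
      = nd (kr (pol P 1 ((a : ℂ)⁻¹))) := by
    intro a ha
    have ha' : (a : ℂ) ≠ 0 := Complex.ofReal_ne_zero.2 ha
    have h1 : ∑ s, (y + (LinearMap.toSpanSingleton ℝ (I → ℂ) c₀) a) s • T s =
        (a : ℂ) • pol P 1 ((a : ℂ)⁻¹) := by
      unfold pol
      rw [Fin.sum_univ_two]
      show _ = (a : ℂ) • (((a : ℂ)⁻¹) ^ 0 • P 0 + ((a : ℂ)⁻¹) ^ 1 • P 1)
      rw [hP0, hP1, pow_zero, pow_one, one_smul, smul_add, smul_smul, mul_inv_cancel₀ ha', one_smul,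
        Finset.smul_sum, ← Finset.sum_add_distrib]
      refine Finset.sum_congr rfl fun s _ => ?_
      rw [LinearMap.toSpanSingleton_apply, Pi.add_apply, Pi.smul_apply, add_smul, add_comm,
        Complex.real_smul, mul_smul]
    rw [h1, kr_smul _ ha']
  have hinj : Function.Injective (fun a : ℝ => ((a : ℂ))⁻¹) := by
    intro a b hab
    exact Complex.ofReal_injective (inv_injective hab)
  have hc2 : ({(0 : ℝ)} ∪ (fun a : ℝ => ((a : ℂ))⁻¹) ⁻¹'
      {ζ : ℂ | nd (kr (P 0)) < nd (kr (pol P 1 ζ))}).Countable :=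
    (Set.countable_singleton 0).union (hcount.preimage hinj)
  filter_upwards [hc2.ae_notMem MeasureTheory.volume] with a ha
  rw [Set.mem_union, not_or, Set.mem_singleton_iff] at ha
  obtain ⟨ha0, ha1⟩ := ha
  show nd (kr (∑ s, (y + (LinearMap.toSpanSingleton ℝ (I → ℂ) c₀) a) s • T s)) ≤ _
  rw [hpol a ha0, ← hP0]
  exact not_lt.1 ha1

end Pool.Agent.H84.At.SG
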