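import Pool.Agent.H38.SG.Wt
import Pool.Agent.H38.SG.PenC

/-!
# Module Init: the initial form inequality

Let `e = ex H φ a b` and `P k = rm (flt (fun i j => {g | g ∈ H ∧ e i j g = k}) A)` for `k : ℕ`
(equivariant by `equi_rm`). The exponents `e i j g` of the coefficients `A i j g ≠ 0` are natural
numbers at most `d` for some `d` (finitely many), so `pol P d ζ = rm (wt ζ e A)` for every `ζ` (prove
that `rm` is additive and homogeneous in the matrix: `cv_add`, `cv` of a scalar multiple, or compare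
`co j (· u)` with `co_rm`, `cv_apply`); so `kr (pol P d ζ) = ker (wt ζ e A)` has the dimension of
`ker A` for all `ζ` of modulus one (`nd_ker_wt`), an infinite set, and `le_of_infinite` gives
`nd (ker A) ≤ nd (kr (P 0))`, where `P 0 = rm` of the initial form.
-/

set_option autoImplicit false
set_option linter.unusedSectionVars false

namespace Pool.Agent.H84.At.SG

open scoped ENNReal InnerProductSpace Classical

variable {G : Type} [Group G] {ι κ ν : Type}

private theorem Init_cv (a : G →₀ ℂ) (T : Finset G) (hT : ∀ g, a g ≠ 0 → g ∈ T)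
    (u : E (G × Unit)) (x : G) (s : Unit) :
    cv a u (x, s) = ∑ g ∈ T, u (x * g⁻¹, s) * a g := by
  rw [cv_apply]
  refine Finset.sum_subset (fun g hg => hT g (Finsupp.mem_support_iff.1 hg)) ?_
  intro g _ hg
  rw [Finsupp.notMem_support_iff.1 hg, mul_zero]

/-- infinitely many complex numbers of modulus one -/
private theorem Init_inf : {ζ : ℂ | ‖ζ‖ = 1}.Infinite := by
  have hne : ∀ t : ℕ, (1 : ℂ) - t * Complex.I ≠ 0 := by
    intro t h
    have h1 := congrArg Complex.re h
    simp at h1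
  refine Set.infinite_of_injective_forall_mem
    (f := fun t : ℕ => ((1 : ℂ) + t * Complex.I) / (1 - t * Complex.I)) ?_ ?_
  · intro s t h
    have h' : ((1 : ℂ) + s * Complex.I) / (1 - s * Complex.I) =
        (1 + t * Complex.I) / (1 - t * Complex.I) := h
    rw [div_eq_div_iff (hne s) (hne t)] at h'
    have h1 := congrArg Complex.im h'
    simp at h1
    have h2 : (s : ℝ) = t := by linarith
    exact_mod_cast h2
  · intro t
    show ‖((1 : ℂ) + t * Complex.I) / (1 - t * Complex.I)‖ = 1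
    have h1 : ‖(1 : ℂ) - t * Complex.I‖ = ‖(1 : ℂ) + t * Complex.I‖ := by
      have h2 : (1 : ℂ) - t * Complex.I = (starRingEnd ℂ) (1 + t * Complex.I) := by
        simp [sub_eq_add_neg]
      rw [h2, RCLike.norm_conj]
    rw [norm_div, h1, div_self]
    rw [← h1]
    exact norm_ne_zero_iff.2 (hne t)

private theorem Init_pow {d : ℕ} {e : ℤ} (h0 : 0 ≤ e) (hd : e.toNat ≤ d) (ζ : ℂ) :
    ∑ k : Fin (d + 1), (if e = ((k : ℕ) : ℤ) then ζ ^ (k : ℕ) else 0) = ζ ^ e := by
  have he : ((e.toNat : ℕ) : ℤ) = e := Int.toNat_of_nonneg h0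
  rw [Finset.sum_eq_single (⟨e.toNat, Nat.lt_succ_of_le hd⟩ : Fin (d + 1))]
  · rw [if_pos he.symm]
    conv_rhs => rw [← he]
    rw [zpow_natCast]
  · intro k _ hk
    rw [if_neg]
    intro h
    apply hk
    apply Fin.ext
    show (k : ℕ) = e.toNat
    rw [h]
    exact (Int.toNat_natCast _).symm
  · intro h
    exact absurd (Finset.mem_univ _) h

theorem init_le [Fintype ι] [Fintype κ] (H : Subgroup G) (φ : H →* Multiplicative ℤ) (a : ι → ℤ)
    (b : κ → ℤ) (A : Matrix ι κ (G →₀ ℂ))
    (hA : ∀ i j g, A i j g ≠ 0 → ∃ h : g ∈ H, b j ≤ a i + Multiplicative.toAdd (φ ⟨g, h⟩)) :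
    nd (ker A) ≤ nd (ker (flt (fun i j =>
      {g | ∃ h : g ∈ H, b j = a i + Multiplicative.toAdd (φ ⟨g, h⟩)}) A)) := by
  set e := ex H φ a b with he
  have hAH : ∀ i j g, A i j g ≠ 0 → g ∈ H := fun i j g hg => (hA i j g hg).1
  have he0 : ∀ i j g, A i j g ≠ 0 → 0 ≤ e i j g := by
    intro i j g hg
    obtain ⟨h, h1⟩ := hA i j g hg
    rw [he]
    unfold ex
    rw [dif_pos h]
    linarith
  set S : ℕ → ι → κ → Set G := fun k i j => {g | g ∈ H ∧ e i j g = (k : ℤ)} with hS
  set P : ℕ → E (G × ι) →L[ℂ] E (G × κ) := fun k => rm (flt (S k) A) with hPd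
  have hP : ∀ k, Equi (P k) := fun k => equi_rm _
  set d : ℕ := ∑ i, ∑ j, ∑ g ∈ (A i j).support, (e i j g).toNat with hd
  have hed : ∀ i j g, A i j g ≠ 0 → (e i j g).toNat ≤ d := by
    intro i j g hg
    have h1 : (e i j g).toNat ≤ ∑ g ∈ (A i j).support, (e i j g).toNat :=
      Finset.single_le_sum (f := fun g => (e i j g).toNat) (fun _ _ => Nat.zero_le _)
        (Finsupp.mem_support_iff.2 hg)
    have h2 : ∑ g ∈ (A i j).support, (e i j g).toNat ≤
        ∑ j, ∑ g ∈ (A i j).support, (e i j g).toNat :=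
      Finset.single_le_sum (f := fun j => ∑ g ∈ (A i j).support, (e i j g).toNat)
        (fun _ _ => Nat.zero_le _) (Finset.mem_univ j)
    have h3 : ∑ j, ∑ g ∈ (A i j).support, (e i j g).toNat ≤ d :=
      Finset.single_le_sum (f := fun i => ∑ j, ∑ g ∈ (A i j).support, (e i j g).toNat)
        (fun _ _ => Nat.zero_le _) (Finset.mem_univ i)
    exact h1.trans (h2.trans h3)
  have hpol : ∀ ζ : ℂ, pol P d ζ = rm (wt ζ e A) := by
    intro ζ
    refine ContinuousLinearMap.ext fun u => ext_co fun j => ?_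
    rw [pol_apply, map_sum, co_rm]
    have h1 : ∀ k : Fin (d + 1), co j (ζ ^ (k : ℕ) • P k u) =
        ∑ i, ζ ^ (k : ℕ) • cv (flt (S k) A i j) (co i u) := by
      intro k
      rw [map_smul, hPd, co_rm, Finset.smul_sum]
    rw [Finset.sum_congr rfl fun k _ => h1 k, Finset.sum_comm]
    refine Finset.sum_congr rfl fun i _ => ?_
    ext ⟨x, s⟩
    have h2 : ((∑ k : Fin (d + 1), ζ ^ (k : ℕ) • cv (flt (S k) A i j) (co i u) : E (G × Unit)) :
        G × Unit → ℂ) (x, s) =
        ∑ k : Fin (d + 1), ζ ^ (k : ℕ) * (cv (flt (S k) A i j) (co i u)) (x, s) := by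
      rw [lp.coeFn_sum, Finset.sum_apply]
      rfl
    rw [h2]
    rw [Init_cv (wt ζ e A i j) (A i j).support (fun g hg => by
      rw [wt_apply] at hg
      exact Finsupp.mem_support_iff.2 (right_ne_zero_of_mul hg))]
    have h3 : ∀ k : Fin (d + 1), ζ ^ (k : ℕ) * (cv (flt (S k) A i j) (co i u)) (x, s) =
        ∑ g ∈ (A i j).support, (co i u) (x * g⁻¹, s) * A i j g *
          (if e i j g = ((k : ℕ) : ℤ) then ζ ^ (k : ℕ) else 0) := by
      intro k
      rw [Init_cv (flt (S k) A i j) (A i j).support (fun g hg => by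
        rw [flt_apply] at hg
        rw [Finsupp.mem_support_iff]
        intro h0
        apply hg
        rw [h0, ite_self]), Finset.mul_sum]
      refine Finset.sum_congr rfl fun g hg => ?_
      have hg' := Finsupp.mem_support_iff.1 hg
      rw [flt_apply]
      by_cases h : e i j g = ((k : ℕ) : ℤ)
      · rw [if_pos (show g ∈ S k i j from ⟨hAH i j g hg', h⟩), if_pos h]
        ring
      · rw [if_neg (show ¬ g ∈ S k i j from fun hh => h hh.2), if_neg h]
        ring
    rw [Finset.sum_congr rfl fun k _ => h3 k, Finset.sum_comm]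
    refine Finset.sum_congr rfl fun g hg => ?_
    have hg' := Finsupp.mem_support_iff.1 hg
    rw [← Finset.mul_sum, Init_pow (he0 i j g hg') (hed i j g hg'), wt_apply]
    ring
  have hmain : nd (ker A) ≤ nd (kr (P 0)) := by
    refine le_of_infinite hP d Init_inf fun ζ hζ => ?_
    have h1 : kr (pol P d ζ) = ker (wt ζ e A) := by
      rw [hpol ζ]
      rfl
    rw [h1, he, nd_ker_wt H φ a b A hAH ζ hζ]
  have hS0 : S 0 = fun i j => {g | ∃ h : g ∈ H, b j = a i + Multiplicative.toAdd (φ ⟨g, h⟩)} := by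
    funext i j
    ext g
    show (g ∈ H ∧ e i j g = ((0 : ℕ) : ℤ)) ↔ ∃ h : g ∈ H, _
    constructor
    · rintro ⟨h, h1⟩
      refine ⟨h, ?_⟩
      rw [he] at h1
      unfold ex at h1
      rw [dif_pos h] at h1
      push_cast at h1
      linarith
    · rintro ⟨h, h1⟩
      refine ⟨h, ?_⟩
      rw [he]
      unfold ex
      rw [dif_pos h]
      push_cast
      linarith
  have h0 : kr (P 0) = ker (flt (S 0) A) := rfl
  rw [h0, hS0] at hmain
  exact hmain

end Pool.Agent.H84.At.SG
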