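import Pool.Agent.H38.SG.Defs

/-!
# Module Prod: the dimension of a finite product of submodules

`pr (prodS K) u = ∑ k, bi k (pr (K k) (bl k u))` by `pr_eq_of` (membership: `bl l` of it is
`pr (K l) (bl l u) ∈ K l` by `pr_mem`; orthogonality: for `w ∈ prodS K` expand
`⟪w, u - v⟫` with `sum_bi_bl` and `inner_bi`, each block is `⟪bl k w, bl k u - pr (K k) (bl k u)⟫ = 0`,
`inner_sub_pr`). Then `dl (1, (k, i)) = bi k (dl (1, i))` (`dl_bi`), `bl l (bi k x) = 0` for `l ≠ k`,
so `pr (prodS K) (dl (1, (k, i))) = bi k (pr (K k) (dl (1, i)))` (for `l ≠ k`, `pr (K l) 0 = 0`), and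
`bi k` preserves the norm (`norm_push`). Sum with `Fintype.sum_prod_type`.
-/

set_option autoImplicit false
set_option linter.unusedSectionVars false

namespace Pool.Agent.H84.At.SG

open scoped ENNReal InnerProductSpace Classical

variable {G : Type} [Group G] {ι κ ν : Type}

private theorem Prod_bl [Fintype κ] (f : κ → E (G × ι)) (l : κ) : bl l (∑ k, bi k (f k)) = f l := by
  rw [map_sum, Finset.sum_eq_single l, bl_bi]
  · intro k _ hk
    exact bl_bi_ne hk.symm _
  · intro h
    exact absurd (Finset.mem_univ l) h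

private theorem Prod_pr [Fintype κ] {K : κ → Submodule ℂ (E (G × ι))}
    (hK : ∀ k, IsClosed (K k : Set (E (G × ι)))) (u : E (G × (κ × ι))) :
    pr (prodS K) u = ∑ k, bi k (pr (K k) (bl k u)) := by
  refine pr_eq_of (prodS K) (Submodule.le_topologicalClosure _ (mem_prodS.2 fun l => ?_)) ?_
  · rw [Prod_bl]
    exact pr_mem (hK l) _
  · intro w hw
    rw [← sum_bi_bl w, sum_inner]
    refine Finset.sum_eq_zero fun k _ => ?_
    rw [inner_bi, map_sub, Prod_bl]
    exact inner_sub_pr (K k) (bl k u) (Submodule.le_topologicalClosure _ (mem_prodS.1 hw k))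

private theorem Prod_norm (k : κ) (u : E (G × ι)) : ‖(bi k u : E (G × (κ × ι)))‖ = ‖u‖ :=
  norm_push _ (cr_inj G (fun i => (k, i)) (bl_inj k)) u

theorem nd_prodS [Fintype κ] [Fintype ι] {K : κ → Submodule ℂ (E (G × ι))}
    (hK : ∀ k, IsClosed (K k : Set (E (G × ι)))) : nd (prodS K) = ∑ k, nd (K k) := by
  unfold nd
  rw [Fintype.sum_prod_type]
  refine Finset.sum_congr rfl fun k _ => Finset.sum_congr rfl fun i _ => ?_
  have h : pr (prodS K) (dl ((1 : G), (k, i))) = bi k (pr (K k) (dl ((1 : G), i))) := by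
    rw [Prod_pr hK, Finset.sum_eq_single k]
    · rw [dl_bi, bl_bi]
    · intro l _ hl
      rw [dl_bi, bl_bi_ne hl, map_zero, map_zero]
    · intro h
      exact absurd (Finset.mem_univ k) h
  rw [h, Prod_norm]

end Pool.Agent.H84.At.SG
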