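import Pool.Agent.H38.SG.Defs
import Mathlib.Analysis.InnerProductSpace.MeanErgodic

/-!
# Module Semi: upper semicontinuity of the dimension of the kernel

Let `T c = ∑ s, c s • T s`. The set `{c | nd (kr (T c)) < r}` is open: fix `c₀` in it, let `M > 0`
with `‖T c‖ ^ 2 ≤ M` for `‖c - c₀‖ ≤ 1` and let `R c = 1 - (1 / M) • (T c)† (T c)`, a self-adjoint
contraction (`0 ≤ ⟪R v, v⟫ ≤ ‖v‖ ^ 2`) whose fixed vectors are the vectors of `kr (T c)`. By the mean ergodic
theorem of Mathlib (`ContinuousLinearMap.tendsto_birkhoffAverage_orthogonalProjection` or the like) the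
averages `m N c v = (1 / N) ∑ k < N, (R c) ^ k v` tend to `pr (kr (T c)) v`, and
`‖pr (kr (T c)) v‖ ≤ ‖m N c v‖` for every `N ≥ 1`, because `pr (kr (T c)) (m N c v) = pr (kr (T c)) v`.
So `nd (kr (T c)) ≤ F N c := ∑ i, ‖m N c (dl (1, i))‖ ^ 2`, with `F N c₀ → nd (kr (T c₀)) < r`; pick `N`
with `F N c₀ < r` and use that `F N` is continuous at `c₀`.
-/

set_option autoImplicit false
set_option linter.unusedSectionVars false

namespace Pool.Agent.H84.At.SG

open scoped ENNReal InnerProductSpace Classical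

variable {G : Type} [Group G] {ι κ ν : Type}

private noncomputable def semi_R [Fintype ι] [Fintype κ] (S : E (G × ι) →L[ℂ] E (G × κ)) :
    E (G × ι) →L[ℂ] E (G × ι) :=
  1 - (((1 + ‖S‖ ^ 2)⁻¹ : ℝ) : ℂ) • (ContinuousLinearMap.adjoint S).comp S

private lemma semi_apply [Fintype ι] [Fintype κ] (S : E (G × ι) →L[ℂ] E (G × κ)) (v : E (G × ι)) :
    semi_R S v = v - (((1 + ‖S‖ ^ 2)⁻¹ : ℝ) : ℂ) • (ContinuousLinearMap.adjoint S) (S v) := rfl

private lemma semi_pos [Fintype ι] [Fintype κ] (S : E (G × ι) →L[ℂ] E (G × κ)) :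
    0 < (1 + ‖S‖ ^ 2)⁻¹ := by positivity

private lemma semi_norm [Fintype ι] [Fintype κ] (S : E (G × ι) →L[ℂ] E (G × κ)) :
    ‖semi_R S‖ ≤ 1 := by
  refine ContinuousLinearMap.opNorm_le_bound _ zero_le_one ?_
  intro v
  rw [one_mul]
  have ha := semi_pos S
  set a : ℝ := (1 + ‖S‖ ^ 2)⁻¹ with hadef
  have ha1 : a * ‖S‖ ^ 2 ≤ 1 := by
    rw [hadef, inv_mul_le_iff₀ (by positivity)]
    linarith
  have h1 : ‖semi_R S v‖ ^ 2 = ‖v‖ ^ 2 - 2 * (a * ‖S v‖ ^ 2) +
      a ^ 2 * ‖(ContinuousLinearMap.adjoint S) (S v)‖ ^ 2 := by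
    rw [semi_apply, norm_sub_sq (𝕜 := ℂ), norm_smul, inner_smul_right,
      ContinuousLinearMap.adjoint_inner_right, inner_self_eq_norm_sq_to_K]
    rw [Complex.norm_real, Real.norm_of_nonneg ha.le, mul_pow]
    congr 2
    have : ((a : ℝ) : ℂ) * ((‖S v‖ : ℝ) : ℂ) ^ 2 = ((a * ‖S v‖ ^ 2 : ℝ) : ℂ) := by push_cast; rfl
    have h3 : RCLike.re (((a * ‖S v‖ ^ 2 : ℝ) : ℂ)) = a * ‖S v‖ ^ 2 := Complex.ofReal_re _
    rw [← h3, ← this]
    rfl
  have h2 : ‖(ContinuousLinearMap.adjoint S) (S v)‖ ^ 2 ≤ ‖S‖ ^ 2 * ‖S v‖ ^ 2 := by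
    have h3 := (ContinuousLinearMap.adjoint S).le_opNorm (S v)
    rw [LinearIsometryEquiv.norm_map] at h3
    calc ‖(ContinuousLinearMap.adjoint S) (S v)‖ ^ 2 ≤ (‖S‖ * ‖S v‖) ^ 2 :=
          pow_le_pow_left₀ (norm_nonneg _) h3 2
      _ = _ := by ring
  have h3 : ‖semi_R S v‖ ^ 2 ≤ ‖v‖ ^ 2 := by
    rw [h1]
    have h4 : a ^ 2 * ‖(ContinuousLinearMap.adjoint S) (S v)‖ ^ 2 ≤ a * ‖S v‖ ^ 2 := by
      calc a ^ 2 * ‖(ContinuousLinearMap.adjoint S) (S v)‖ ^ 2
          ≤ a ^ 2 * (‖S‖ ^ 2 * ‖S v‖ ^ 2) := mul_le_mul_of_nonneg_left h2 (by positivity)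
        _ = (a * ‖S‖ ^ 2) * (a * ‖S v‖ ^ 2) := by ring
        _ ≤ 1 * (a * ‖S v‖ ^ 2) := mul_le_mul_of_nonneg_right ha1 (by positivity)
        _ = _ := one_mul _
    have h5 : 0 ≤ a * ‖S v‖ ^ 2 := by positivity
    linarith
  exact (abs_le_of_sq_le_sq' h3 (norm_nonneg _)).2

private lemma semi_fix [Fintype ι] [Fintype κ] (S : E (G × ι) →L[ℂ] E (G × κ)) (v : E (G × ι)) :
    semi_R S v = v ↔ v ∈ kr S := by
  rw [mem_kr, semi_apply]
  constructor
  · intro h
    have h1 : (((1 + ‖S‖ ^ 2)⁻¹ : ℝ) : ℂ) • (ContinuousLinearMap.adjoint S) (S v) = 0 := by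
      have := sub_eq_self.1 h
      exact this
    have h2 : (ContinuousLinearMap.adjoint S) (S v) = 0 := by
      rcases smul_eq_zero.1 h1 with h3 | h3
      · exact absurd (Complex.ofReal_eq_zero.1 h3) (semi_pos S).ne'
      · exact h3
    have h4 : ⟪(ContinuousLinearMap.adjoint S) (S v), v⟫_ℂ = 0 := by rw [h2, inner_zero_left]
    rw [ContinuousLinearMap.adjoint_inner_left] at h4
    exact inner_self_eq_zero.1 h4
  · intro h
    rw [h, map_zero, smul_zero, sub_zero]

private lemma semi_pr [Fintype ι] [Fintype κ] (S : E (G × ι) →L[ℂ] E (G × κ)) (v : E (G × ι)) :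
    pr (kr S) (semi_R S v) = pr (kr S) v := by
  rw [semi_apply, map_sub, map_smul]
  have h : pr (kr S) ((ContinuousLinearMap.adjoint S) (S v)) = 0 := by
    apply pr_eq_zero
    intro w hw
    rw [ContinuousLinearMap.adjoint_inner_right, mem_kr.1 hw, inner_zero_left]
  rw [h, smul_zero, sub_zero]

private lemma semi_iter [Fintype ι] [Fintype κ] (S : E (G × ι) →L[ℂ] E (G × κ)) (v : E (G × ι))
    (k : ℕ) : pr (kr S) ((⇑(semi_R S))^[k] v) = pr (kr S) v := by
  induction k with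
  | zero => rfl
  | succ k ih => rw [Function.iterate_succ_apply', semi_pr, ih]

private lemma semi_avg [Fintype ι] [Fintype κ] (S : E (G × ι) →L[ℂ] E (G × κ)) (v : E (G × ι))
    {N : ℕ} (hN : 0 < N) :
    ‖pr (kr S) v‖ ≤ ‖birkhoffAverage ℂ (⇑(semi_R S)) _root_.id N v‖ := by
  have h : pr (kr S) (birkhoffAverage ℂ (⇑(semi_R S)) _root_.id N v) = pr (kr S) v := by
    unfold birkhoffAverage birkhoffSum
    simp only [_root_.id]
    rw [map_smul, map_sum, Finset.sum_congr rfl fun k _ => semi_iter S v k, Finset.sum_const,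
      Finset.card_range, ← Nat.cast_smul_eq_nsmul ℂ, smul_smul, inv_mul_cancel₀, one_smul]
    exact_mod_cast hN.ne'
  rw [← h]
  exact norm_pr_le _ _

private lemma semi_lim [Fintype ι] [Fintype κ] (S : E (G × ι) →L[ℂ] E (G × κ)) (v : E (G × ι)) :
    Filter.Tendsto (fun N => birkhoffAverage ℂ (⇑(semi_R S)) _root_.id N v) Filter.atTop
      (nhds (pr (kr S) v)) := by
  have h := ContinuousLinearMap.tendsto_birkhoffAverage_orthogonalProjection (semi_R S) (semi_norm S) v
  have h1 : pr (kr S) v =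
      (((semi_R S).eqLocus (1 : E (G × ι) →L[ℂ] E (G × ι))).orthogonalProjectionOnto v :
        E (G × ι)) := by
    apply pr_eq_of
    · apply Submodule.le_topologicalClosure
      rw [← semi_fix]
      exact ((((semi_R S).eqLocus (1 : E (G × ι) →L[ℂ] E (G × ι))).orthogonalProjectionOnto v).2)
    · intro w hw
      have hw' : w ∈ (semi_R S).eqLocus (1 : E (G × ι) →L[ℂ] E (G × ι)) := (semi_fix S w).2 hw
      have h2 := Submodule.sub_starProjection_mem_orthogonal
        (K := (semi_R S).eqLocus (1 : E (G × ι) →L[ℂ] E (G × ι))) v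
      exact (Submodule.mem_orthogonal _ _).1 h2 w hw'
  rw [h1]
  exact h

private lemma semi_cont [Fintype ι] [Fintype κ] {I : Type} [Fintype I]
    (T : I → E (G × ι) →L[ℂ] E (G × κ)) :
    Continuous fun c : I → ℂ => semi_R (∑ s, c s • T s) := by
  have h1 : Continuous fun c : I → ℂ => ∑ s, c s • T s :=
    continuous_finsetSum _ fun s _ => (continuous_apply s).smul continuous_const
  unfold semi_R
  have h2 : Continuous fun c : I → ℂ => (((1 + ‖∑ s, c s • T s‖ ^ 2)⁻¹ : ℝ) : ℂ) := by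
    refine Complex.continuous_ofReal.comp (Continuous.inv₀ ?_ ?_)
    · exact continuous_const.add (h1.norm.pow 2)
    · intro c
      positivity
  have h3 : Continuous fun c : I → ℂ => (ContinuousLinearMap.adjoint (∑ s, c s • T s)).comp
      (∑ s, c s • T s) := (ContinuousLinearMap.adjoint.continuous.comp h1).clm_comp h1
  exact continuous_const.sub (h2.smul h3)

private lemma semi_itc [Fintype ι] [Fintype κ] {I : Type} [Fintype I]
    (T : I → E (G × ι) →L[ℂ] E (G × κ)) (v : E (G × ι)) (k : ℕ) :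
    Continuous fun c : I → ℂ => (⇑(semi_R (∑ s, c s • T s)))^[k] v := by
  induction k with
  | zero => exact continuous_const
  | succ k ih =>
    simp only [Function.iterate_succ_apply']
    exact (semi_cont T).clm_apply ih

theorem closed_ge [Fintype ι] [Fintype κ] {I : Type} [Fintype I]
    (T : I → E (G × ι) →L[ℂ] E (G × κ)) (r : ℝ) :
    IsClosed {c : I → ℂ | r ≤ nd (kr (∑ s, c s • T s))} := by
  have key : {c : I → ℂ | r ≤ nd (kr (∑ s, c s • T s))} =
      ⋂ N : ℕ, {c : I → ℂ | r ≤ ∑ i, ‖birkhoffAverage ℂ (⇑(semi_R (∑ s, c s • T s)))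
        _root_.id (N + 1) (dl ((1 : G), i))‖ ^ 2} := by
    ext c
    simp only [Set.mem_ofPred_eq, Set.mem_iInter]
    constructor
    · intro h N
      refine h.trans ?_
      unfold nd
      exact Finset.sum_le_sum fun i _ =>
        pow_le_pow_left₀ (norm_nonneg _) (semi_avg _ _ (Nat.succ_pos N)) 2
    · intro h
      have h1 : Filter.Tendsto (fun N : ℕ => ∑ i, ‖birkhoffAverage ℂ
          (⇑(semi_R (∑ s, c s • T s))) _root_.id (N + 1) (dl ((1 : G), i))‖ ^ 2) Filter.atTop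
          (nhds (nd (kr (∑ s, c s • T s)))) := by
        unfold nd
        refine tendsto_finsetSum _ fun i _ => Filter.Tendsto.pow (Filter.Tendsto.norm ?_) 2
        exact (semi_lim (∑ s, c s • T s) (dl ((1 : G), i))).comp (Filter.tendsto_add_atTop_nat 1)
      exact ge_of_tendsto' h1 h
  rw [key]
  refine isClosed_iInter fun N => isClosed_le continuous_const ?_
  refine continuous_finsetSum _ fun i _ => (Continuous.norm ?_).pow 2
  unfold birkhoffAverage birkhoffSum
  have h4 : Continuous fun c : I → ℂ => ∑ k ∈ Finset.range (N + 1),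
      (⇑(semi_R (∑ s, c s • T s)))^[k] (dl ((1 : G), i)) :=
    continuous_finsetSum _ fun k _ => semi_itc T _ k
  exact h4.const_smul (((N + 1 : ℕ) : ℂ)⁻¹)

end Pool.Agent.H84.At.SG
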