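import Pool.Agent.H38.SG.Defs

/-!
# Module Twist: multiplication by unimodular functions

`mu θ` multiplies by the unimodular function `θ`. `nd_twist`: with `M = mu θ`, `M' = mu (star θ)` its
inverse and adjoint, `pr L u = M' (pr K (M u))` by `pr_eq_of` (both submodules are closed), and
`M (dl (1, i)) = θ (1, i) • dl (1, i)`, so the norms of the projections agree.
-/

set_option autoImplicit false
set_option linter.unusedSectionVars false

namespace Pool.Agent.H84.At.SG

open scoped ENNReal InnerProductSpace Classical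

variable {G : Type} [Group G] {ι κ ν : Type}

/-- multiplication by a unimodular function -/
noncomputable def mu {α : Type} (θ : α → ℂ) (hθ : ∀ a, ‖θ a‖ = 1) : E α →L[ℂ] E α :=
  LinearMap.mkContinuous
    { toFun := fun u => ⟨fun a => θ a * u a, memlp_of_summable (by
        simpa [norm_mul, hθ] using summable_sq u)⟩
      map_add' := by intro u v; ext a; exact mul_add _ _ _
      map_smul' := by intro c u; ext a; exact mul_left_comm _ _ _ } 1 (by
    intro u
    have h1 : ‖(⟨fun a => θ a * u a, memlp_of_summable (by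
        simpa [norm_mul, hθ] using summable_sq u)⟩ : E α)‖ ^ 2 ≤ ‖u‖ ^ 2 := by
      rw [norm_sq_eq, norm_sq_eq]
      refine le_of_eq (tsum_congr fun a => ?_)
      change ‖θ a * u a‖ ^ 2 = ‖u a‖ ^ 2
      rw [norm_mul, hθ, one_mul]
    have h2 := abs_le_of_sq_le_sq' h1 (norm_nonneg u)
    simpa using h2.2)

@[simp] theorem mu_apply {α : Type} (θ : α → ℂ) (hθ : ∀ a, ‖θ a‖ = 1) (u : E α) (a : α) :
    mu θ hθ u a = θ a * u a := rfl

private theorem Twist_norm {α : Type} (θ : α → ℂ) (hθ : ∀ a, ‖θ a‖ = 1) (u : E α) :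
    ‖mu θ hθ u‖ = ‖u‖ := by
  have h1 : ‖mu θ hθ u‖ ^ 2 = ‖u‖ ^ 2 := by
    rw [norm_sq_eq, norm_sq_eq]
    refine tsum_congr fun a => ?_
    rw [mu_apply, norm_mul, hθ, one_mul]
  exact (pow_left_inj₀ (norm_nonneg _) (norm_nonneg _) two_ne_zero).1 h1

private theorem Twist_inner {α : Type} (θ : α → ℂ) (hθ : ∀ a, ‖θ a‖ = 1) (u v : E α) :
    ⟪mu θ hθ u, mu θ hθ v⟫_ℂ = ⟪u, v⟫_ℂ := by
  rw [lp.inner_eq_tsum, lp.inner_eq_tsum]
  refine tsum_congr fun a => ?_
  rw [mu_apply, mu_apply]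
  have h1 : (starRingEnd ℂ) (θ a) * θ a = 1 := by
    rw [RCLike.conj_mul, hθ]
    norm_num
  simp only [RCLike.inner_apply, map_mul]
  calc θ a * v a * ((starRingEnd ℂ) (θ a) * (starRingEnd ℂ) (u a)) =
      ((starRingEnd ℂ) (θ a) * θ a) * (v a * (starRingEnd ℂ) (u a)) := by ring
    _ = v a * (starRingEnd ℂ) (u a) := by rw [h1, one_mul]

private theorem Twist_dl {α : Type} (θ : α → ℂ) (hθ : ∀ a, ‖θ a‖ = 1) (a : α) :
    mu θ hθ (dl a) = θ a • dl a := by
  ext b
  rw [mu_apply, lp.coeFn_smul, Pi.smul_apply, smul_eq_mul, dl_apply]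
  split_ifs with h
  · rw [h]
  · rw [mul_zero, mul_zero]

private theorem Twist_inv {α : Type} (θ : α → ℂ) (hθ : ∀ a, ‖θ a‖ = 1)
    (hθ' : ∀ a, ‖(starRingEnd ℂ) (θ a)‖ = 1) (u : E α) :
    mu θ hθ (mu (fun a => (starRingEnd ℂ) (θ a)) hθ' u) = u := by
  ext a
  rw [mu_apply, mu_apply, ← mul_assoc, RCLike.mul_conj, hθ]
  norm_num

theorem nd_twist [Fintype ι] {K L : Submodule ℂ (E (G × ι))}
    (hK : IsClosed (K : Set (E (G × ι)))) (hL : IsClosed (L : Set (E (G × ι))))
    (θ : G × ι → ℂ) (hθ : ∀ a, ‖θ a‖ = 1) (h : ∀ u, u ∈ L ↔ mu θ hθ u ∈ K) : nd L = nd K := by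
  have hθ' : ∀ a, ‖(starRingEnd ℂ) (θ a)‖ = 1 := fun a => by
    rw [RCLike.norm_conj]
    exact hθ a
  have key : ∀ u : E (G × ι), pr L u =
      mu (fun a => (starRingEnd ℂ) (θ a)) hθ' (pr K (mu θ hθ u)) := by
    intro u
    refine pr_eq_of L ?_ ?_
    · refine L.le_topologicalClosure ?_
      rw [h, Twist_inv]
      exact pr_mem hK _
    · intro w hw
      rw [← Twist_inner θ hθ, map_sub, Twist_inv]
      exact inner_sub_pr K _ (K.le_topologicalClosure ((h w).1 hw))
  unfold nd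
  refine Finset.sum_congr rfl fun i _ => ?_
  rw [key, Twist_norm, Twist_dl, map_smul, norm_smul, hθ, one_mul]

end Pool.Agent.H84.At.SG
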