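import Pool.Agent.H38.SG.Prod
import Pool.Agent.H38.SG.Fil
import Mathlib.LinearAlgebra.Vandermonde

/-!
# Module Van: the inequality for operator polynomials

Let `D = prodS (fun j => kr (pol P d (ζ j)))`, a closed invariant submodule of
`E (G × (Fin (d + N) × ι))` of dimension `∑ j, nd (kr (pol P d (ζ j)))` (`nd_prodS`), and let `T` be
the operator `x ↦ ∑ k, ∑ j, bi k (ζ j ^ k • bl j x)`, that is `y_k = ∑ j, ζ_j ^ k x_j`. It is
equivariant, it is injective because the Vandermonde matrix is invertible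
(`Matrix.det_vandermonde_ne_zero_iff`; apply it to the vectors `fun j => x (g, (j, i))`, e.g. with
`Matrix.eq_zero_of_mulVec_eq_zero`), and it maps `D` into `toep P d N`:
`∑ k ≤ d, P k y_{l+k} = ∑ j, ζ_j ^ l • pol P d (ζ j) x_j = 0`. Conclude with `nd_map_inj`, `nd_mono`
and `nd_toep_le`.
-/

set_option autoImplicit false
set_option linter.unusedSectionVars false

namespace Pool.Agent.H84.At.SG

open scoped ENNReal InnerProductSpace Classical

variable {G : Type} [Group G] {ι κ ν : Type}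

/-- the operator `y_k = ∑ j, ζ_j ^ k x_j` -/
private noncomputable def Van_T (G ι : Type) [Group G] {M : ℕ} (ζ : Fin M → ℂ) :
    E (G × (Fin M × ι)) →L[ℂ] E (G × (Fin M × ι)) :=
  ∑ k : Fin M, (bi k).comp (∑ j : Fin M, ζ j ^ (k : ℕ) • bl j)

private theorem Van_bl {M : ℕ} (ζ : Fin M → ℂ) (x : E (G × (Fin M × ι))) (l : Fin M) :
    bl l (Van_T G ι ζ x) = ∑ j : Fin M, ζ j ^ (l : ℕ) • bl j x := by
  have h : Van_T G ι ζ x = ∑ k : Fin M, bi k (∑ j : Fin M, ζ j ^ (k : ℕ) • bl j x) := by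
    unfold Van_T
    rw [ContinuousLinearMap.sum_apply]
    refine Finset.sum_congr rfl fun k _ => ?_
    rw [ContinuousLinearMap.comp_apply, ContinuousLinearMap.sum_apply]
    rfl
  rw [h, map_sum, Finset.sum_eq_single l, bl_bi]
  · intro k _ hk
    exact bl_bi_ne hk.symm _
  · intro h'
    exact absurd (Finset.mem_univ l) h'

private theorem Van_equi {M : ℕ} (ζ : Fin M → ℂ) : Equi (Van_T G ι ζ) := by
  unfold Van_T
  refine Equi.sum fun k => ?_
  exact Equi.comp (equi_bi k) (Equi.sum fun j => (equi_bl j).smul _)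

private theorem Van_inj {M : ℕ} (ζ : Fin M → ℂ) (hζ : Function.Injective ζ)
    (x : E (G × (Fin M × ι))) (hx : Van_T G ι ζ x = 0) : x = 0 := by
  have h1 : ∀ l : Fin M, ∑ j : Fin M, ζ j ^ (l : ℕ) • bl j x = 0 := by
    intro l
    rw [← Van_bl, hx, map_zero]
  ext ⟨g, j, i⟩
  have h2 : (fun j : Fin M => x (g, (j, i))) = 0 := by
    refine Matrix.eq_zero_of_vecMul_eq_zero
      (M := Matrix.vandermonde ζ) (Matrix.det_vandermonde_ne_zero_iff.2 hζ) ?_
    funext l
    have h3 := congrArg (fun w : E (G × ι) => w (g, i)) (h1 l)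
    have h4 : (∑ j : Fin M, ζ j ^ (l : ℕ) • bl j x : E (G × ι)) (g, i) =
        ∑ j : Fin M, ζ j ^ (l : ℕ) * x (g, (j, i)) := by
      rw [lp.coeFn_sum, Finset.sum_apply]
      rfl
    have h5 : ∑ j : Fin M, ζ j ^ (l : ℕ) * x (g, (j, i)) = 0 := by
      rw [← h4]
      exact h3
    rw [Matrix.vecMul, dotProduct, Pi.zero_apply]
    rw [← h5]
    refine Finset.sum_congr rfl fun j _ => ?_
    rw [Matrix.vandermonde_apply, mul_comm]
  exact congrFun h2 j

private theorem Van_toep {P : ℕ → E (G × ι) →L[ℂ] E (G × κ)} (d N : ℕ) (ζ : Fin (d + N) → ℂ)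
    (x : E (G × (Fin (d + N) × ι))) (hx : ∀ j, bl j x ∈ kr (pol P d (ζ j))) :
    Van_T G ι ζ x ∈ toep P d N := by
  rw [mem_toep]
  intro l hl
  have h1 : ∀ k : Fin (d + 1), bn (d + N) (l + k) (Van_T G ι ζ x) =
      ∑ j : Fin (d + N), ζ j ^ (l + (k : ℕ)) • bl j x := by
    intro k
    have hk : l + (k : ℕ) < d + N := by
      have := k.2
      omega
    rw [bn_of_lt hk, Van_bl]
  have h2 : ∀ k : Fin (d + 1), P k (bn (d + N) (l + k) (Van_T G ι ζ x)) =
      ∑ j : Fin (d + N), ζ j ^ l • (ζ j ^ (k : ℕ) • P k (bl j x)) := by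
    intro k
    rw [h1 k, map_sum]
    refine Finset.sum_congr rfl fun j _ => ?_
    rw [map_smul, smul_smul, pow_add]
  rw [Finset.sum_congr rfl fun k _ => h2 k, Finset.sum_comm]
  refine Finset.sum_eq_zero fun j _ => ?_
  rw [← Finset.smul_sum, ← pol_apply, mem_kr.1 (hx j), smul_zero]

theorem pencil [Fintype ι] [Fintype κ] {P : ℕ → E (G × ι) →L[ℂ] E (G × κ)}
    (hP : ∀ k, Equi (P k)) (d N : ℕ) (ζ : Fin (d + N) → ℂ) (hζ : Function.Injective ζ) :
    ∑ j, nd (kr (pol P d (ζ j))) ≤ N * nd (kr (P 0)) + d * Fintype.card ι := by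
  have hc : ∀ j, IsClosed (kr (pol P d (ζ j)) : Set (E (G × ι))) := fun j => closed_kr _
  have hi : ∀ j, Inv (kr (pol P d (ζ j))) := fun j => inv_kr (equi_pol hP d (ζ j))
  have h1 := nd_prodS (K := fun j => kr (pol P d (ζ j))) hc
  have h2 := nd_map_inj (Van_T G ι ζ) (Van_equi ζ) (prodS fun j => kr (pol P d (ζ j)))
    (closed_prodS hc) (inv_prodS hi) (fun u _ hu => Van_inj ζ hζ u hu)
  have h3 : nd ((prodS fun j => kr (pol P d (ζ j))).map (Van_T G ι ζ).toLinearMap) ≤
      nd (toep P d N) := by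
    refine nd_mono ?_
    rintro _ ⟨x, hx, rfl⟩
    exact Van_toep d N ζ x (mem_prodS.1 hx)
  have h4 := nd_toep_le hP d N
  linarith

end Pool.Agent.H84.At.SG
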