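import Pool.Agent.H38.SG.Twist

/-!
# Module Wt: twisting a matrix by a character of a subgroup

`exists_psi`: choose a representative `r(g)` of the left coset `g H` (`Quotient.out` of the class of
`g` in `G ⧸ H`), so `r(g)⁻¹ g ∈ H` and `r(g h) = r(g)`, and put `ψ g = φ (r(g)⁻¹ g)`.
`nd_ker_wt`: with `θ (g, i) = ζ ^ (a i - ψ g)` (`zpow`, unimodular) one has, for `x : E (G × ι)` and
`y = mu θ x`, for every `j` and `g`,
`∑ i, ∑ h, x (g h⁻¹, i) * (ζ ^ ex i j h * A i j h) = ζ ^ (ψ g - b j) * ∑ i, ∑ h, y (g h⁻¹, i) * A i j h`,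
because `ψ g = ψ (g h⁻¹) + φ h` for `h ∈ H`. So `x ∈ ker (wt ζ ex A) ↔ mu θ x ∈ ker A`
(`mem_ker_iff`; the supports of `wt ζ e A i j` and `A i j` agree as `ζ ≠ 0`), and `nd_twist` applies.
-/

set_option autoImplicit false
set_option linter.unusedSectionVars false

namespace Pool.Agent.H84.At.SG

open scoped ENNReal InnerProductSpace Classical

variable {G : Type} [Group G] {ι κ ν : Type}

theorem exists_psi (H : Subgroup G) (φ : H →* Multiplicative ℤ) :
    ∃ ψ : G → ℤ, ∀ (g h : G) (hh : h ∈ H), ψ (g * h) = ψ g + Multiplicative.toAdd (φ ⟨h, hh⟩) := by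
  have hr : ∀ g : G, (Quotient.out (QuotientGroup.mk g : G ⧸ H))⁻¹ * g ∈ H := by
    intro g
    obtain ⟨k, hk⟩ := QuotientGroup.mk_out_eq_mul H g
    have h1 : (Quotient.out (QuotientGroup.mk g : G ⧸ H))⁻¹ * g = (k : G)⁻¹ := by
      rw [hk]
      group
    rw [h1]
    exact H.inv_mem k.2
  refine ⟨fun g => Multiplicative.toAdd (φ ⟨_, hr g⟩), ?_⟩
  intro g h hh
  have h1 : (QuotientGroup.mk (g * h) : G ⧸ H) = QuotientGroup.mk g := by
    rw [QuotientGroup.eq]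
    have h2 : (g * h)⁻¹ * g = h⁻¹ := by group
    rw [h2]
    exact H.inv_mem hh
  have h3 : (⟨_, hr (g * h)⟩ : H) = ⟨_, hr g⟩ * ⟨h, hh⟩ := by
    apply Subtype.ext
    change (Quotient.out (QuotientGroup.mk (g * h) : G ⧸ H))⁻¹ * (g * h) =
      (Quotient.out (QuotientGroup.mk g : G ⧸ H))⁻¹ * g * h
    rw [h1, mul_assoc]
  change Multiplicative.toAdd (φ ⟨_, hr (g * h)⟩) = _
  rw [h3, map_mul, toAdd_mul]

/-- the exponent of the coefficient of `g` in the entry `(i, j)` -/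
noncomputable def ex (H : Subgroup G) (φ : H →* Multiplicative ℤ) (a : ι → ℤ) (b : κ → ℤ)
    (i : ι) (j : κ) (g : G) : ℤ :=
  if h : g ∈ H then a i + Multiplicative.toAdd (φ ⟨g, h⟩) - b j else 0

theorem nd_ker_wt [Fintype ι] [Fintype κ] (H : Subgroup G) (φ : H →* Multiplicative ℤ) (a : ι → ℤ)
    (b : κ → ℤ) (A : Matrix ι κ (G →₀ ℂ)) (hA : ∀ i j g, A i j g ≠ 0 → g ∈ H) (ζ : ℂ)
    (hζ : ‖ζ‖ = 1) : nd (ker (wt ζ (ex H φ a b) A)) = nd (ker A) := by
  obtain ⟨ψ, hψ⟩ := exists_psi H φ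
  have h0 : ζ ≠ 0 := by
    intro h
    rw [h, norm_zero] at hζ
    exact zero_ne_one hζ
  have hθ : ∀ c : G × ι, ‖ζ ^ (a c.2 - ψ c.1)‖ = 1 := by
    intro c
    rw [norm_zpow, hζ, one_zpow]
  refine nd_twist (isClosed_kerA A) (isClosed_kerA _) (fun c => ζ ^ (a c.2 - ψ c.1)) hθ ?_
  intro u
  rw [mem_ker_iff, mem_ker_iff]
  have hsupp : ∀ i j, (wt ζ (ex H φ a b) A i j).support = (A i j).support := by
    intro i j
    ext h
    rw [Finsupp.mem_support_iff, Finsupp.mem_support_iff, wt_apply]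
    constructor
    · exact fun h1 => right_ne_zero_of_mul h1
    · exact fun h1 => mul_ne_zero (zpow_ne_zero _ h0) h1
  have key : ∀ (j : κ) (g : G),
      ∑ i, ∑ h ∈ (wt ζ (ex H φ a b) A i j).support,
        u (g * h⁻¹, i) * wt ζ (ex H φ a b) A i j h =
      ζ ^ (ψ g - b j) * ∑ i, ∑ h ∈ (A i j).support,
        mu (fun c : G × ι => ζ ^ (a c.2 - ψ c.1)) hθ u (g * h⁻¹, i) * A i j h := by
    intro j g
    rw [Finset.mul_sum]
    refine Finset.sum_congr rfl fun i _ => ?_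
    rw [hsupp, Finset.mul_sum]
    refine Finset.sum_congr rfl fun h hh => ?_
    have hH : h ∈ H := hA i j h (Finsupp.mem_support_iff.1 hh)
    have h1 : ψ g = ψ (g * h⁻¹) + Multiplicative.toAdd (φ ⟨h, hH⟩) := by
      rw [← hψ (g * h⁻¹) h hH, inv_mul_cancel_right]
    have h2 : ex H φ a b i j h = (ψ g - b j) + (a i - ψ (g * h⁻¹)) := by
      unfold ex
      rw [dif_pos hH, h1]
      ring
    rw [wt_apply, mu_apply, h2, zpow_add₀ h0]
    ring
  constructor
  · intro h j g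
    have h1 := h j g
    rw [key] at h1
    exact (mul_eq_zero.1 h1).resolve_left (zpow_ne_zero _ h0)
  · intro h j g
    rw [key, h j g, mul_zero]

end Pool.Agent.H84.At.SG
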